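import Pool.Agent.H95.DT.Four

/-!
# Two-transitive groups in dimension at least five: no square-zero elements of rank two
-/

namespace Pool.Agent.H95.DT

open Module Pool.Agent.H20.ProjTwoTrans

variable {F V : Type*} [Field F] [AddCommGroup V] [Module F V]
variable {G : Subgroup (V ≃ₗ[F] V)}

lemma rank_UT [FiniteDimensional F V] (hP : NoP G) {L : Submodule F V}
    (hL : finrank F L = 2) {N : V →ₗ[F] V} (hN : UT G L N) (h0 : N ≠ 0) :
    LinearMap.range N = L ∧ finrank F (LinearMap.ker N) + 2 = finrank F V := by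
  have h1 := LinearMap.finrank_range_add_finrank_ker N
  have h2 := Submodule.finrank_mono hN.2.1
  have h3 : ¬ finrank F (LinearMap.range N) ≤ 1 := fun h => h0 (hP N hN.1 h)
  refine ⟨Submodule.eq_of_le_of_finrank_eq hN.2.1 (by omega), by omega⟩

/-- the commutator of two square-zero elements one of which kills the image of the other -/
lemma in_comm {N N' : V →ₗ[F] V} (hN : In G N) (hN' : In G N') (h1 : ∀ x, N (N x) = 0)
    (h3 : ∀ x, N (N' x) = 0) : In G (-(N' ∘ₗ N)) := by
  obtain ⟨u, hu, huN⟩ := hN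
  obtain ⟨u', hu', huN'⟩ := hN'
  refine ⟨(u * u') * (u' * u)⁻¹, G.mul_mem (G.mul_mem hu hu')
    (G.inv_mem (G.mul_mem hu' hu)), fun z => ?_⟩
  obtain ⟨x, rfl⟩ := (u' * u).surjective z
  rw [mul_inv_apply_of]
  simp only [apply_mul, huN, huN', map_add, LinearMap.neg_apply, LinearMap.comp_apply, h1, h3,
    map_zero, add_zero, zero_add]
  abel

lemma UT_kill [FiniteDimensional F V] (hP : NoP G) {L L' : Submodule F V}
    (hL : finrank F L = 2) (hL' : finrank F L' = 2) {N N' : V →ₗ[F] V} (hN : UT G L N)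
    (hN' : UT G L' N') (h0 : N ≠ 0) (hle : L' ≤ LinearMap.ker N) {p : V} (hp : p ≠ 0)
    (hpL : p ∈ L) (hpL' : p ∈ L') : L ≤ LinearMap.ker N' := by
  have e1 : ∀ x, N (N x) = 0 := fun x => map_zero_of_UT hN (mem_of_UT hN x)
  have e3 : ∀ x, N (N' x) = 0 := fun x => LinearMap.mem_ker.1 (hle (mem_of_UT hN' x))
  have hIn := in_comm hN.1 hN'.1 e1 e3
  obtain ⟨q, hq, hind⟩ := exists_second hL hpL hp
  have hrk : finrank F (LinearMap.range (-(N' ∘ₗ N))) ≤ 1 := by
    have hle : LinearMap.range (-(N' ∘ₗ N)) ≤ Submodule.span F {N' q} := by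
      rintro _ ⟨x, rfl⟩
      obtain ⟨a, b, hab⟩ := exists_comb hL hpL hq hind (mem_of_UT hN x)
      rw [LinearMap.neg_apply, LinearMap.comp_apply, hab, map_add, map_smul, map_smul,
        map_zero_of_UT hN' hpL', smul_zero, zero_add]
      exact Submodule.neg_mem _ (Submodule.smul_mem _ _ (Submodule.mem_span_singleton_self _))
    refine (Submodule.finrank_mono hle).trans ?_
    have h3 := finrank_span_le_card (R := F) ({N' q} : Set V)
    simpa using h3
  have hz := hP _ hIn hrk
  obtain ⟨hr, -⟩ := rank_UT hP hL hN h0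
  intro x hx
  rw [← hr] at hx
  obtain ⟨y, rfl⟩ := hx
  have := congrArg (fun M : V →ₗ[F] V => M y) hz
  simp only [LinearMap.neg_apply, LinearMap.comp_apply, LinearMap.zero_apply, neg_eq_zero] at this
  exact this

/-- the common kernel of the elements of a line -/
def EL (G : Subgroup (V ≃ₗ[F] V)) (L : Submodule F V) : Submodule F V where
  carrier := {x | ∀ N, UT G L N → N x = 0}
  add_mem' := by
    intro a b ha hb N hN
    rw [map_add, ha N hN, hb N hN, add_zero]
  zero_mem' := fun N _ => map_zero N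
  smul_mem' := by
    intro c x hx N hN
    rw [map_smul, hx N hN, smul_zero]

lemma le_EL (L : Submodule F V) : L ≤ EL G L := fun _ hx _ hN => map_zero_of_UT hN hx

section hU

variable [FiniteDimensional F V]

lemma ker_le (hP : NoP G) (hU : ∀ L : Submodule F V, finrank F L = 2 → ∃ N, UT G L N ∧ N ≠ 0)
    {L : Submodule F V} (hL : finrank F L = 2) {N1 N2 : V →ₗ[F] V} (h1 : UT G L N1)
    (h10 : N1 ≠ 0) (h2 : UT G L N2) {b : V} (hb : N1 b = 0) : N2 b = 0 := by
  by_cases h20 : N2 = 0
  · rw [h20]; rfl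
  by_cases hbL : b ∈ L
  · exact map_zero_of_UT h2 hbL
  obtain ⟨p, hp, q, hq, hind⟩ := exists_pair hL
  have hp0 : p ≠ 0 := hind.ne_zero 0
  have hpb : LinearIndependent F ![p, b] := by
    apply indep_of_not_mem hp0
    intro h
    apply hbL
    obtain ⟨c, rfl⟩ := Submodule.mem_span_singleton.1 h
    exact L.smul_mem _ hp
  have hL' := finrank_pair hpb
  obtain ⟨N', hN', hN'0⟩ := hU _ hL'
  have mp : p ∈ Submodule.span F {p, b} := Submodule.subset_span (by simp)
  have mb : b ∈ Submodule.span F {p, b} := Submodule.subset_span (by simp)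
  have hle : Submodule.span F {p, b} ≤ LinearMap.ker N1 := by
    rw [Submodule.span_le]
    rintro x (rfl | rfl)
    · exact map_zero_of_UT h1 hp
    · exact hb
  have k1 := UT_kill hP hL hL' h1 hN' h10 hle hp0 hp mp
  have k2 := UT_kill hP hL' hL hN' h2 hN'0 k1 hp0 mp hp
  exact LinearMap.mem_ker.1 (k2 mb)

lemma mem_EL_iff (hP : NoP G)
    (hU : ∀ L : Submodule F V, finrank F L = 2 → ∃ N, UT G L N ∧ N ≠ 0)
    {L : Submodule F V} (hL : finrank F L = 2) {N : V →ₗ[F] V} (h : UT G L N)
    (h0 : N ≠ 0) {b : V} : b ∈ EL G L ↔ N b = 0 :=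
  ⟨fun hb => hb N h, fun hb _ hN2 => ker_le hP hU hL h h0 hN2 hb⟩

lemma finrank_EL (hP : NoP G)
    (hU : ∀ L : Submodule F V, finrank F L = 2 → ∃ N, UT G L N ∧ N ≠ 0)
    {L : Submodule F V} (hL : finrank F L = 2) : finrank F (EL G L) + 2 = finrank F V := by
  obtain ⟨N, hN, h0⟩ := hU L hL
  have : EL G L = LinearMap.ker N := by
    ext b
    rw [LinearMap.mem_ker]
    exact mem_EL_iff hP hU hL hN h0
  rw [this]
  exact (rank_UT hP hL hN h0).2

/-- symmetry -/
lemma EL_symm (hP : NoP G)
    (hU : ∀ L : Submodule F V, finrank F L = 2 → ∃ N, UT G L N ∧ N ≠ 0)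
    {p a b : V} (ha : LinearIndependent F ![p, a]) (hb : LinearIndependent F ![p, b])
    (h : b ∈ EL G (Submodule.span F {p, a})) : a ∈ EL G (Submodule.span F {p, b}) := by
  have hL := finrank_pair ha
  have hL' := finrank_pair hb
  obtain ⟨N, hN, h0⟩ := hU _ hL
  have mp : p ∈ Submodule.span F {p, a} := Submodule.subset_span (by simp)
  have ma : a ∈ Submodule.span F {p, a} := Submodule.subset_span (by simp)
  have mp' : p ∈ Submodule.span F {p, b} := Submodule.subset_span (by simp)
  intro N' hN'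
  have hle : Submodule.span F {p, b} ≤ LinearMap.ker N := by
    rw [Submodule.span_le]
    rintro x (rfl | rfl)
    · exact map_zero_of_UT hN mp
    · exact h N hN
  exact LinearMap.mem_ker.1 (UT_kill hP hL hL' hN hN' h0 hle (ha.ne_zero 0) mp mp' ma)

/-- an element preserving a line preserves its common kernel -/
lemma EL_inv {L : Submodule F V} {u : V ≃ₗ[F] V} (hu : u ∈ G) (huL : ∀ x ∈ L, u x ∈ L) {x : V}
    (hx : x ∈ EL G L) : u x ∈ EL G L := by
  intro N hN
  set M : V →ₗ[F] V := ((u⁻¹ : V ≃ₗ[F] V) : V →ₗ[F] V) ∘ₗ N ∘ₗ (u : V →ₗ[F] V) with hM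
  have hMa : ∀ x, u (M x) = N (u x) := by
    intro x
    rw [hM]
    simp only [LinearMap.comp_apply, LinearEquiv.coe_coe]
    rw [apply_inv]
  have hUM : UT G L M := by
    obtain ⟨⟨g, hg, hgN⟩, hr, hker⟩ := hN
    refine ⟨⟨u⁻¹ * g * u, G.mul_mem (G.mul_mem (G.inv_mem hu) hg) hu, fun z => ?_⟩, ?_, ?_⟩
    · apply u.injective
      rw [apply_mul, apply_mul, apply_inv, map_add, hMa, hgN]
    · rintro _ ⟨z, rfl⟩
      have h1 : M z = u⁻¹ (N (u z)) := by rw [← hMa, inv_apply]
      rw [h1]
      exact inv_mem_of huL (hr ⟨_, rfl⟩)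
    · intro z hz
      rw [LinearMap.mem_ker]
      apply u.injective
      rw [hMa, map_zero]
      exact LinearMap.mem_ker.1 (hker (huL z hz))
  have := hx M hUM
  rw [← hMa, this, map_zero]

/-- the key inclusion -/
lemma EL_key (hP : NoP G)
    (hU : ∀ L : Submodule F V, finrank F L = 2 → ∃ N, UT G L N ∧ N ≠ 0)
    {p a s h : V} (ha : LinearIndependent F ![p, a]) (hs : LinearIndependent F ![p, s])
    (hh : LinearIndependent F ![p, h]) {N : V →ₗ[F] V} (hN : UT G (Submodule.span F {p, a}) N)
    (hNs : N s ∉ Submodule.span F {p}) (hhs : h ∈ EL G (Submodule.span F {p, s}))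
    (hNh : N h ∈ Submodule.span F {p}) : h ∈ EL G (Submodule.span F {p, a}) := by
  apply EL_symm hP hU hh ha
  have h1 := EL_symm hP hU hs hh hhs
  have mp : p ∈ Submodule.span F {p, h} := Submodule.subset_span (by simp)
  have mh : h ∈ Submodule.span F {p, h} := Submodule.subset_span (by simp)
  have hNp : N p = 0 := map_zero_of_UT hN (Submodule.subset_span (by simp))
  obtain ⟨u, hu, huN⟩ := hN.1
  have hsub : Submodule.span F {p} ≤ Submodule.span F {p, h} := by
    rw [Submodule.span_le]
    rintro x rfl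
    exact mp
  have hup : ∀ x ∈ Submodule.span F {p, h}, u x ∈ Submodule.span F {p, h} := by
    intro x hx
    obtain ⟨c, d, rfl⟩ := Submodule.mem_span_pair.1 hx
    rw [huN]
    refine Submodule.add_mem _ hx ?_
    rw [map_add, map_smul, map_smul, hNp, smul_zero, zero_add]
    exact Submodule.smul_mem _ _ (hsub hNh)
  have h2 := EL_inv hu hup h1
  have h3 : N s ∈ EL G (Submodule.span F {p, h}) := by
    have := Submodule.sub_mem _ h2 h1
    rwa [huN, add_sub_cancel_left] at this
  obtain ⟨c, d, hcd⟩ := Submodule.mem_span_pair.1 (mem_of_UT hN s)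
  have hd : d ≠ 0 := by
    rintro rfl
    apply hNs
    rw [← hcd, zero_smul, add_zero]
    exact Submodule.smul_mem _ _ (Submodule.mem_span_singleton_self _)
  have h4 : d • a ∈ EL G (Submodule.span F {p, h}) := by
    have : d • a = N s - c • p := by rw [← hcd]; abel
    rw [this]
    exact Submodule.sub_mem _ h3 (Submodule.smul_mem _ _ (le_EL _ mp))
  have := Submodule.smul_mem _ d⁻¹ h4
  rwa [smul_smul, inv_mul_cancel₀ hd, one_smul] at this

omit [FiniteDimensional F V] in
/-- coordinate along `a` -/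
lemma exists_coord {p a : V} (ha : LinearIndependent F ![p, a]) {N : V →ₗ[F] V}
    (hN : UT G (Submodule.span F {p, a}) N) :
    ∃ f : Dual F V, ∀ x, f x = 0 ↔ N x ∈ Submodule.span F {p} := by
  obtain ⟨φ, h1, h2⟩ := exists_functional ha
  refine ⟨φ ∘ₗ N, fun x => ?_⟩
  obtain ⟨c, d, hcd⟩ := Submodule.mem_span_pair.1 (mem_of_UT hN x)
  have e : (φ ∘ₗ N) x = d * φ a := by
    rw [LinearMap.comp_apply, ← hcd, map_add, map_smul, map_smul, h1, smul_zero, zero_add,
      smul_eq_mul]
  rw [e]
  constructor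
  · intro h
    have hd : d = 0 := (mul_eq_zero.1 h).resolve_right h2
    rw [← hcd, hd, zero_smul, add_zero]
    exact Submodule.smul_mem _ _ (Submodule.mem_span_singleton_self _)
  · intro h
    obtain ⟨c', hc'⟩ := Submodule.mem_span_singleton.1 h
    rw [← hcd] at hc'
    have h3 : d • a ∈ Submodule.span F {p} := by
      rw [Submodule.mem_span_singleton]
      refine ⟨c' - c, ?_⟩
      rw [sub_smul, hc']; abel
    have hd : d = 0 := by
      by_contra hd
      apply not_mem_of_indep ha
      have := Submodule.smul_mem _ d⁻¹ h3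
      rwa [smul_smul, inv_mul_cancel₀ hd, one_smul] at this
    rw [hd, zero_mul]

/-- `E_s ≤ E_a + s` -/
lemma EL_le1 (hP : NoP G)
    (hU : ∀ L : Submodule F V, finrank F L = 2 → ∃ N, UT G L N ∧ N ≠ 0)
    {p a s : V} (ha : LinearIndependent F ![p, a]) (hs : LinearIndependent F ![p, s])
    {N : V →ₗ[F] V} (hN : UT G (Submodule.span F {p, a}) N)
    (hNs : N s ∉ Submodule.span F {p}) :
    EL G (Submodule.span F {p, s}) ≤ EL G (Submodule.span F {p, a}) ⊔ Submodule.span F {s} := by
  obtain ⟨f, hf⟩ := exists_coord ha hN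
  have hfs : f s ≠ 0 := fun h => hNs ((hf s).1 h)
  intro x hx
  set y := x - (f x / f s) • s with hy
  have ms : s ∈ Submodule.span F {p, s} := Submodule.subset_span (by simp)
  have hyE : y ∈ EL G (Submodule.span F {p, s}) :=
    Submodule.sub_mem _ hx (Submodule.smul_mem _ _ (le_EL _ ms))
  have hfy : f y = 0 := by
    rw [hy, map_sub, map_smul, smul_eq_mul]
    field_simp
    ring
  have hya : y ∈ EL G (Submodule.span F {p, a}) := by
    by_cases hyp : y ∈ Submodule.span F {p}
    · apply le_EL
      have : Submodule.span F {p} ≤ Submodule.span F {p, a} := by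
        rw [Submodule.span_le]
        rintro x rfl
        exact Submodule.subset_span (by simp)
      exact this hyp
    · exact EL_key hP hU ha hs (indep_of_not_mem (ha.ne_zero 0) hyp) hN hNs hyE ((hf y).1 hfy)
  have : x = y + (f x / f s) • s := by rw [hy]; abel
  rw [this]
  exact Submodule.add_mem_sup hya
    (Submodule.smul_mem _ _ (Submodule.mem_span_singleton_self _))

/-- `E_a ≤ E_s + a` -/
lemma EL_le2 (hP : NoP G)
    (hU : ∀ L : Submodule F V, finrank F L = 2 → ∃ N, UT G L N ∧ N ≠ 0)
    {p a s : V} (ha : LinearIndependent F ![p, a]) (hs : LinearIndependent F ![p, s])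
    {N : V →ₗ[F] V} (hN : UT G (Submodule.span F {p, a}) N)
    (hNs : N s ∉ Submodule.span F {p}) :
    EL G (Submodule.span F {p, a}) ≤ EL G (Submodule.span F {p, s}) ⊔ Submodule.span F {a} := by
  set Ea := EL G (Submodule.span F {p, a}) with hEa
  set Es := EL G (Submodule.span F {p, s}) with hEs
  have h1 := EL_le1 hP hU ha hs hN hNs
  have d1 := finrank_EL hP hU (finrank_pair ha)
  have d2 := finrank_EL hP hU (finrank_pair hs)
  rw [← hEa] at d1
  rw [← hEs] at d2
  have ma : a ∈ Ea := le_EL _ (Submodule.subset_span (by simp))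
  have hsa : s ∉ Ea := by
    intro h
    apply hNs
    rw [h N hN]
    exact Submodule.zero_mem _
  have has : a ∉ Es := fun h => hsa (EL_symm hP hU hs ha h)
  have h2 : finrank F (Ea ⊔ Es : Submodule F V) + 1 ≤ finrank F V := by
    have h3 : Ea ⊔ Es ≤ Ea ⊔ Submodule.span F {s} := sup_le le_sup_left h1
    have h4 := Submodule.finrank_mono h3
    rw [Submodule.finrank_sup_span_singleton hsa] at h4
    omega
  have h3 := Submodule.finrank_sup_add_finrank_inf_eq Ea Es
  have h4 : a ∉ Ea ⊓ Es := fun h => has h.2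
  have h5 := Submodule.finrank_sup_span_singleton h4
  have h6 : (Ea ⊓ Es) ⊔ Submodule.span F {a} = Ea := by
    apply Submodule.eq_of_le_of_finrank_le
    · refine sup_le inf_le_left ?_
      rw [Submodule.span_singleton_le_iff_mem]
      exact ma
    · omega
  rw [← h6]
  exact sup_le_sup_right inf_le_right _

/-- every `E_x` with `x` in the hyperplane `E_a + s` is contained in it -/
lemma EL_hyp (hP : NoP G)
    (hU : ∀ L : Submodule F V, finrank F L = 2 → ∃ N, UT G L N ∧ N ≠ 0)
    {p a s : V} (ha : LinearIndependent F ![p, a])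
    {N : V →ₗ[F] V} (hN : UT G (Submodule.span F {p, a}) N)
    (hNs : N s ∉ Submodule.span F {p}) {x : V} (hx : LinearIndependent F ![p, x])
    (hxm : x ∈ EL G (Submodule.span F {p, a}) ⊔ Submodule.span F {s}) :
    EL G (Submodule.span F {p, x}) ≤ EL G (Submodule.span F {p, a}) ⊔ Submodule.span F {s} := by
  set Ea := EL G (Submodule.span F {p, a}) with hEa
  set Pi0 := Ea ⊔ Submodule.span F {s} with hPi
  have hp0 : p ≠ 0 := ha.ne_zero 0
  have hpEa : p ∈ Ea := le_EL _ (Submodule.subset_span (by simp))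
  have hsa : s ∉ Ea := by
    intro h
    apply hNs
    rw [h N hN]
    exact Submodule.zero_mem _
  have hsPi0 : s ∈ Pi0 := Submodule.mem_sup_right (Submodule.mem_span_singleton_self _)
  -- first case
  have case1 : ∀ y ∈ Pi0, y ∉ Ea → EL G (Submodule.span F {p, y}) ≤ Pi0 := by
    intro y hy hyE
    have hpy : LinearIndependent F ![p, y] := by
      apply indep_of_not_mem hp0
      intro h
      apply hyE
      obtain ⟨c, rfl⟩ := Submodule.mem_span_singleton.1 h
      exact Submodule.smul_mem _ _ hpEa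
    obtain ⟨e, he, z, hz, hez⟩ := Submodule.mem_sup.1 hy
    obtain ⟨c, rfl⟩ := Submodule.mem_span_singleton.1 hz
    have hNy : N y ∉ Submodule.span F {p} := by
      rw [← hez, map_add, he N hN, zero_add, map_smul]
      intro h
      have hc : c ≠ 0 := by
        rintro rfl
        apply hyE
        rw [← hez, zero_smul, add_zero]
        exact he
      apply hNs
      have := Submodule.smul_mem _ c⁻¹ h
      rwa [smul_smul, inv_mul_cancel₀ hc, one_smul] at this
    refine (EL_le1 hP hU ha hpy hN hNy).trans (sup_le le_sup_left ?_)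
    rw [Submodule.span_singleton_le_iff_mem]
    exact hy
  by_cases hxE : x ∈ Ea
  swap
  · exact case1 x hxm hxE
  obtain ⟨M, hM, hM0⟩ := hU _ (finrank_pair hx)
  obtain ⟨f, hf⟩ := exists_coord hx hM
  by_cases hall : ∀ y ∈ Pi0, f y = 0
  · -- then `Pi0` is the kernel of `f`
    have h1 : Pi0 ≤ LinearMap.ker f := fun y hy => LinearMap.mem_ker.2 (hall y hy)
    have h2 : EL G (Submodule.span F {p, x}) ≤ LinearMap.ker f := by
      intro y hy
      rw [LinearMap.mem_ker, hf, hy M hM]
      exact Submodule.zero_mem _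
    have h3 : finrank F (LinearMap.ker f) + 1 ≤ finrank F V := by
      have hne : LinearMap.ker f ≠ ⊤ := by
        intro h
        obtain ⟨hr, -⟩ := rank_UT hP (finrank_pair hx) hM hM0
        have hxr : x ∈ LinearMap.range M := by
          rw [hr]; exact Submodule.subset_span (by simp)
        obtain ⟨y, hy⟩ := hxr
        have hfy : f y = 0 := by
          have : y ∈ LinearMap.ker f := by rw [h]; trivial
          exact this
        rw [hf, hy] at hfy
        exact not_mem_of_indep hx hfy
      have := Submodule.finrank_lt hne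
      omega
    have h4 : finrank F Pi0 = finrank F Ea + 1 := Submodule.finrank_sup_span_singleton hsa
    have h5 := finrank_EL hP hU (finrank_pair ha)
    rw [← hEa] at h5
    have h6 : Pi0 = LinearMap.ker f := Submodule.eq_of_le_of_finrank_le h1 (by omega)
    rw [h6]
    exact h2
  · push Not at hall
    obtain ⟨y', hy', hfy'⟩ := hall
    obtain ⟨y, hy, hyE, hfy⟩ : ∃ y ∈ Pi0, y ∉ Ea ∧ f y ≠ 0 := by
      by_cases h1 : y' ∈ Ea
      · by_cases h2 : f s = 0
        · refine ⟨y' + s, Submodule.add_mem _ hy' hsPi0, ?_, ?_⟩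
          · intro h
            apply hsa
            have := Submodule.sub_mem _ h h1
            rwa [add_sub_cancel_left] at this
          · rw [map_add, h2, add_zero]; exact hfy'
        · exact ⟨s, hsPi0, hsa, h2⟩
      · exact ⟨y', hy', h1, hfy'⟩
    have hpy : LinearIndependent F ![p, y] := by
      apply indep_of_not_mem hp0
      intro h
      apply hyE
      obtain ⟨c, rfl⟩ := Submodule.mem_span_singleton.1 h
      exact Submodule.smul_mem _ _ hpEa
    have hMy : M y ∉ Submodule.span F {p} := fun h => hfy ((hf y).2 h)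
    refine (EL_le2 hP hU hx hpy hM hMy).trans (sup_le (case1 y hy hyE) ?_)
    rw [Submodule.span_singleton_le_iff_mem]
    exact hxm

/-- In dimension at least five there are no square-zero elements of rank two. -/
theorem no_square_zero_of_five (hP : NoP G) (hd : 5 ≤ finrank F V)
    (hG : TwoTrans G) {L : Submodule F V}
    (hL : finrank F L = 2) {N₁ : V →ₗ[F] V} (hN₁ : UT G L N₁) : N₁ = 0 := by
  by_contra h0
  have hU : ∀ L : Submodule F V, finrank F L = 2 → ∃ N, UT G L N ∧ N ≠ 0 := fun L' hL' =>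
    exists_UT hG hL hL' hN₁ h0
  obtain ⟨p, -, a, -, ha⟩ := exists_pair hL
  have hp0 : p ≠ 0 := ha.ne_zero 0
  obtain ⟨N, hN, hN0⟩ := hU _ (finrank_pair ha)
  obtain ⟨f, hf⟩ := exists_coord ha hN
  set Ea := EL G (Submodule.span F {p, a}) with hEa
  have hpEa : p ∈ Ea := le_EL _ (Submodule.subset_span (by simp))
  have dEa := finrank_EL hP hU (finrank_pair ha)
  rw [← hEa] at dEa
  -- the first point
  obtain ⟨s1, hs1⟩ : ∃ s, N s ∉ Submodule.span F {p} := by
    obtain ⟨hr, -⟩ := rank_UT hP (finrank_pair ha) hN hN0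
    have har : a ∈ LinearMap.range N := by
      rw [hr]; exact Submodule.subset_span (by simp)
    obtain ⟨y, hy⟩ := har
    exact ⟨y, by rw [hy]; exact not_mem_of_indep ha⟩
  have not_mem_Ea : ∀ s, N s ∉ Submodule.span F {p} → s ∉ Ea := by
    intro s hs h
    apply hs
    rw [h N hN]
    exact Submodule.zero_mem _
  have hs1E := not_mem_Ea s1 hs1
  set Pa := Ea ⊔ Submodule.span F {s1} with hPa
  have dPa : finrank F Pa = finrank F Ea + 1 := Submodule.finrank_sup_span_singleton hs1E
  have hs1Pi0 : s1 ∈ Pa := Submodule.mem_sup_right (Submodule.mem_span_singleton_self _)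
  -- the second point
  obtain ⟨s2, hs2, hs2Pi0⟩ : ∃ s, N s ∉ Submodule.span F {p} ∧ s ∉ Pa := by
    obtain ⟨t, ht⟩ : ∃ t, t ∉ Pa := by
      by_contra hcon
      push Not at hcon
      have : Pa = ⊤ := eq_top_iff.2 fun x _ => hcon x
      rw [this, finrank_top] at dPa
      omega
    by_cases h : N t ∈ Submodule.span F {p}
    · refine ⟨t + s1, ?_, ?_⟩
      · intro h2
        apply hs1
        have := Submodule.sub_mem _ h2 h
        rwa [map_add, add_sub_cancel_left] at this
      · intro h2
        apply ht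
        have := Submodule.sub_mem _ h2 hs1Pi0
        rwa [add_sub_cancel_right] at this
    · exact ⟨t, h, ht⟩
  -- `E_x ≤ E_a`
  have key : ∀ x ∈ Ea, LinearIndependent F ![p, x] → EL G (Submodule.span F {p, x}) ≤ Ea := by
    intro x hx hpx y hy
    have h1 := EL_hyp hP hU ha hN hs1 hpx (Submodule.mem_sup_left hx) hy
    have h2 := EL_hyp hP hU ha hN hs2 hpx (Submodule.mem_sup_left hx) hy
    obtain ⟨e, he, z, hz, hez⟩ := Submodule.mem_sup.1 h2
    obtain ⟨c, rfl⟩ := Submodule.mem_span_singleton.1 hz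
    have hc : c = 0 := by
      by_contra hc
      apply hs2Pi0
      have h3 : c • s2 ∈ Pa := by
        have : c • s2 = y - e := by rw [← hez]; abel
        rw [this]
        exact Submodule.sub_mem _ h1 (Submodule.mem_sup_left he)
      have := Submodule.smul_mem _ c⁻¹ h3
      rwa [smul_smul, inv_mul_cancel₀ hc, one_smul] at this
    rw [← hez, hc, zero_smul, add_zero]
    exact he
  have hps1 : LinearIndependent F ![p, s1] := by
    apply indep_of_not_mem hp0
    intro h
    apply hs1E
    obtain ⟨c, rfl⟩ := Submodule.mem_span_singleton.1 h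
    exact Submodule.smul_mem _ _ hpEa
  set Es := EL G (Submodule.span F {p, s1}) with hEs
  have dEs := finrank_EL hP hU (finrank_pair hps1)
  rw [← hEs] at dEs
  have h1 := EL_le1 hP hU ha hps1 hN hs1
  rw [← hEs, ← hEa, ← hPa] at h1
  have h2 : finrank F (Ea ⊔ Es : Submodule F V) ≤ finrank F Pa :=
    Submodule.finrank_mono (sup_le le_sup_left h1)
  have h3 := Submodule.finrank_sup_add_finrank_inf_eq Ea Es
  obtain ⟨x, hx, hxp⟩ : ∃ x ∈ Ea ⊓ Es, x ∉ Submodule.span F {p} := by
    by_contra hcon
    push Not at hcon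
    have h4 := Submodule.finrank_mono (show Ea ⊓ Es ≤ Submodule.span F {p} from hcon)
    rw [finrank_span_singleton hp0] at h4
    omega
  have hpx := indep_of_not_mem hp0 hxp
  have h5 : s1 ∈ EL G (Submodule.span F {p, x}) := EL_symm hP hU hps1 hpx hx.2
  exact hs1E (key x hx.1 hpx h5)

end hU

end Pool.Agent.H95.DT
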