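import Pool.Agent.H95.DT.CodA

/-!
# Two-transitive groups without square-zero elements: elements trivial on the quotient by a line
are scalar on the line
-/

namespace Pool.Agent.H95.DT

open Module Pool.Agent.H20.ProjTwoTrans

variable {F V : Type*} [Field F] [AddCommGroup V] [Module F V]
variable {G : Subgroup (V ≃ₗ[F] V)}

/-- An element which is trivial on `V / L` and not scalar on the line `L` produces one which is a
nontrivial transvection on `L` and one which is triangular. -/
lemma exists_transv_diag [FiniteDimensional F V] (hG : TwoTrans G) {s : F} (hs : s ≠ 0)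
    (hs4 : s ^ 4 ≠ 1)
    {L : Submodule F V} (hL : finrank F L = 2) {k : V ≃ₗ[F] V} (hk : k ∈ QT G L) {v : V}
    (hv : v ∈ L) (hind : LinearIndependent F ![v, k v]) :
    ∃ k' ∈ QT G L, ∃ R ∈ QT G L, ∃ v ∈ L, ∃ w ∈ L, ∃ c τ : F, c ≠ 0 ∧
      LinearIndependent F ![v, w] ∧
      k' v = v ∧ k' w = w + c • v ∧ R v = (s⁻¹ * s⁻¹) • v ∧ R w = (s ^ 2) • w + τ • v := by
  set w := k v with hwdef
  have hw : w ∈ L := QT_mem_line hk hv
  obtain ⟨a, t, hkw⟩ := exists_comb hL hv hw hind (QT_mem_line hk hw)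
  obtain ⟨e, he, hev, hew⟩ := exists_diag hG hind hs
  obtain ⟨u, hu, huv, huw⟩ := exists_unip hG hind 1
  have heL : ∀ x ∈ L, e x ∈ L := by
    intro x hx
    obtain ⟨α, β, rfl⟩ := exists_comb hL hv hw hind hx
    simp only [map_add, map_smul, hev, hew]
    exact L.add_mem (L.smul_mem _ (L.smul_mem _ hv)) (L.smul_mem _ (L.smul_mem _ hw))
  have huL : ∀ x ∈ L, u x ∈ L := by
    intro x hx
    obtain ⟨α, β, rfl⟩ := exists_comb hL hv hw hind hx
    simp only [map_add, map_smul, huv, huw]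
    exact L.add_mem (L.smul_mem _ hv) (L.smul_mem _ (L.add_mem hw (L.smul_mem _ hv)))
  have hs' : s * s⁻¹ = 1 := mul_inv_cancel₀ hs
  -- the element `R`
  set R := k⁻¹ * (e * k * e⁻¹) with hR
  have hRm : R ∈ QT G L := (QT G L).mul_mem ((QT G L).inv_mem hk) (QT_conj hk he heL)
  have hR1 : ∀ x, k (R (e x)) = e (k x) := by
    intro x
    rw [hR, apply_mul, apply_inv]
    exact congrArg (fun y => e (k y)) (inv_apply e x)
  have hRv : R v = (s⁻¹ * s⁻¹) • v := by
    apply k.injective
    have h1 := hR1 v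
    rw [hev, map_smul, map_smul, ← hwdef, hew] at h1
    have h2 : k (R v) = s⁻¹ • (s • k (R v)) := by rw [smul_smul, mul_comm, hs', one_smul]
    rw [h2, h1, map_smul, ← hwdef, smul_smul]
  have hRw : R w = (s ^ 2) • w + (t * (1 - s ^ 2)) • v := by
    apply k.injective
    have h1 := hR1 w
    rw [hew, map_smul, map_smul, hkw, map_add, map_smul, map_smul, hev, hew] at h1
    have h2 : k (R w) = s • (s⁻¹ • k (R w)) := by rw [smul_smul, hs', one_smul]
    rw [h2, h1, map_add, map_smul, map_smul, hkw, ← hwdef]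
    match_scalars
    · ring
    · linear_combination t * hs'
  -- the commutator
  set k' := (u * R) * (R * u)⁻¹ with hk'
  have hk'm : k' ∈ QT G L := by
    have : k' = (u * R * u⁻¹) * R⁻¹ := by rw [hk']; group
    rw [this]
    exact (QT G L).mul_mem (QT_conj hRm hu huL) ((QT G L).inv_mem hRm)
  have hk1 : ∀ x, k' (R (u x)) = u (R x) := by
    intro x
    rw [hk']
    exact mul_inv_apply_of (g := u * R) (h := R * u) x
  have hss : s⁻¹ * s⁻¹ ≠ 0 := mul_ne_zero (inv_ne_zero hs) (inv_ne_zero hs)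
  have hk'v : k' v = v := by
    have h1 := hk1 v
    rw [huv, hRv, map_smul, map_smul, huv] at h1
    exact smul_right_injective V hss h1
  have hk'w : k' w = w + (1 - s⁻¹ ^ 4) • v := by
    have h1 := hk1 w
    rw [huw, map_add, map_smul, hRw, hRv] at h1
    simp only [map_add, map_smul, hk'v, huw, huv] at h1
    have hs2 : s ^ 2 ≠ 0 := pow_ne_zero _ hs
    apply smul_right_injective V hs2
    have h2 : s ^ 2 • k' w = (s ^ 2 • (w + (1 : F) • v) + (t * (1 - s ^ 2)) • v) -
        ((t * (1 - s ^ 2)) • v + (1 : F) • (s⁻¹ * s⁻¹) • v) := by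
      rw [← h1]; abel
    show s ^ 2 • k' w = s ^ 2 • (w + (1 - s⁻¹ ^ 4) • v)
    rw [h2]
    match_scalars
    · ring
    · linear_combination (s⁻¹ ^ 2 + s * s⁻¹ ^ 3) * hs'
  refine ⟨k', hk'm, R, hRm, v, hv, w, hw, _, _, ?_, hind, hk'v, hk'w, hRv, hRw⟩
  intro h0
  apply hs4
  have h3 : s⁻¹ ^ 4 = 1 := (sub_eq_zero.1 h0).symm
  have h4 : (s * s⁻¹) ^ 4 = 1 := by rw [hs']; ring
  rw [mul_pow, h3, mul_one] at h4
  exact h4

/-- Without square-zero elements, elements of `QT G L` which agree on `L` are equal. -/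
lemma QT_ext {L : Submodule F V} (hU : ∀ N, UT G L N → N = 0) {g h : V ≃ₗ[F] V}
    (hg : g ∈ QT G L) (hh : h ∈ QT G L) (hgh : ∀ x ∈ L, g x = h x) : g = h := by
  set q := h⁻¹ * g with hq
  have hqm : q ∈ QT G L := (QT G L).mul_mem ((QT G L).inv_mem hh) hg
  have hq1 : ∀ x ∈ L, q x = x := by
    intro x hx
    rw [hq, apply_mul, hgh x hx, inv_apply]
  set N : V →ₗ[F] V := (q : V →ₗ[F] V) - LinearMap.id with hN
  have hNa : ∀ x, N x = q x - x := fun x => rfl
  have h0 := hU N ⟨⟨q, hqm.1, fun x => by rw [hNa]; abel⟩, by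
    rintro _ ⟨x, rfl⟩
    exact hqm.2 x, fun x hx => by rw [LinearMap.mem_ker, hNa, hq1 x hx, sub_self]⟩
  ext x
  have h1 : q x = x := by
    have := congrArg (fun M : V →ₗ[F] V => M x) h0
    simp only [hNa, LinearMap.zero_apply] at this
    exact sub_eq_zero.1 this
  have h2 : h (q x) = g x := by rw [hq, apply_mul, apply_inv]
  rw [← h2, h1]

/-- Without square-zero elements, elements trivial on `V / L` are scalar on `L`. -/
theorem scalar_of_noU [FiniteDimensional F V] (hP : NoP G)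
    (hG : TwoTrans G) (hF : ∃ s : F, s ≠ 0 ∧ s ^ 12 ≠ 1) {L : Submodule F V}
    (hL : finrank F L = 2) (hU : ∀ N, UT G L N → N = 0)
    {g : V ≃ₗ[F] V} (hg : g ∈ QT G L) : ∃ μ : F, ∀ x ∈ L, g x = μ • x := by
  by_contra hcon
  push Not at hcon
  -- a vector moved out of its span
  obtain ⟨v, hv, hind⟩ : ∃ v ∈ L, LinearIndependent F ![v, g v] := by
    by_contra hno
    push Not at hno
    have h1 : ∀ v ∈ L, v ≠ 0 → ∃ a : F, g v = a • v := by
      intro v hv hv0
      by_contra h
      push Not at h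
      apply hno v hv
      rw [LinearIndependent.pair_iff' hv0]
      intro a ha
      exact h a ha.symm
    obtain ⟨v, hv, w, hw, h⟩ := exists_pair hL
    have hvw0 : v + w ≠ 0 := by
      intro h0
      rw [LinearIndependent.pair_iff] at h
      have := h 1 1 (by rw [one_smul, one_smul]; exact h0)
      exact one_ne_zero this.1
    obtain ⟨a, ha⟩ := h1 v hv (h.ne_zero 0)
    obtain ⟨b, hb⟩ := h1 w hw (h.ne_zero 1)
    obtain ⟨c, hc⟩ := h1 (v + w) (L.add_mem hv hw) hvw0
    rw [map_add, ha, hb] at hc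
    rw [LinearIndependent.pair_iff] at h
    obtain ⟨h2, h3⟩ := h (a - c) (b - c) (by
      have : a • v + b • w - c • (v + w) = 0 := sub_eq_zero.2 hc
      rw [← this]; module)
    obtain ⟨x, hx, hx2⟩ := hcon a
    apply hx2
    obtain ⟨α, β, rfl⟩ := exists_comb hL hv hw (by rw [LinearIndependent.pair_iff]; exact h) hx
    have hba : b = a := by
      rw [sub_eq_zero] at h2 h3; rw [h3, h2]
    rw [map_add, map_smul, map_smul, ha, hb, hba]
    module
  obtain ⟨s, hs, hs12⟩ := hF
  have hs4 : s ^ 4 ≠ 1 := by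
    intro h
    apply hs12
    have : s ^ 12 = (s ^ 4) ^ 3 := by ring
    rw [this, h, one_pow]
  have hs6 : s ^ 6 ≠ 1 := by
    intro h
    apply hs12
    have : s ^ 12 = (s ^ 6) ^ 2 := by ring
    rw [this, h, one_pow]
  obtain ⟨k, hk, R, hR, v, hv, w, hw, c, τ, hc, hind, hkv, hkw, hRv, hRw⟩ :=
    exists_transv_diag hG hs hs4 hL hg hv hind
  have hs' : s * s⁻¹ = 1 := mul_inv_cancel₀ hs
  -- the second transvection
  set k2 := R * k * R⁻¹ with hk2
  have hk2m : k2 ∈ QT G L := (QT G L).mul_mem ((QT G L).mul_mem hR hk) ((QT G L).inv_mem hR)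
  have hk2R : ∀ x, k2 (R x) = R (k x) := by
    intro x
    rw [hk2, apply_mul, inv_apply, apply_mul]
  set ρ := s⁻¹ * s⁻¹ with hρ
  have hρ0 : ρ ≠ 0 := mul_ne_zero (inv_ne_zero hs) (inv_ne_zero hs)
  have hρs : ρ * s ^ 2 = 1 := by
    rw [hρ]; linear_combination (s * s⁻¹ + 1) * hs'
  have hk2v : k2 v = v := by
    have h1 := hk2R v
    rw [hkv, hRv, map_smul] at h1
    exact smul_right_injective V hρ0 h1
  have hk2w : k2 w = w + (c * ρ ^ 2) • v := by
    have h1 := hk2R w
    rw [hkw, map_add, map_smul, hRw, hRv, map_add, map_smul, map_smul, hk2v] at h1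
    have h2 : s ^ 2 • k2 w = s ^ 2 • w + (c * ρ) • v := by
      have : s ^ 2 • k2 w = (s ^ 2 • k2 w + τ • v) - τ • v := by abel
      rw [this, h1]; module
    have h3 : k2 w = ρ • (s ^ 2 • k2 w) := by rw [smul_smul, hρs, one_smul]
    rw [h3, h2]
    match_scalars
    · linear_combination hρs
    · ring
  -- they commute
  have hcomm : k * k2 = k2 * k := by
    apply QT_ext hU ((QT G L).mul_mem hk hk2m) ((QT G L).mul_mem hk2m hk)
    intro x hx
    obtain ⟨a, b, rfl⟩ := exists_comb hL hv hw hind hx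
    simp only [apply_mul, map_add, map_smul, hkv, hkw, hk2v, hk2w]
    module
  obtain ⟨f, hfv, hfw⟩ := exists_functional hind
  -- the coordinate along `w`
  set N : V →ₗ[F] V := (k : V →ₗ[F] V) - LinearMap.id with hN
  have hNa : ∀ x, N x = k x - x := fun x => rfl
  have hkN : ∀ x, k x = x + N x := fun x => by rw [hNa]; abel
  have hIn : In G N := ⟨k, hk.1, hkN⟩
  have hv0 : v ≠ 0 := hind.ne_zero 0
  have hNv : N v = 0 := by rw [hNa, hkv, sub_self]
  have hNw : N w = c • v := by rw [hNa, hkw]; abel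
  have hN0 : N ≠ 0 := by
    intro h
    rw [h] at hNw
    exact smul_ne_zero hc hv0 hNw.symm
  apply hN0
  apply hP N hIn
  have hle : LinearMap.range N ≤ Submodule.span F {v} := by
    rintro _ ⟨x, rfl⟩
    -- `N x = α v + γ w`
    obtain ⟨α, γ, hNx⟩ := exists_comb hL hv hw hind (show N x ∈ L from hk.2 x)
    -- commutation at `R x`
    have h1 : k (k2 (R x)) = k2 (k (R x)) := by
      have := congrArg (fun e : V ≃ₗ[F] V => e (R x)) hcomm
      simpa [apply_mul] using this
    -- `R x = x + l`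
    obtain ⟨l, hl, hRx⟩ : ∃ l ∈ L, R x = x + l := ⟨R x - x, hR.2 x, by abel⟩
    obtain ⟨a, b, rfl⟩ := exists_comb hL hv hw hind hl
    have h2 : k (R x) = R x + (α + b * c) • v + γ • w := by
      rw [hRx, map_add, hkN x, hNx, map_add, map_smul, map_smul, hkv, hkw]
      module
    have h3 : k2 (R x) = R x + (α * ρ + γ * τ) • v + (γ * s ^ 2) • w := by
      rw [hk2R, hkN x, hNx, map_add, map_add, map_smul, map_smul, hRv, hRw]
      module
    rw [h3, map_add, map_add, map_smul, map_smul, hkv, hkw, h2, map_add, map_add, map_smul,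
      map_smul, hk2v, hk2w, h3] at h1
    have h4 : (γ * s ^ 2 * c - γ * (c * ρ ^ 2)) • v = 0 := by
      have : (γ * s ^ 2 * c - γ * (c * ρ ^ 2)) • v =
        ((R x + (α + b * c) • v + γ • w) + (α * ρ + γ * τ) • v + (γ * s ^ 2) • (w + c • v)) -
        ((R x + (α * ρ + γ * τ) • v + (γ * s ^ 2) • w) + (α + b * c) • v +
          γ • (w + (c * ρ ^ 2) • v)) := by module
      rw [this, h1, sub_self]
    have h5 : γ * s ^ 2 * c - γ * (c * ρ ^ 2) = 0 := (smul_eq_zero.1 h4).resolve_right hv0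
    have hγ : γ = 0 := by
      by_contra hγ
      apply hs6
      have h6 : γ * c * (s ^ 2 - ρ ^ 2) = 0 := by linear_combination h5
      have h7 := (mul_eq_zero.1 h6).resolve_left (mul_ne_zero hγ hc)
      linear_combination (s ^ 4) * h7 + (ρ * s ^ 2 + 1) * hρs
    rw [hNx, hγ, zero_smul, add_zero]
    exact Submodule.smul_mem _ _ (Submodule.mem_span_singleton_self v)
  have := Submodule.finrank_mono hle
  rwa [finrank_span_singleton hv0] at this

end Pool.Agent.H95.DT
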