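import Pool.Agent.H95.DT.CodB

/-!
# Two-transitive groups in dimension at least five: elements of rank two
-/

namespace Pool.Agent.H95.DT

open Module Pool.Agent.H20.ProjTwoTrans

variable {F V : Type*} [Field F] [AddCommGroup V] [Module F V]
variable {G : Subgroup (V ≃ₗ[F] V)}

/-- `1 + N` is in `G`, has residual space `L` and acts on it as the scalar `1 + b`. -/
def ZT (G : Subgroup (V ≃ₗ[F] V)) (b : F) (L : Submodule F V) (N : V →ₗ[F] V) : Prop :=
  In G N ∧ LinearMap.range N = L ∧ ∀ x ∈ L, N x = b • x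

lemma mem_of_ZT {b : F} {L : Submodule F V} {N : V →ₗ[F] V} (h : ZT G b L N) (x : V) :
    N x ∈ L := by rw [← h.2.1]; exact ⟨x, rfl⟩

lemma ZT_conj {b : F} {L L' : Submodule F V} {N : V →ₗ[F] V} (h : ZT G b L N)
    {k : V ≃ₗ[F] V} (hk : k ∈ G) (hkL : ∀ x, k x ∈ L' ↔ x ∈ L) :
    ∃ M, ZT G b L' M ∧ ∀ x, M (k x) = k (N x) := by
  set M : V →ₗ[F] V := (k : V →ₗ[F] V) ∘ₗ N ∘ₗ ((k⁻¹ : V ≃ₗ[F] V) : V →ₗ[F] V) with hM
  have hMa : ∀ x, M (k x) = k (N x) := by
    intro x
    rw [hM]
    simp only [LinearMap.comp_apply, LinearEquiv.coe_coe]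
    rw [inv_apply]
  obtain ⟨⟨g, hg, hgN⟩, hr, hb⟩ := h
  refine ⟨M, ⟨⟨k * g * k⁻¹, G.mul_mem (G.mul_mem hk hg) (G.inv_mem hk), fun z => ?_⟩, ?_, ?_⟩,
    hMa⟩
  · obtain ⟨x, rfl⟩ := k.surjective z
    rw [hMa, apply_mul, inv_apply, apply_mul, hgN, map_add]
  · ext z
    constructor
    · rintro ⟨y, rfl⟩
      obtain ⟨x, rfl⟩ := k.surjective y
      rw [hMa, hkL, ← hr]
      exact ⟨x, rfl⟩
    · intro hz
      obtain ⟨y, rfl⟩ := k.surjective z
      have hy := (hkL y).1 hz
      rw [← hr] at hy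
      obtain ⟨x, rfl⟩ := hy
      exact ⟨k x, hMa x⟩
  · intro z hz
    obtain ⟨x, rfl⟩ := k.surjective z
    rw [hMa, hb x ((hkL x).1 hz), map_smul]

lemma exists_ZT [FiniteDimensional F V] (hG : TwoTrans G) {b : F} {L L' : Submodule F V}
    (hL : finrank F L = 2) (hL' : finrank F L' = 2) {N : V →ₗ[F] V} (hN : ZT G b L N) :
    ∃ N', ZT G b L' N' := by
  obtain ⟨k, hk, hkL⟩ := line_trans hG hL hL'
  obtain ⟨M, hM, -⟩ := ZT_conj hN hk hkL
  exact ⟨M, hM⟩

lemma ZT_unique {b : F} {L : Submodule F V} (hU : ∀ N, UT G L N → N = 0)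
    {N N' : V →ₗ[F] V} (h : ZT G b L N) (h' : ZT G b L N') (x : V) : N x = N' x := by
  obtain ⟨g, hg, hgN⟩ := h.1
  obtain ⟨g', hg', hgN'⟩ := h'.1
  have e : g = g' := by
    apply QT_ext (L := L) hU
    · exact ⟨hg, fun x => by rw [hgN, add_sub_cancel_left]; exact mem_of_ZT h x⟩
    · exact ⟨hg', fun x => by rw [hgN', add_sub_cancel_left]; exact mem_of_ZT h' x⟩
    · intro x hx
      rw [hgN, hgN', h.2.2 x hx, h'.2.2 x hx]
  have h1 := hgN x
  rw [e, hgN' x] at h1
  exact (add_left_cancel h1).symm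

/-- equivariance -/
lemma ZT_equiv [FiniteDimensional F V] {b : F} {L : Submodule F V}
    (hU : ∀ N, UT G L N → N = 0)
    {N : V →ₗ[F] V} (h : ZT G b L N) {k : V ≃ₗ[F] V} (hk : k ∈ G) (hkL : ∀ x ∈ L, k x ∈ L)
    (x : V) : N (k x) = k (N x) := by
  obtain ⟨M, hM, hMa⟩ := ZT_conj h hk (L' := L) (by
    intro x
    constructor
    · intro hx
      have := inv_mem_of hkL hx
      rwa [inv_apply] at this
    · exact hkL x)
  rw [ZT_unique hU h hM, hMa]

/-- orthogonal lines give commuting elements -/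
lemma comm_of_orth [FiniteDimensional F V] {b : F} {L1 L2 : Submodule F V}
    (hU : ∀ N, UT G L2 N → N = 0) {N1 N2 : V →ₗ[F] V} (h1 : ZT G b L1 N1) (h2 : ZT G b L2 N2)
    {p : V} (hp : p ∈ L2) (horth : ∀ x ∈ L2, N1 x ∈ Submodule.span F {p}) (x : V) :
    N1 (N2 x) = N2 (N1 x) := by
  obtain ⟨g, hg, hgN⟩ := h1.1
  have hsub : Submodule.span F {p} ≤ L2 := by
    rw [Submodule.span_singleton_le_iff_mem]; exact hp
  have hgL : ∀ x ∈ L2, g x ∈ L2 := by
    intro x hx
    rw [hgN]
    exact L2.add_mem hx (hsub (horth x hx))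
  have h3 := ZT_equiv hU h2 hg hgL x
  rw [hgN, hgN, map_add] at h3
  exact (add_left_cancel h3).symm

section

variable [FiniteDimensional F V]

/-- The scalar is `-1`. -/
lemma ZT_scalar (hP : NoP G) (hd : 3 ≤ finrank F V) (hG : TwoTrans G)
    (hF : ∃ s : F, s ≠ 0 ∧ s ^ 12 ≠ 1)
    (hU : ∀ L : Submodule F V, finrank F L = 2 → ∀ N, UT G L N → N = 0)
    {b : F} (hb : b ≠ 0) {L : Submodule F V} (hL : finrank F L = 2) {N1 : V →ₗ[F] V}
    (h1 : ZT G b L N1) : b = -2 := by
  obtain ⟨p, hp, q, hq, hind⟩ := exists_pair hL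
  have hp0 : p ≠ 0 := hind.ne_zero 0
  -- a vector of the kernel
  obtain ⟨x2, hx2, hx20⟩ : ∃ x, N1 x = 0 ∧ x ≠ 0 := by
    have h2 := LinearMap.finrank_range_add_finrank_ker N1
    rw [h1.2.1, hL] at h2
    have h3 : LinearMap.ker N1 ≠ ⊥ := by
      intro h
      rw [h, finrank_bot] at h2
      omega
    obtain ⟨x, hx, hx0⟩ := Submodule.exists_mem_ne_zero_of_ne_bot h3
    exact ⟨x, hx, hx0⟩
  have hx2L : x2 ∉ L := by
    intro h
    have := h1.2.2 x2 h
    rw [hx2] at this
    exact smul_ne_zero hb hx20 this.symm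
  have hpx2 : LinearIndependent F ![p, x2] := by
    apply indep_of_not_mem hp0
    intro h
    apply hx2L
    obtain ⟨c, rfl⟩ := Submodule.mem_span_singleton.1 h
    exact L.smul_mem _ hp
  have hL2 := finrank_pair hpx2
  obtain ⟨N2, h2⟩ := exists_ZT hG hL hL2 h1
  have mp : p ∈ Submodule.span F {p, x2} := Submodule.subset_span (by simp)
  have mx : x2 ∈ Submodule.span F {p, x2} := Submodule.subset_span (by simp)
  have hN1p : N1 p = b • p := h1.2.2 p hp
  have hN2p : N2 p = b • p := h2.2.2 p mp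
  have horth : ∀ x ∈ Submodule.span F {p, x2}, N1 x ∈ Submodule.span F {p} := by
    intro x hx
    obtain ⟨c, d, rfl⟩ := Submodule.mem_span_pair.1 hx
    rw [map_add, map_smul, map_smul, hN1p, hx2, smul_zero, add_zero]
    exact Submodule.smul_mem _ _ (Submodule.smul_mem _ _ (Submodule.mem_span_singleton_self p))
  have hcomm := comm_of_orth (hU _ hL2) h1 h2 mp horth
  -- `N2 q` is a multiple of `p`
  obtain ⟨c, d, hcd⟩ := Submodule.mem_span_pair.1 (mem_of_ZT h2 q)
  have hd0 : N2 q = c • p := by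
    have e1 := hcomm q
    rw [h1.2.2 q hq, ← hcd, map_add, map_smul, map_smul, hx2, hN1p, smul_zero, add_zero,
      map_smul, ← hcd] at e1
    have e2 : (b * d) • x2 = 0 := by
      have : (b * d) • x2 = b • (c • p + d • x2) - c • b • p := by module
      rw [this, ← e1, sub_self]
    have hd : d = 0 := by
      rcases smul_eq_zero.1 e2 with h | h
      · exact (mul_eq_zero.1 h).resolve_left hb
      · exact absurd h hx20
    rw [← hcd, hd, zero_smul, add_zero]
  set x1 := q - (c / b) • p with hx1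
  have hN2x1 : N2 x1 = 0 := by
    rw [hx1, map_sub, map_smul, hd0, hN2p, smul_smul, div_mul_cancel₀ _ hb, sub_self]
  have hx1L : x1 ∈ L := L.sub_mem hq (L.smul_mem _ hp)
  have hN1x1 : N1 x1 = b • x1 := h1.2.2 x1 hx1L
  have hN2x2 : N2 x2 = b • x2 := h2.2.2 x2 mx
  have hpx1 : LinearIndependent F ![p, x1] := by
    apply indep_of_not_mem hp0
    intro h
    apply not_mem_of_indep hind
    have : q = x1 + (c / b) • p := by rw [hx1]; abel
    rw [this]
    exact Submodule.add_mem _ h (Submodule.smul_mem _ _ (Submodule.mem_span_singleton_self p))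
  have hx10 : x1 ≠ 0 := hpx1.ne_zero 1
  have hx1x2 : LinearIndependent F ![x1, x2] := by
    apply indep_of_not_mem hx10
    intro h
    apply hx2L
    obtain ⟨e, rfl⟩ := Submodule.mem_span_singleton.1 h
    exact L.smul_mem _ hx1L
  have hL3 := finrank_pair hx1x2
  -- the element `g`
  obtain ⟨k1, hk1, hk1N⟩ := h1.1
  obtain ⟨k2, hk2, hk2N⟩ := h2.1
  set g := k1 * k2⁻¹ with hg
  have hgk : ∀ x, g (k2 x) = k1 x := fun x => mul_inv_apply_of x
  have hgQ : g ∈ QT G (Submodule.span F {x1, x2}) := by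
    refine ⟨G.mul_mem hk1 (G.inv_mem hk2), fun z => ?_⟩
    obtain ⟨x, rfl⟩ := k2.surjective z
    rw [hgk, hk1N, hk2N, add_sub_add_left_eq_sub]
    obtain ⟨α, β, hαβ⟩ := exists_comb hL hp hx1L hpx1 (mem_of_ZT h1 x)
    obtain ⟨α', β', hαβ'⟩ := Submodule.mem_span_pair.1 (mem_of_ZT h2 x)
    have e1 := hcomm x
    rw [hαβ, ← hαβ', map_add, map_smul, map_smul, hx2, hN1p, smul_zero, add_zero, map_add,
      map_smul, map_smul, hN2x1, hN2p, smul_zero, add_zero, smul_smul, smul_smul] at e1
    have e2 : α' = α := by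
      have e3 : ((α' - α) * b) • p = 0 := by
        have : ((α' - α) * b) • p = (α' * b) • p - (α * b) • p := by module
        rw [this, e1, sub_self]
      rcases smul_eq_zero.1 e3 with h | h
      · exact sub_eq_zero.1 ((mul_eq_zero.1 h).resolve_right hb)
      · exact absurd h hp0
    rw [hαβ, ← hαβ', e2, Submodule.mem_span_pair]
    exact ⟨β, -β', by module⟩
  obtain ⟨μ, hμ⟩ := scalar_of_noU hP hG hF hL3 (hU _ hL3) hgQ
  have e1 : μ = 1 + b := by
    have e2 := hgk x1
    rw [hk2N, hN2x1, add_zero, hμ x1 (Submodule.subset_span (by simp)), hk1N, hN1x1] at e2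
    have e3 : (μ - (1 + b)) • x1 = 0 := by
      have : (μ - (1 + b)) • x1 = μ • x1 - (x1 + b • x1) := by module
      rw [this, e2, sub_self]
    exact sub_eq_zero.1 ((smul_eq_zero.1 e3).resolve_right hx10)
  have e2 : μ * (1 + b) = 1 := by
    have e2 := hgk x2
    rw [hk2N, hN2x2, map_add, map_smul, hμ x2 (Submodule.subset_span (by simp)), hk1N, hx2,
      add_zero] at e2
    have e3 : (μ * (1 + b) - 1) • x2 = 0 := by
      have : (μ * (1 + b) - 1) • x2 = (μ • x2 + b • μ • x2) - x2 := by module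
      rw [this, e2, sub_self]
    exact sub_eq_zero.1 ((smul_eq_zero.1 e3).resolve_right hx20)
  rw [e1] at e2
  have e3 : b * (b + 2) = 0 := by linear_combination e2
  linear_combination (mul_eq_zero.1 e3).resolve_left hb

/-- There is no element `1 + N` with `N` of rank two and scalar on its image. -/
theorem no_ZT (hP : NoP G) (hd : 5 ≤ finrank F V) (hG : TwoTrans G)
    (hF : ∃ s : F, s ≠ 0 ∧ s ^ 12 ≠ 1)
    (hU : ∀ L : Submodule F V, finrank F L = 2 → ∀ N, UT G L N → N = 0)
    {b : F} (hb : b ≠ 0) {L1 : Submodule F V} (hL1 : finrank F L1 = 2) {N1 : V →ₗ[F] V}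
    (h1 : ZT G b L1 N1) : False := by
  have hb2 := ZT_scalar hP (by omega) hG hF hU hb hL1 h1
  obtain ⟨p, hp, q, hq, hind⟩ := exists_pair hL1
  have hp0 : p ≠ 0 := hind.ne_zero 0
  have hN1p : N1 p = b • p := h1.2.2 p hp
  have hN1q : N1 q = b • q := h1.2.2 q hq
  -- a vector of the kernel
  obtain ⟨x2, hx2, hx20⟩ : ∃ x, N1 x = 0 ∧ x ≠ 0 := by
    have h2 := LinearMap.finrank_range_add_finrank_ker N1
    rw [h1.2.1, hL1] at h2
    have h3 : LinearMap.ker N1 ≠ ⊥ := by
      intro h
      rw [h, finrank_bot] at h2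
      omega
    obtain ⟨x, hx, hx0⟩ := Submodule.exists_mem_ne_zero_of_ne_bot h3
    exact ⟨x, hx, hx0⟩
  have hx2L : x2 ∉ L1 := by
    intro h
    have := h1.2.2 x2 h
    rw [hx2] at this
    exact smul_ne_zero hb hx20 this.symm
  -- the nonorthogonal line
  set y := q + x2 with hy
  have hN1y : N1 y = b • q := by rw [hy, map_add, hx2, add_zero, hN1q]
  have hyL1 : y ∉ L1 := by
    intro h
    apply hx2L
    have := L1.sub_mem h hq
    rwa [hy, add_sub_cancel_left] at this
  have hN1y' : N1 y ∉ Submodule.span F {p} := by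
    rw [hN1y]
    intro h
    apply not_mem_of_indep hind
    have := Submodule.smul_mem _ b⁻¹ h
    rwa [smul_smul, inv_mul_cancel₀ hb, one_smul] at this
  have hpy : LinearIndependent F ![p, y] := by
    apply indep_of_not_mem hp0
    intro h
    apply hyL1
    obtain ⟨c, hc⟩ := Submodule.mem_span_singleton.1 h
    rw [← hc]
    exact L1.smul_mem _ hp
  set L2 := Submodule.span F {p, y} with hL2d
  have hL2 : finrank F L2 = 2 := finrank_pair hpy
  obtain ⟨N2, h2⟩ := exists_ZT hG hL1 hL2 h1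
  have mp : p ∈ L2 := Submodule.subset_span (by simp)
  have my : y ∈ L2 := Submodule.subset_span (by simp)
  have hN2p : N2 p = b • p := h2.2.2 p mp
  have hN2y : N2 y = b • y := h2.2.2 y my
  -- the product
  obtain ⟨k1, hk1, hk1N⟩ := h1.1
  obtain ⟨k2, hk2, hk2N⟩ := h2.1
  set M : V →ₗ[F] V := N1 + N2 + N1 ∘ₗ N2 with hM
  have hMa : ∀ x, M x = N1 x + N2 x + N1 (N2 x) := fun x => rfl
  have hkM : ∀ x, (k1 * k2) x = x + M x := by
    intro x
    rw [apply_mul, hk2N, map_add, hk1N, hk1N, hMa]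
    abel
  have hMIn : In G M := ⟨k1 * k2, G.mul_mem hk1 hk2, hkM⟩
  have hMp : M p = 0 := by
    rw [hMa, hN1p, hN2p, map_smul, hN1p, hb2]
    module
  -- the functionals
  obtain ⟨φ1, hφ1p, hφ1q⟩ := exists_functional hind
  obtain ⟨φ2, hφ2p, hφ2y⟩ := exists_functional hpy
  have mem1 : ∀ x, φ1 (N1 x) = 0 ↔ N1 x ∈ Submodule.span F {p} := by
    intro x
    obtain ⟨c, d, hcd⟩ := exists_comb hL1 hp hq hind (mem_of_ZT h1 x)
    rw [hcd, map_add, map_smul, map_smul, hφ1p, smul_zero, zero_add, smul_eq_mul]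
    constructor
    · intro h
      rw [(mul_eq_zero.1 h).resolve_right hφ1q, zero_smul, add_zero]
      exact Submodule.smul_mem _ _ (Submodule.mem_span_singleton_self p)
    · intro h
      obtain ⟨e, he⟩ := Submodule.mem_span_singleton.1 h
      have := congrArg φ1 he
      rw [map_smul, map_add, map_smul, map_smul, hφ1p, smul_zero, smul_zero, zero_add,
        smul_eq_mul] at this
      exact this.symm
  have mem2 : ∀ x, φ2 (N2 x) = 0 ↔ N2 x ∈ Submodule.span F {p} := by
    intro x
    obtain ⟨c, d, hcd⟩ := exists_comb hL2 mp my hpy (mem_of_ZT h2 x)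
    rw [hcd, map_add, map_smul, map_smul, hφ2p, smul_zero, zero_add, smul_eq_mul]
    constructor
    · intro h
      rw [(mul_eq_zero.1 h).resolve_right hφ2y, zero_smul, add_zero]
      exact Submodule.smul_mem _ _ (Submodule.mem_span_singleton_self p)
    · intro h
      obtain ⟨e, he⟩ := Submodule.mem_span_singleton.1 h
      have := congrArg φ2 he
      rw [map_smul, map_add, map_smul, map_smul, hφ2p, smul_zero, smul_zero, zero_add,
        smul_eq_mul] at this
      exact this.symm
  set ψ : V →ₗ[F] F × F := (φ1 ∘ₗ N1).prod (φ2 ∘ₗ N2) with hψ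
  have hψ1 := LinearMap.finrank_range_add_finrank_ker ψ
  have hψ2 : finrank F (LinearMap.range ψ) ≤ 2 := by
    have := Submodule.finrank_le (LinearMap.range ψ)
    simpa using this
  set D := LinearMap.ker ψ with hD
  have memD : ∀ x, x ∈ D ↔ N1 x ∈ Submodule.span F {p} ∧ N2 x ∈ Submodule.span F {p} := by
    intro x
    rw [hD, LinearMap.mem_ker, ← mem1, ← mem2, hψ]
    simp
  have hpD : p ∈ D := by
    rw [memD, hN1p, hN2p]
    exact ⟨Submodule.smul_mem _ _ (Submodule.mem_span_singleton_self p),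
      Submodule.smul_mem _ _ (Submodule.mem_span_singleton_self p)⟩
  have span_sub : ∀ {K : Submodule F V}, p ∈ K → Submodule.span F {p} ≤ K := by
    intro K hK
    rw [Submodule.span_singleton_le_iff_mem]; exact hK
  have hMD : ∀ x ∈ D, M x ∈ Submodule.span F {p} := by
    intro x hx
    rw [memD] at hx
    obtain ⟨c, hc⟩ := Submodule.mem_span_singleton.1 hx.2
    rw [hMa, ← hc, map_smul, hN1p]
    refine Submodule.add_mem _ (Submodule.add_mem _ hx.1 ?_) ?_
    · exact Submodule.smul_mem _ _ (Submodule.mem_span_singleton_self p)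
    · exact Submodule.smul_mem _ _ (Submodule.smul_mem _ _ (Submodule.mem_span_singleton_self p))
  -- elements orthogonal to both commute with `M`
  have hcommM : ∀ x3 ∈ D, LinearIndependent F ![p, x3] → ∀ N3, ZT G b (Submodule.span F {p, x3}) N3 →
      ∀ x, M (N3 x) = N3 (M x) := by
    intro x3 hx3 hpx3 N3 h3 x
    have mp3 : p ∈ Submodule.span F {p, x3} := Submodule.subset_span (by simp)
    have hle : Submodule.span F {p, x3} ≤ D := by
      rw [Submodule.span_le]
      rintro z (rfl | rfl)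
      · exact hpD
      · exact hx3
    have c1 := comm_of_orth (hU _ (finrank_pair hpx3)) h1 h3 mp3
      (fun z hz => ((memD z).1 (hle hz)).1)
    have c2 := comm_of_orth (hU _ (finrank_pair hpx3)) h2 h3 mp3
      (fun z hz => ((memD z).1 (hle hz)).2)
    rw [hMa, hMa, map_add, map_add, c1, c2, c1]
  have hkill : ∀ x3 ∈ D, LinearIndependent F ![p, x3] → ∀ N3, ZT G b (Submodule.span F {p, x3}) N3 →
      ∀ x ∈ D, N3 x = 0 → M x = 0 := by
    intro x3 hx3 hpx3 N3 h3 x hx hx0
    have e1 := hcommM x3 hx3 hpx3 N3 h3 x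
    obtain ⟨c, hc⟩ := Submodule.mem_span_singleton.1 (hMD x hx)
    have hN3p : N3 p = b • p := h3.2.2 p (Submodule.subset_span (by simp))
    rw [hx0, map_zero, ← hc, map_smul, hN3p, smul_smul] at e1
    have hc0 : c = 0 := by
      rcases smul_eq_zero.1 e1.symm with h | h
      · exact (mul_eq_zero.1 h).resolve_right hb
      · exact absurd h hp0
    rw [← hc, hc0, zero_smul]
  -- `M` vanishes on `D`
  have hMD0 : ∀ x ∈ D, M x = 0 := by
    intro x hx
    by_cases hxp : x ∈ Submodule.span F {p}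
    · obtain ⟨c, rfl⟩ := Submodule.mem_span_singleton.1 hxp
      rw [map_smul, hMp, smul_zero]
    have hpx := indep_of_not_mem hp0 hxp
    obtain ⟨N3, h3⟩ := exists_ZT hG hL1 (finrank_pair hpx) h1
    have hN3p : N3 p = b • p := h3.2.2 p (Submodule.subset_span (by simp))
    have hN3x : N3 x = b • x := h3.2.2 x (Submodule.subset_span (by simp))
    obtain ⟨x4, hx4, hx40⟩ : ∃ x4 ∈ D ⊓ LinearMap.ker N3, x4 ≠ 0 := by
      have e1 := Submodule.finrank_sup_add_finrank_inf_eq D (LinearMap.ker N3)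
      have e2 := Submodule.finrank_le (D ⊔ LinearMap.ker N3)
      have e3 := LinearMap.finrank_range_add_finrank_ker N3
      rw [h3.2.1, finrank_pair hpx] at e3
      have e4 : D ⊓ LinearMap.ker N3 ≠ ⊥ := by
        intro h
        rw [h, finrank_bot] at e1
        omega
      exact Submodule.exists_mem_ne_zero_of_ne_bot e4
    have hx4D : x4 ∈ D := hx4.1
    have hN3x4 : N3 x4 = 0 := hx4.2
    have hpx4 : LinearIndependent F ![p, x4] := by
      apply indep_of_not_mem hp0
      intro h
      obtain ⟨c, rfl⟩ := Submodule.mem_span_singleton.1 h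
      rw [map_smul, hN3p, smul_smul] at hN3x4
      rcases smul_eq_zero.1 hN3x4 with h | h
      · apply hx40
        rw [(mul_eq_zero.1 h).resolve_right hb, zero_smul]
      · exact hp0 h
    obtain ⟨N4, h4⟩ := exists_ZT hG hL1 (finrank_pair hpx4) h1
    have mp4 : p ∈ Submodule.span F {p, x4} := Submodule.subset_span (by simp)
    have hN4p : N4 p = b • p := h4.2.2 p mp4
    have c34 := comm_of_orth (hU _ (finrank_pair hpx4)) h3 h4 mp4 (by
      intro z hz
      obtain ⟨c, d, rfl⟩ := Submodule.mem_span_pair.1 hz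
      rw [map_add, map_smul, map_smul, hN3p, hN3x4, smul_zero, add_zero]
      exact Submodule.smul_mem _ _ (Submodule.smul_mem _ _
        (Submodule.mem_span_singleton_self p))) x
    obtain ⟨α, β, hαβ⟩ := Submodule.mem_span_pair.1 (mem_of_ZT h4 x)
    have hN4x : N4 x = α • p := by
      rw [hN3x, map_smul, ← hαβ, map_add, map_smul, map_smul, hN3p, hN3x4, smul_zero,
        add_zero] at c34
      have e1 : b • (α • p + β • x4) = b • (α • p) := by rw [← c34, smul_smul, smul_smul, mul_comm]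
      have e2 := smul_right_injective V hb e1
      rw [← hαβ]
      exact e2
    have e1 : x = (x - (α / b) • p) + (α / b) • p := by abel
    rw [e1, map_add, map_smul, hMp, smul_zero, add_zero]
    apply hkill x4 hx4D hpx4 N4 h4
    · exact Submodule.sub_mem _ hx (Submodule.smul_mem _ _ hpD)
    · rw [map_sub, map_smul, hN4x, hN4p, smul_smul, div_mul_cancel₀ _ hb, sub_self]
  -- `M` has rank at most two
  have hker : D ≤ LinearMap.ker M := fun x hx => LinearMap.mem_ker.2 (hMD0 x hx)
  have r1 := LinearMap.finrank_range_add_finrank_ker M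
  have r2 := Submodule.finrank_mono hker
  have hMy : M y = -(N1 y) - (2 : F) • y := by
    rw [hMa, hN2y, map_smul, hb2]
    module
  by_cases hM0 : M = 0
  · rw [hM0, LinearMap.zero_apply] at hMy
    apply hyL1
    have e1 : (2 : F) • y = -(N1 y) := (sub_eq_zero.1 hMy.symm).symm
    have h20 : (2 : F) ≠ 0 := by
      intro h
      apply hb
      rw [hb2, h, neg_zero]
    have e2 : y = (2 : F)⁻¹ • ((2 : F) • y) := by rw [smul_smul, inv_mul_cancel₀ h20, one_smul]
    rw [e2, e1]
    exact L1.smul_mem _ (L1.neg_mem (mem_of_ZT h1 y))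
  have r3 : ¬ finrank F (LinearMap.range M) ≤ 1 := fun h => hM0 (hP M hMIn h)
  set R := LinearMap.range M with hR
  have hR2 : finrank F R = 2 := by omega
  obtain ⟨μ, hμ⟩ := scalar_of_noU hP hG hF hR2 (hU _ hR2) (g := k1 * k2)
    ⟨G.mul_mem hk1 hk2, fun x => by rw [hkM, add_sub_cancel_left]; exact ⟨x, rfl⟩⟩
  have hMR : ∀ x ∈ R, M x = (μ - 1) • x := by
    intro x hx
    have e1 := hμ x hx
    rw [hkM] at e1
    have e2 : M x = μ • x - x := by rw [← e1]; abel
    rw [e2]; module
  have hμ1 : μ - 1 ≠ 0 := by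
    intro h
    apply hM0
    refine hU R hR2 M ⟨hMIn, le_refl _, fun x hx => ?_⟩
    rw [LinearMap.mem_ker, hMR x hx, h, zero_smul]
  -- the sum of the two lines
  have hRle : R ≤ L1 ⊔ L2 := by
    rintro _ ⟨x, rfl⟩
    rw [hMa]
    refine Submodule.add_mem _ (Submodule.add_mem _ ?_ ?_) ?_
    · exact Submodule.mem_sup_left (mem_of_ZT h1 x)
    · exact Submodule.mem_sup_right (mem_of_ZT h2 x)
    · exact Submodule.mem_sup_left (mem_of_ZT h1 _)
  have hpR : p ∉ R := by
    intro h
    have := hMR p h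
    rw [hMp] at this
    exact smul_ne_zero hμ1 hp0 this.symm
  have hsum : R ⊔ Submodule.span F {p} = L1 ⊔ L2 := by
    have f1 := Submodule.finrank_sup_span_singleton hpR
    have f2 : L1 ⊔ L2 = L1 ⊔ Submodule.span F {y} := by
      apply le_antisymm
      · refine sup_le le_sup_left ?_
        rw [hL2d, Submodule.span_le]
        rintro z (rfl | rfl)
        · exact Submodule.mem_sup_left hp
        · exact Submodule.mem_sup_right (Submodule.mem_span_singleton_self _)
      · refine sup_le le_sup_left ?_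
        rw [Submodule.span_singleton_le_iff_mem]
        exact Submodule.mem_sup_right my
    have f3 := Submodule.finrank_sup_span_singleton hyL1
    apply Submodule.eq_of_le_of_finrank_eq
    · refine sup_le hRle ?_
      rw [Submodule.span_singleton_le_iff_mem]
      exact Submodule.mem_sup_left hp
    · rw [f1, f2, f3, hL1, hR2]
  have hysum : y ∈ R ⊔ Submodule.span F {p} := by
    rw [hsum]; exact Submodule.mem_sup_right my
  obtain ⟨r, hr, z, hz, hrz⟩ := Submodule.mem_sup.1 hysum
  obtain ⟨c, rfl⟩ := Submodule.mem_span_singleton.1 hz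
  have e1 : M y = (μ - 1) • (y - c • p) := by
    have : r = y - c • p := by rw [← hrz]; abel
    rw [← hrz, map_add, map_smul, hMp, smul_zero, add_zero, hMR r hr]
    congr 1
    abel
  have e2 : N1 y = (-(1 + μ)) • y + ((μ - 1) * c) • p := by
    have : N1 y = -(M y) - (2 : F) • y := by rw [hMy]; abel
    rw [this, e1]
    module
  by_cases hμ2 : 1 + μ = 0
  · apply hN1y'
    rw [e2, hμ2, neg_zero, zero_smul, zero_add]
    exact Submodule.smul_mem _ _ (Submodule.mem_span_singleton_self p)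
  · apply hyL1
    have e3 : y = (-(1 + μ))⁻¹ • (N1 y - ((μ - 1) * c) • p) := by
      rw [e2, add_sub_cancel_right, smul_smul, inv_mul_cancel₀ (neg_ne_zero.2 hμ2), one_smul]
    rw [e3]
    exact L1.smul_mem _ (L1.sub_mem (mem_of_ZT h1 y) (L1.smul_mem _ hp))

/-- In dimension at least five, without perspectivities every element `1 + N` of `G` with `N` of
rank at most two is the identity. -/
theorem rank_two (hP : NoP G) (hd : 5 ≤ finrank F V) (hG : TwoTrans G)
    (hF : ∃ s : F, s ≠ 0 ∧ s ^ 12 ≠ 1) {N : V →ₗ[F] V} (hN : In G N)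
    (hr : finrank F (LinearMap.range N) ≤ 2) : N = 0 := by
  by_contra h0
  have h1 : ¬ finrank F (LinearMap.range N) ≤ 1 := fun h => h0 (hP N hN h)
  have hL : finrank F (LinearMap.range N) = 2 := by omega
  have hU : ∀ L : Submodule F V, finrank F L = 2 → ∀ N, UT G L N → N = 0 := fun L hL N hN =>
    no_square_zero_of_five hP hd hG hL hN
  obtain ⟨g, hg, hgN⟩ := hN
  obtain ⟨μ, hμ⟩ := scalar_of_noU hP hG hF hL (hU _ hL) (g := g)
    ⟨hg, fun x => by rw [hgN, add_sub_cancel_left]; exact ⟨x, rfl⟩⟩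
  have hMR : ∀ x ∈ LinearMap.range N, N x = (μ - 1) • x := by
    intro x hx
    have e1 := hμ x hx
    rw [hgN] at e1
    have e2 : N x = μ • x - x := by rw [← e1]; abel
    rw [e2]; module
  by_cases hμ1 : μ - 1 = 0
  · apply h0
    refine hU _ hL N ⟨⟨g, hg, hgN⟩, le_refl _, fun x hx => ?_⟩
    rw [LinearMap.mem_ker, hMR x hx, hμ1, zero_smul]
  · exact no_ZT hP hd hG hF hU hμ1 hL ⟨⟨g, hg, hgN⟩, rfl, hMR⟩

end

/-- Over an infinite field, in dimension at least five a two-transitive group with a nonscalar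
element which is scalar on a subspace of codimension at most two contains a perspectivity. -/
theorem exists_perspectivity_of_rank_two [Infinite F] [FiniteDimensional F V]
    (hd : 5 ≤ finrank F V) (hG : TwoTrans G) {N : V →ₗ[F] V} (hN : In G N) (hN0 : N ≠ 0)
    (hr : finrank F (LinearMap.range N) ≤ 2) :
    ∃ (f : Dual F V) (v : V), f ≠ 0 ∧ v ≠ 0 ∧ HasT G f v := by
  by_contra hcon
  push Not at hcon
  have hP : NoP G := by
    intro N hN hr
    by_contra h0
    obtain ⟨x, hx⟩ : ∃ x, N x ≠ 0 := by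
      by_contra h
      push Not at h
      exact h0 (LinearMap.ext h)
    have hspan : LinearMap.range N = Submodule.span F {N x} := by
      symm
      apply Submodule.eq_of_le_of_finrank_le
      · rw [Submodule.span_le]
        rintro _ rfl
        exact ⟨x, rfl⟩
      · rw [finrank_span_singleton hx]; exact hr
    obtain ⟨f, hf⟩ : ∃ f : Dual F V, f (N x) ≠ 0 := by
      by_contra h
      push Not at h
      exact hx ((Module.forall_dual_apply_eq_zero_iff F (N x)).1 h)
    have hform : ∀ y, N y = (f (N x))⁻¹ • f (N y) • N x := by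
      intro y
      have hy : N y ∈ Submodule.span F {N x} := by rw [← hspan]; exact ⟨y, rfl⟩
      obtain ⟨a, ha⟩ := Submodule.mem_span_singleton.1 hy
      rw [← ha, map_smul, smul_eq_mul, smul_smul, mul_comm a, ← mul_assoc,
        inv_mul_cancel₀ hf, one_mul]
    refine hcon ((f (N x))⁻¹ • (f ∘ₗ N)) (N x) ?_ hx ?_
    · intro h
      have := congrArg (fun φ : Dual F V => φ x) h
      simp only [LinearMap.smul_apply, LinearMap.comp_apply, smul_eq_mul,
        LinearMap.zero_apply] at this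
      rw [inv_mul_cancel₀ hf] at this
      exact one_ne_zero this
    · obtain ⟨g, hg, hgN⟩ := hN
      refine ⟨g, hg, fun y => ?_⟩
      rw [hgN, hform y]
      simp only [LinearMap.smul_apply, LinearMap.comp_apply, smul_eq_mul, smul_smul]
  have h12 := exists_elements (F := F) 12 (by norm_num)
  exact hN0 (rank_two hP hd hG h12 hN hr)

end Pool.Agent.H95.DT
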