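import Pool.Agent.H95.DT.Frame

/-!
# Two-transitive groups in dimension four contain perspectivities
-/

namespace Pool.Agent.H95.DT

open Module Pool.Agent.H20.ProjTwoTrans Matrix

variable {F V : Type*} [Field F] [AddCommGroup V] [Module F V]
variable {G : Subgroup (V ≃ₗ[F] V)}

/-! ### normalised frames -/

lemma indep4 {v w y z : V} (h : LinearIndependent F ![v, w])
    (hyz : ∀ s t : F, s • y + t • z ∈ Submodule.span F {v, w} → s = 0 ∧ t = 0) :
    LinearIndependent F (Sum.elim ![v, w] ![y, z]) := by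
  rw [Fintype.linearIndependent_iff]
  intro g hg
  rw [Fintype.sum_sum_type, Fin.sum_univ_two, Fin.sum_univ_two] at hg
  simp only [Sum.elim_inl, Sum.elim_inr, Matrix.cons_val_zero, Matrix.cons_val_one] at hg
  have h1 : g (Sum.inr 0) • y + g (Sum.inr 1) • z ∈ Submodule.span F {v, w} := by
    rw [Submodule.mem_span_pair]
    refine ⟨-g (Sum.inl 0), -g (Sum.inl 1), ?_⟩
    have := eq_neg_of_add_eq_zero_right hg
    rw [this]; module
  obtain ⟨h2, h3⟩ := hyz _ _ h1
  rw [h2, h3, zero_smul, zero_smul, add_zero, add_zero] at hg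
  rw [LinearIndependent.pair_iff] at h
  obtain ⟨h4, h5⟩ := h _ _ hg
  rintro (i | i)
  · rcases two_cases i with rfl | rfl
    · exact h4
    · exact h5
  · rcases two_cases i with rfl | rfl
    · exact h2
    · exact h3

lemma basis4 [FiniteDimensional F V] (hd : finrank F V = 4) {v w y z : V}
    (h : LinearIndependent F ![v, w])
    (hyz : ∀ s t : F, s • y + t • z ∈ Submodule.span F {v, w} → s = 0 ∧ t = 0) :
    ∃ b : Basis (Fin 2 ⊕ Fin 2) F V, b (Sum.inl 0) = v ∧ b (Sum.inl 1) = w ∧
      b (Sum.inr 0) = y ∧ b (Sum.inr 1) = z := by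
  have hi := indep4 h hyz
  refine ⟨basisOfLinearIndependentOfCardEqFinrank hi (by simp [hd]), ?_, ?_, ?_, ?_⟩ <;>
    simp

lemma exists_basis4 [FiniteDimensional F V] (hd : finrank F V = 4) {v w : V}
    (h : LinearIndependent F ![v, w]) :
    ∃ b : Basis (Fin 2 ⊕ Fin 2) F V, b (Sum.inl 0) = v ∧ b (Sum.inl 1) = w := by
  have hL := finrank_pair h
  obtain ⟨y, hy⟩ : ∃ y, y ∉ Submodule.span F {v, w} := by
    by_contra hcon
    push Not at hcon
    have : Submodule.span F {v, w} = ⊤ := eq_top_iff.2 fun x _ => hcon x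
    rw [this, finrank_top, hd] at hL
    omega
  obtain ⟨z, hz⟩ : ∃ z, z ∉ Submodule.span F {v, w} ⊔ Submodule.span F {y} := by
    by_contra hcon
    push Not at hcon
    have h1 : Submodule.span F {v, w} ⊔ Submodule.span F {y} = ⊤ :=
      eq_top_iff.2 fun x _ => hcon x
    have h2 := Submodule.finrank_add_le_finrank_add_finrank (Submodule.span F {v, w})
      (Submodule.span F {y})
    rw [h1, finrank_top, hd, hL] at h2
    have h3 := finrank_span_le_card (R := F) ({y} : Set V)
    simp only [Set.toFinset_singleton, Finset.card_singleton] at h3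
    omega
  obtain ⟨b, hb1, hb2, -, -⟩ := basis4 hd h (y := y) (z := z) (by
    intro s t hst
    have ht : t = 0 := by
      by_contra ht
      apply hz
      have h1 : z = t⁻¹ • (s • y + t • z) + (-(t⁻¹ * s)) • y := by
        rw [smul_add, smul_smul, smul_smul, inv_mul_cancel₀ ht]; module
      rw [h1]
      exact Submodule.add_mem_sup (Submodule.smul_mem _ _ hst)
        (Submodule.smul_mem _ _ (Submodule.mem_span_singleton_self y))
    subst ht
    rw [zero_smul, add_zero] at hst
    refine ⟨?_, rfl⟩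
    by_contra hs
    apply hy
    have := Submodule.smul_mem _ s⁻¹ hst
    rwa [smul_smul, inv_mul_cancel₀ hs, one_smul] at this)
  exact ⟨b, hb1, hb2⟩

theorem exists_frame [FiniteDimensional F V] (hP : NoP G) (hd : finrank F V = 4)
    (hG : TwoTrans G) (hF : ∃ s : F, s ≠ 0 ∧ s ^ 4 ≠ 1) {v w : V}
    (h : LinearIndependent F ![v, w]) :
    ∃ b : Basis (Fin 2 ⊕ Fin 2) F V, b (Sum.inl 0) = v ∧ b (Sum.inl 1) = w ∧
      ∃ (ε : F) (C₀ : Matrix (Fin 2) (Fin 2) F), ε ^ 2 = 1 ∧ Blk G b (un 1) C₀ (ε • un 1) := by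
  obtain ⟨b, hb0, hb1⟩ := exists_basis4 hd h
  obtain ⟨d, hdG, hdd, hdv, hdw⟩ := exists_unip1 hG hF h 1
  obtain ⟨C, B, e⟩ := exists_blocks b d (un 1) (by
    intro j
    rcases two_cases j with rfl | rfl
    · simp [un, hb0, hdv]
    · simp [un, hb0, hb1, hdw, add_comm])
  have hdetB : B.det = 1 := by
    have := det_blocks b e
    rw [hdd] at this
    simpa [un] using this
  have H := locSys b hP hd hG hF
  have htr := H.trace_sq hF (c := 1) ⟨d, hdG, e⟩ hdetB
  obtain ⟨ε, hε, hε2⟩ : ∃ ε : F, ε ^ 2 = 1 ∧ B.trace = 2 * ε := by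
    by_cases h2 : (2 : F) = 0
    · refine ⟨1, by ring, ?_⟩
      have h4 : B.trace ^ 2 = 0 := by rw [htr]; linear_combination 2 * h2
      rw [pow_eq_zero_iff two_ne_zero] at h4
      rw [h4, h2]; ring
    · refine ⟨B.trace / 2, ?_, by field_simp⟩
      rw [div_pow, htr]
      have : (2 : F) ^ 2 = 4 := by norm_num
      rw [this]
      have h4 : (4 : F) ≠ 0 := by rw [← this]; exact pow_ne_zero _ h2
      exact div_self h4
  have hLn : Ln b = Submodule.span F {v, w} := by unfold Ln; rw [hb0, hb1]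
  have hε0 : ε ≠ 0 := by rintro rfl; simp at hε
  -- entries
  have t0 : B 0 0 + B 1 1 = 2 * ε := by rw [← hε2, Matrix.trace_fin_two]
  have d0 : B 0 0 * B 1 1 - B 0 1 * B 1 0 = 1 := by rw [← hdetB, Matrix.det_fin_two]
  -- `δ = d - ε`
  have hδδ : ∀ x, d (d x - ε • x) - ε • (d x - ε • x) ∈ Ln b := by
    intro x
    rw [mem_Ln]
    simp only [map_sub, map_smul, Finsupp.sub_apply, Finsupp.smul_apply, smul_eq_mul,
      repr_inr b e]
    constructor
    · linear_combination (B 0 0 * b.repr x (Sum.inr 0) + B 0 1 * b.repr x (Sum.inr 1)) * t0 -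
        b.repr x (Sum.inr 0) * d0 + b.repr x (Sum.inr 0) * hε
    · linear_combination (B 1 0 * b.repr x (Sum.inr 0) + B 1 1 * b.repr x (Sum.inr 1)) * t0 -
        b.repr x (Sum.inr 1) * d0 + b.repr x (Sum.inr 1) * hε
  obtain ⟨z, hz⟩ : ∃ z, d z - ε • z ∉ Ln b := by
    by_contra hcon
    push Not at hcon
    have hB : B = ε • (1 : Matrix (Fin 2) (Fin 2) F) := by
      ext i j
      have h1 := hcon (b (Sum.inr j))
      rw [mem_Ln] at h1
      have h2 : b.repr (d (b (Sum.inr j)) - ε • b (Sum.inr j)) (Sum.inr i) = 0 := by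
        rcases two_cases i with rfl | rfl
        · exact h1.1
        · exact h1.2
      rw [map_sub, Finsupp.sub_apply, repr_inr b e, sub_eq_zero] at h2
      rcases two_cases i with rfl | rfl <;> rcases two_cases j with rfl | rfl <;>
        simpa [Finsupp.single_apply] using h2
    have h3 : Blk G b (un 1) C (ε • 1) := ⟨d, hdG, by rw [e, hB]⟩
    obtain ⟨μ, hμ⟩ := H.f4 h3
    exact one_ne_zero (un_scalar hμ)
  set y := ε • d z - z with hy
  have hyδ : y = ε • (d z - ε • z) := by
    rw [hy, smul_sub, smul_smul, ← pow_two, hε, one_smul]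
  have hyL : y ∉ Ln b := by
    intro h
    apply hz
    rw [hyδ] at h
    have := (Ln b).smul_mem ε h
    rwa [smul_smul, ← pow_two, hε, one_smul] at this
  have hdz : d z = ε • z + ε • y := by
    rw [hy, smul_sub, smul_smul, ← pow_two, hε, one_smul]; abel
  have hdy : d y - ε • y ∈ Ln b := by
    have := (Ln b).smul_mem ε (hδδ z)
    have h2 : d y - ε • y = ε • (d (d z - ε • z) - ε • (d z - ε • z)) := by
      rw [hyδ, map_smul, smul_sub, smul_sub, smul_sub, smul_sub]
    rw [h2]; exact this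
  have hdL : ∀ x ∈ Ln b, d x - ε • x ∈ Ln b := by
    intro x hx
    rw [mem_Ln] at hx ⊢
    simp only [map_sub, map_smul, Finsupp.sub_apply, Finsupp.smul_apply, smul_eq_mul,
      repr_inr b e, hx.1, hx.2]
    simp
  obtain ⟨b', h1, h2, h3, h4⟩ := basis4 hd h (y := y) (z := z) (by
    intro s t hst
    rw [← hLn] at hst
    have k1 := hdL _ hst
    have k2 : t • (d z - ε • z) ∈ Ln b := by
      have k3 := (Ln b).sub_mem k1 ((Ln b).smul_mem s hdy)
      have k4 : d (s • y + t • z) - ε • (s • y + t • z) - s • (d y - ε • y) =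
          t • (d z - ε • z) := by
        rw [map_add, map_smul, map_smul]; module
      rwa [k4] at k3
    have ht : t = 0 := by
      by_contra ht
      apply hz
      have := (Ln b).smul_mem t⁻¹ k2
      rwa [smul_smul, inv_mul_cancel₀ ht, one_smul] at this
    subst ht
    rw [zero_smul, add_zero] at hst
    refine ⟨?_, rfl⟩
    by_contra hs
    apply hyL
    have := (Ln b).smul_mem s⁻¹ hst
    rwa [smul_smul, inv_mul_cancel₀ hs, one_smul] at this)
  have hLn' : Ln b' = Ln b := by rw [hLn]; unfold Ln; rw [h1, h2]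
  obtain ⟨C', B', e'⟩ := exists_blocks b' d (un 1) (by
    intro j
    rcases two_cases j with rfl | rfl
    · simp [un, h1, hdv]
    · simp [un, h1, h2, hdw, add_comm])
  refine ⟨b', h1, h2, ε, C', hε, d, hdG, ?_⟩
  have hB' : B' = ε • un 1 := by
    have q0 : ∀ i, B' i 0 = b'.repr (d (b' (Sum.inr 0))) (Sum.inr i) := by
      intro i
      rw [repr_inr b' e']
      simp
    have q1 : ∀ i, B' i 1 = b'.repr (d (b' (Sum.inr 1))) (Sum.inr i) := by
      intro i
      rw [repr_inr b' e']
      simp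
    rw [h3] at q0
    rw [h4] at q1
    have e1 : d y = ε • y + (d y - ε • y) := by abel
    rw [← hLn', mem_Ln] at hdy
    have e3 : b'.repr y = Finsupp.single (Sum.inr 0) 1 := by rw [← h3, Basis.repr_self]
    have e4 : b'.repr z = Finsupp.single (Sum.inr 1) 1 := by rw [← h4, Basis.repr_self]
    have w0 : ∀ i, b'.repr (d y) (Sum.inr i) = ε * b'.repr y (Sum.inr i) := by
      intro i
      rw [e1, map_add, Finsupp.add_apply, map_smul, Finsupp.smul_apply, smul_eq_mul]
      rcases two_cases i with rfl | rfl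
      · rw [hdy.1, add_zero]
      · rw [hdy.2, add_zero]
    ext i j
    rcases two_cases j with rfl | rfl
    · rw [q0, w0, e3]
      rcases two_cases i with rfl | rfl <;> simp [un]
    · rw [q1, hdz, map_add, map_smul, map_smul, e3, e4]
      rcases two_cases i with rfl | rfl <;> simp [un]
  rw [e', hB']

/-! ### the case without square-zero elements -/

lemma map_zero_of_UT {L : Submodule F V} {N : V →ₗ[F] V} (h : UT G L N) {x : V} (hx : x ∈ L) :
    N x = 0 := LinearMap.mem_ker.1 (h.2.2 hx)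

lemma mem_of_UT {L : Submodule F V} {N : V →ₗ[F] V} (h : UT G L N) (x : V) :
    N x ∈ L := h.2.1 ⟨x, rfl⟩

theorem not_all_U_trivial [FiniteDimensional F V] (hP : NoP G) (hd : finrank F V = 4)
    (hG : TwoTrans G) (hF : ∃ s : F, s ≠ 0 ∧ s ^ 4 ≠ 1) (hF8 : ∃ s : F, s ≠ 0 ∧ s ^ 8 ≠ 1)
    (hU : ∀ L : Submodule F V, finrank F L = 2 → ∀ N, UT G L N → N = 0) : False := by
  obtain ⟨b0⟩ : Nonempty (Basis (Fin 2 ⊕ Fin 2) F V) :=
    ⟨(Module.finBasisOfFinrankEq F V hd).reindex (finSumFinEquiv (m := 2) (n := 2)).symm⟩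
  obtain ⟨b, hb0, hb1, ε, C₀, hε, h0⟩ := exists_frame hP hd hG hF (indep_Ln b0)
  have H := locSys b hP hd hG hF
  refine H.no_regular hF hF8 hε h0 ?_ ?_
  · rintro C ⟨g, hg, e⟩
    set N : V →ₗ[F] V := (g : V →ₗ[F] V) - LinearMap.id with hN
    have hNa : ∀ x, N x = g x - x := fun x => rfl
    have hUN : UT G (Ln b) N := by
      refine ⟨⟨g, hg, fun x => by rw [hNa]; abel⟩, ?_, ?_⟩
      · rintro _ ⟨x, rfl⟩
        rw [mem_Ln, hNa, map_sub, Finsupp.sub_apply, Finsupp.sub_apply, repr_inr b e,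
          repr_inr b e]
        simp
      · intro x hx
        rw [mem_Ln] at hx
        rw [LinearMap.mem_ker, hNa, sub_eq_zero]
        apply b.repr.injective
        ext i
        rcases i with i | i
        · rw [repr_inl b e, hx.1, hx.2]
          rcases two_cases i with rfl | rfl <;> simp
        · rw [repr_inr b e, hx.1, hx.2]
          rcases two_cases i with rfl | rfl <;> simp [hx.1, hx.2]
    have hN0 := hU _ (finrank_Ln b) N hUN
    ext i j
    have h1 : b.repr (N (b (Sum.inr j))) (Sum.inl i) = 0 := by rw [hN0]; simp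
    rw [hNa, map_sub, Finsupp.sub_apply, repr_inl b e] at h1
    rcases two_cases i with rfl | rfl <;> rcases two_cases j with rfl | rfl <;>
      simpa [Finsupp.single_apply] using h1
  · rintro C β ⟨g, hg, e⟩ hC
    set N : V →ₗ[F] V := (g : V →ₗ[F] V) - LinearMap.id with hN
    have hNa : ∀ x, N x = g x - x := fun x => rfl
    have hIn : In G N := ⟨g, hg, fun x => by rw [hNa]; abel⟩
    set v := b (Sum.inl 0) with hv
    set w := b (Sum.inl 1) with hw
    set y := b (Sum.inr 0) with hy
    have hgv : g v = v := by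
      apply b.repr.injective
      ext i
      rcases i with i | i
      · rw [repr_inl b e]
        rcases two_cases i with rfl | rfl <;> simp [hv, un]
      · rw [repr_inr b e]
        rcases two_cases i with rfl | rfl <;> simp [hv]
    have hgw : g w = w + v := by
      apply b.repr.injective
      ext i
      rcases i with i | i
      · rw [repr_inl b e]
        rcases two_cases i with rfl | rfl <;> simp [hv, hw, un]
      · rw [repr_inr b e]
        rcases two_cases i with rfl | rfl <;> simp [hv, hw]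
    have hgy : g y = y + C 0 0 • v := by
      apply b.repr.injective
      ext i
      rcases i with i | i
      · rw [repr_inl b e]
        rcases two_cases i with rfl | rfl <;> simp [hv, hy, hC]
      · rw [repr_inr b e]
        rcases two_cases i with rfl | rfl <;> simp [hv, hy, un]
    have hv0 : v ≠ 0 := b.ne_zero _
    have hNv : N v = 0 := by rw [hNa, hgv, sub_self]
    have hNw : N w = v := by rw [hNa, hgw]; abel
    have hNy : N (y - C 0 0 • w) = 0 := by
      rw [hNa, map_sub, map_smul, hgy, hgw]; module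
    have hN0 : N ≠ 0 := by
      intro h
      rw [h] at hNw
      exact hv0 hNw.symm
    have hind : LinearIndependent F ![v, y - C 0 0 • w] := by
      rw [LinearIndependent.pair_iff]
      intro s t hst
      have h1 := congrArg (fun x => b.repr x (Sum.inl 0)) hst
      have h2 := congrArg (fun x => b.repr x (Sum.inr 0)) hst
      simp [hv, hw, hy] at h1 h2
      exact ⟨h1, h2⟩
    set X := Submodule.span F {v, y - C 0 0 • w} with hX
    have hX2 : finrank F X = 2 := finrank_pair hind
    have hXN : X ≤ LinearMap.ker N := by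
      rw [hX, Submodule.span_le]
      rintro x (rfl | rfl)
      · exact hNv
      · exact hNy
    obtain ⟨hker, hr2⟩ := ker_eq_of hP hd hX2 hIn hN0 hXN
    obtain ⟨μ, hμ⟩ := scalar_of_quot hP hd hG hF hr2 (g := g) ⟨hg, fun x => ⟨x, rfl⟩⟩
    have h1 := hμ v ⟨w, hNw⟩
    rw [hgv] at h1
    have hμ1 : μ = 1 := by
      have : (μ - 1) • v = 0 := by rw [sub_smul, one_smul, ← h1, sub_self]
      rcases smul_eq_zero.1 this with h | h
      · exact sub_eq_zero.1 h
      · exact absurd h hv0
    apply hN0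
    refine hU X hX2 N ⟨hIn, ?_, hXN⟩
    rintro _ ⟨x, rfl⟩
    rw [← hker, LinearMap.mem_ker, hNa (N x), hμ _ ⟨x, rfl⟩, hμ1, one_smul, sub_self]

/-! ### the case with square-zero elements -/

lemma blk_of_UT (b : Basis (Fin 2 ⊕ Fin 2) F V) {N : V →ₗ[F] V} (h : UT G (Ln b) N) :
    ∃ T, Blk G b 1 T 1 ∧ ∀ i j, T i j = b.repr (N (b (Sum.inr j))) (Sum.inl i) := by
  obtain ⟨⟨g, hg, hgN⟩, hr, hk⟩ := h
  obtain ⟨C, B, e⟩ := exists_blocks b g 1 (by
    intro j
    have h1 : b (Sum.inl j) ∈ Ln b := by rw [mem_Ln]; simp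
    rw [hgN, LinearMap.mem_ker.1 (hk h1), add_zero]
    rcases two_cases j with rfl | rfl <;> simp)
  have hB : B = 1 := by
    ext i j
    have h1 : N (b (Sum.inr j)) ∈ Ln b := hr ⟨_, rfl⟩
    rw [mem_Ln] at h1
    have h2 := repr_inr b e (b (Sum.inr j)) i
    rw [hgN, map_add, Finsupp.add_apply] at h2
    have h3 : b.repr (N (b (Sum.inr j))) (Sum.inr i) = 0 := by
      rcases two_cases i with rfl | rfl
      · exact h1.1
      · exact h1.2
    rw [h3, add_zero] at h2
    rcases two_cases i with rfl | rfl <;> rcases two_cases j with rfl | rfl <;>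
      simpa [Finsupp.single_apply] using h2.symm
  rw [hB] at e
  refine ⟨C, ⟨g, hg, e⟩, fun i j => ?_⟩
  have h2 := repr_inl b e (b (Sum.inr j)) i
  rw [hgN, map_add, Finsupp.add_apply] at h2
  rcases two_cases i with rfl | rfl <;> rcases two_cases j with rfl | rfl <;>
    simpa [Finsupp.single_apply] using h2.symm

theorem ratio [FiniteDimensional F V] (hP : NoP G) (hd : finrank F V = 4)
    (hG : TwoTrans G) (hF : ∃ s : F, s ≠ 0 ∧ s ^ 4 ≠ 1) {L : Submodule F V}
    (hL : finrank F L = 2) {N N0 : V →ₗ[F] V} (hN : UT G L N) (hN0 : UT G L N0) (h0 : N0 ≠ 0)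
    (x : V) : ∃ τ : F, N x = τ • N0 x := by
  obtain ⟨hk, -⟩ := ker_eq_of hP hd hL hN0.1 h0 hN0.2.2
  by_cases hx : N0 x = 0
  · refine ⟨0, ?_⟩
    rw [zero_smul]
    apply map_zero_of_UT hN
    rw [← hk]; exact hx
  set v := N0 x with hv
  have hvL : v ∈ L := mem_of_UT hN0 x
  obtain ⟨w, hwL, hind⟩ := exists_second hL hvL hx
  obtain ⟨b, hb0, hb1, ε, C₀, hε, hB0⟩ := exists_frame hP hd hG hF hind
  have H := locSys b hP hd hG hF
  have hLn : Ln b = L := by unfold Ln; rw [hb0, hb1]; exact span_pair_eq hL hvL hwL hind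
  obtain ⟨T0, hT0, hT0e⟩ := blk_of_UT b (N := N0) (by rw [hLn]; exact hN0)
  obtain ⟨T, hT, hTe⟩ := blk_of_UT b (N := N) (by rw [hLn]; exact hN)
  have z0 := H.lower_zero hF hε hB0 hT0
  have z := H.lower_zero hF hε hB0 hT
  have form : ∀ M : V →ₗ[F] V, UT G L M → b.repr (M (b (Sum.inr 0))) (Sum.inl 1) = 0 →
      M (b (Sum.inr 0)) = b.repr (M (b (Sum.inr 0))) (Sum.inl 0) • v := by
    intro M hM h1
    have h2 : M (b (Sum.inr 0)) ∈ Ln b := by rw [hLn]; exact mem_of_UT hM _
    rw [mem_Ln] at h2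
    conv_lhs => rw [expand b (M (b (Sum.inr 0)))]
    rw [h1, h2.1, h2.2, hb0]
    simp
  have f0 := form N0 hN0 (by rw [← hT0e]; exact z0)
  have f1 := form N hN (by rw [← hTe]; exact z)
  set κ := b.repr (N0 (b (Sum.inr 0))) (Sum.inl 0)
  set κ' := b.repr (N (b (Sum.inr 0))) (Sum.inl 0)
  have hκ : κ ≠ 0 := by
    intro h
    rw [h, zero_smul] at f0
    have h1 : b (Sum.inr 0) ∈ Ln b := by rw [hLn, ← hk]; exact f0
    rw [mem_Ln] at h1
    simp at h1
  have h3 : b (Sum.inr 0) - κ • x ∈ L := by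
    rw [← hk, LinearMap.mem_ker, map_sub, map_smul, f0, ← hv, sub_self]
  have h4 := map_zero_of_UT hN h3
  rw [map_sub, map_smul, f1, sub_eq_zero] at h4
  refine ⟨κ⁻¹ * κ', ?_⟩
  rw [mul_smul, h4, smul_smul, inv_mul_cancel₀ hκ, one_smul]

theorem proportional [FiniteDimensional F V] (hP : NoP G) (hd : finrank F V = 4)
    (hG : TwoTrans G) (hF : ∃ s : F, s ≠ 0 ∧ s ^ 4 ≠ 1) {L : Submodule F V}
    (hL : finrank F L = 2) {N N0 : V →ₗ[F] V} (hN : UT G L N) (hN0 : UT G L N0) (h0 : N0 ≠ 0) :
    ∃ τ : F, ∀ x, N x = τ • N0 x := by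
  obtain ⟨hk, -⟩ := ker_eq_of hP hd hL hN0.1 h0 hN0.2.2
  obtain ⟨hr, -⟩ := range_eq_of hP hd hL hN0.1 h0 hN0.2.1
  obtain ⟨v, hv, w, hw, hind⟩ := exists_pair hL
  obtain ⟨x1, hx1⟩ : ∃ x, N0 x = v := by rw [← hr] at hv; exact hv
  obtain ⟨x2, hx2⟩ : ∃ x, N0 x = w := by rw [← hr] at hw; exact hw
  obtain ⟨τ1, h1⟩ := ratio hP hd hG hF hL hN hN0 h0 x1
  obtain ⟨τ2, h2⟩ := ratio hP hd hG hF hL hN hN0 h0 x2
  obtain ⟨τ3, h3⟩ := ratio hP hd hG hF hL hN hN0 h0 (x1 + x2)
  rw [hx1] at h1
  rw [hx2] at h2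
  rw [map_add, map_add, h1, h2, hx1, hx2] at h3
  have hind' := hind
  rw [LinearIndependent.pair_iff] at hind'
  obtain ⟨e1, e2⟩ := hind' (τ1 - τ3) (τ2 - τ3) (by
    have : τ1 • v + τ2 • w - τ3 • (v + w) = 0 := sub_eq_zero.2 h3
    rw [← this]; module)
  have e12 : τ2 = τ1 := by rw [sub_eq_zero] at e1 e2; rw [e1, e2]
  refine ⟨τ1, fun x => ?_⟩
  obtain ⟨α, β, hαβ⟩ := exists_comb hL hv hw hind (mem_of_UT hN0 x)
  have h5 : x - (α • x1 + β • x2) ∈ L := by
    rw [← hk, LinearMap.mem_ker, map_sub, map_add, map_smul, map_smul, hx1, hx2, hαβ, sub_self]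
  have h6 := map_zero_of_UT hN h5
  rw [map_sub, map_add, map_smul, map_smul, h1, h2, sub_eq_zero, e12] at h6
  rw [h6, hαβ]; module

lemma exists_UT [FiniteDimensional F V] (hG : TwoTrans G) {L L' : Submodule F V}
    (hL : finrank F L = 2) (hL' : finrank F L' = 2) {N : V →ₗ[F] V} (hN : UT G L N)
    (h0 : N ≠ 0) : ∃ N', UT G L' N' ∧ N' ≠ 0 := by
  obtain ⟨k, hk, hkL⟩ := line_trans hG hL hL'
  set M : V →ₗ[F] V := (k : V →ₗ[F] V) ∘ₗ N ∘ₗ ((k⁻¹ : V ≃ₗ[F] V) : V →ₗ[F] V) with hM
  have hMa : ∀ x, M (k x) = k (N x) := by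
    intro x
    rw [hM]
    simp only [LinearMap.comp_apply, LinearEquiv.coe_coe]
    rw [inv_apply]
  obtain ⟨⟨g, hg, hgN⟩, hr, hker⟩ := hN
  refine ⟨M, ⟨⟨k * g * k⁻¹, G.mul_mem (G.mul_mem hk hg) (G.inv_mem hk), fun z => ?_⟩, ?_, ?_⟩, ?_⟩
  · obtain ⟨x, rfl⟩ := k.surjective z
    rw [hMa, apply_mul, inv_apply, apply_mul, hgN, map_add]
  · rintro _ ⟨z, rfl⟩
    obtain ⟨x, rfl⟩ := k.surjective z
    rw [hMa, hkL]
    exact hr ⟨x, rfl⟩
  · intro z hz
    obtain ⟨x, rfl⟩ := k.surjective z
    rw [LinearMap.mem_ker, hMa, LinearMap.mem_ker.1 (hker ((hkL x).1 hz)), map_zero]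
  · intro h
    apply h0
    ext x
    have := hMa x
    rw [h, LinearMap.zero_apply] at this
    rw [LinearMap.zero_apply]
    exact (k.map_eq_zero_iff).1 this.symm

theorem claim [FiniteDimensional F V] (hP : NoP G) (hd : finrank F V = 4)
    (hG : TwoTrans G) (hF : ∃ s : F, s ≠ 0 ∧ s ^ 4 ≠ 1) {v w w' : V}
    (h : LinearIndependent F ![v, w]) (h' : LinearIndependent F ![v, w'])
    {N N' : V →ₗ[F] V} (hN : UT G (Submodule.span F {v, w}) N) (hN0 : N ≠ 0)
    (hN' : UT G (Submodule.span F {v, w'}) N') (hN'0 : N' ≠ 0)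
    (hw : N w' ∈ Submodule.span F {v}) : N' w ∈ Submodule.span F {v} := by
  have hL := finrank_pair h
  have hL' := finrank_pair h'
  have mv : v ∈ Submodule.span F {v, w} := Submodule.subset_span (by simp)
  have mw : w ∈ Submodule.span F {v, w} := Submodule.subset_span (by simp)
  have mv' : v ∈ Submodule.span F {v, w'} := Submodule.subset_span (by simp)
  have mw' : w' ∈ Submodule.span F {v, w'} := Submodule.subset_span (by simp)
  have hsub : Submodule.span F {v} ≤ Submodule.span F {v, w'} := by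
    rw [Submodule.span_le]
    rintro x rfl
    exact mv'
  have Nv : N v = 0 := map_zero_of_UT hN mv
  have N'v : N' v = 0 := map_zero_of_UT hN' mv'
  have hN1 : ∀ x ∈ Submodule.span F {v}, N x = 0 := by
    intro x hx
    obtain ⟨a, rfl⟩ := Submodule.mem_span_singleton.1 hx
    rw [map_smul, Nv, smul_zero]
  have hN'1 : ∀ x ∈ Submodule.span F {v}, N' x = 0 := by
    intro x hx
    obtain ⟨a, rfl⟩ := Submodule.mem_span_singleton.1 hx
    rw [map_smul, N'v, smul_zero]
  -- `N` maps the line of `N'` into the point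
  have hNN' : ∀ x, N (N' x) ∈ Submodule.span F {v} := by
    intro x
    obtain ⟨a, c, hac⟩ := exists_comb hL' mv' mw' h' (mem_of_UT hN' x)
    rw [hac, map_add, map_smul, map_smul, Nv, smul_zero, zero_add]
    exact Submodule.smul_mem _ _ hw
  have NN : ∀ x, N (N x) = 0 := fun x => map_zero_of_UT hN (mem_of_UT hN x)
  have N'N' : ∀ x, N' (N' x) = 0 := fun x => map_zero_of_UT hN' (mem_of_UT hN' x)
  set M : V →ₗ[F] V := N ∘ₗ N' - N' ∘ₗ N - N ∘ₗ N' ∘ₗ N with hM
  have hMa : ∀ x, M x = N (N' x) - N' (N x) - N (N' (N x)) := fun x => rfl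
  have hMU : UT G (Submodule.span F {v, w'}) M := by
    refine ⟨?_, ?_, ?_⟩
    · obtain ⟨u, hu, huN⟩ := hN.1
      obtain ⟨u', hu', huN'⟩ := hN'.1
      refine ⟨(u * u') * (u' * u)⁻¹, G.mul_mem (G.mul_mem hu hu')
        (G.inv_mem (G.mul_mem hu' hu)), fun z => ?_⟩
      obtain ⟨x, rfl⟩ := (u' * u).surjective z
      rw [mul_inv_apply_of]
      have k1 : ∀ x, N' (N (N' x)) = 0 := fun x => hN'1 _ (hNN' x)
      simp only [apply_mul, huN, huN', hMa, map_add, map_zero, NN, N'N', k1]
      abel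
    · rintro _ ⟨x, rfl⟩
      rw [hMa]
      exact Submodule.sub_mem _ (Submodule.sub_mem _ (hsub (hNN' x)) (mem_of_UT hN' _))
        (hsub (hNN' _))
    · rw [Submodule.span_le]
      rintro x (rfl | rfl)
      · show M x = 0
        rw [hMa, N'v, Nv]; simp
      · show M x = 0
        rw [hMa, map_zero_of_UT hN' mw', hN'1 _ hw]; simp
  obtain ⟨τ, hτ⟩ := proportional hP hd hG hF hL' hMU hN' hN'0
  by_contra hcon
  -- apply to `w`
  have h1 := hτ w
  rw [hMa, map_zero_of_UT hN mw, map_zero, map_zero, sub_zero, sub_zero] at h1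
  have hτ0 : τ = 0 := by
    by_contra hτ0
    apply hcon
    have h2 := hNN' w
    rw [h1] at h2
    have h3 := Submodule.smul_mem _ τ⁻¹ h2
    rwa [smul_smul, inv_mul_cancel₀ hτ0, one_smul] at h3
  obtain ⟨hr, -⟩ := range_eq_of hP hd hL hN.1 hN0 hN.2.1
  obtain ⟨x, hx⟩ : ∃ x, N x = w := by
    have := mw
    rw [← hr] at this
    exact this
  have h4 := hτ x
  rw [hτ0, zero_smul, hMa, hx] at h4
  apply hcon
  have h5 : N' w = N (N' x) - N (N' w) := by
    have h6 : N (N' x) - N' w = N (N' w) := sub_eq_zero.1 h4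
    have h7 : N (N' x) = N (N' w) + N' w := sub_eq_iff_eq_add.1 h6
    rw [h7, add_sub_cancel_left]
  rw [h5]
  exact Submodule.sub_mem _ (hNN' _) (hNN' _)

lemma exists_functional {v w : V} (h : LinearIndependent F ![v, w]) :
    ∃ f : Dual F V, f v = 0 ∧ f w ≠ 0 := by
  obtain ⟨f, hf, hf'⟩ := Submodule.exists_dual_map_eq_bot_of_notMem (not_mem_of_indep h)
    inferInstance
  refine ⟨f, ?_, hf⟩
  have : f v ∈ Submodule.map f (Submodule.span F {v}) :=
    ⟨v, Submodule.mem_span_singleton_self v, rfl⟩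
  rw [hf'] at this
  simpa using this

theorem no_square_zero [FiniteDimensional F V] (hP : NoP G) (hd : finrank F V = 4)
    (hG : TwoTrans G) (hF : ∃ s : F, s ≠ 0 ∧ s ^ 4 ≠ 1) {L : Submodule F V}
    (hL : finrank F L = 2) {N₁ : V →ₗ[F] V} (hN₁ : UT G L N₁) (h0 : N₁ ≠ 0) : False := by
  obtain ⟨v, -, w, -, hvw⟩ := exists_pair hL
  have hv0 : v ≠ 0 := hvw.ne_zero 0
  have key : ∀ x, LinearIndependent F ![v, x] →
      ∃ N, UT G (Submodule.span F {v, x}) N ∧ N ≠ 0 := fun x hx =>
    exists_UT hG hL (finrank_pair hx) hN₁ h0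
  obtain ⟨N, hN, hN0⟩ := key w hvw
  have mw : w ∈ Submodule.span F {v, w} := Submodule.subset_span (by simp)
  obtain ⟨hr, -⟩ := range_eq_of hP hd (finrank_pair hvw) hN.1 hN0 hN.2.1
  obtain ⟨y, hy⟩ : ∃ y, N y = w := by
    have := mw
    rw [← hr] at this
    exact this
  have hwv : w ∉ Submodule.span F {v} := not_mem_of_indep hvw
  have hNv : ∀ x ∈ Submodule.span F {v}, N x = 0 := by
    intro x hx
    obtain ⟨a, rfl⟩ := Submodule.mem_span_singleton.1 hx
    rw [map_smul, map_zero_of_UT hN (Submodule.subset_span (by simp)), smul_zero]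
  have hvy : LinearIndependent F ![v, y] := by
    apply indep_of_not_mem hv0
    intro h
    rw [hNv y h] at hy
    exact hvw.ne_zero 1 hy.symm
  obtain ⟨Ny, hNy, hNy0⟩ := key y hvy
  have hyw : Ny w ∉ Submodule.span F {v} := by
    intro h
    have := claim hP hd hG hF hvy hvw hNy hNy0 hN hN0 h
    rw [hy] at this
    exact hwv this
  have hNyv : ∀ x ∈ Submodule.span F {v}, Ny x = 0 := by
    intro x hx
    obtain ⟨a, rfl⟩ := Submodule.mem_span_singleton.1 hx
    rw [map_smul, map_zero_of_UT hNy (Submodule.subset_span (by simp)), smul_zero]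
  -- the common part of the two planes
  obtain ⟨f, hfv, hfw⟩ := exists_functional hvw
  obtain ⟨f', hfv', hfy'⟩ := exists_functional hvy
  obtain ⟨x, hxk, hxv⟩ : ∃ x, (f (N x) = 0 ∧ f' (Ny x) = 0) ∧ x ∉ Submodule.span F {v} := by
    set ψ : V →ₗ[F] F × F := (f ∘ₗ N).prod (f' ∘ₗ Ny) with hψ
    have h1 := LinearMap.finrank_range_add_finrank_ker ψ
    have h2 : finrank F (LinearMap.range ψ) ≤ 2 := by
      have := Submodule.finrank_le (LinearMap.range ψ)
      simpa using this
    have h3 : ¬ LinearMap.ker ψ ≤ Submodule.span F {v} := by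
      intro hle
      have h4 := Submodule.finrank_mono hle
      rw [finrank_span_singleton hv0] at h4
      omega
    obtain ⟨x, hx, hx'⟩ := SetLike.not_le_iff_exists.1 h3
    refine ⟨x, ?_, hx'⟩
    have : ψ x = 0 := hx
    rw [hψ] at this
    exact ⟨congrArg Prod.fst this, congrArg Prod.snd this⟩
  have hvx : LinearIndependent F ![v, x] := indep_of_not_mem hv0 hxv
  have mem_of : ∀ (u : V) (hvu : LinearIndependent F ![v, u]) (M : V →ₗ[F] V)
      (hM : UT G (Submodule.span F {v, u}) M) (φ : Dual F V), φ v = 0 → φ u ≠ 0 →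
      φ (M x) = 0 → M x ∈ Submodule.span F {v} := by
    intro u hvu M hM φ h1 h2 h3
    obtain ⟨a, c, hac⟩ := Submodule.mem_span_pair.1 (mem_of_UT hM x)
    rw [← hac, map_add, map_smul, map_smul, h1, smul_zero, zero_add, smul_eq_mul] at h3
    have hc : c = 0 := (mul_eq_zero.1 h3).resolve_right h2
    rw [← hac, hc, zero_smul, add_zero]
    exact Submodule.smul_mem _ _ (Submodule.mem_span_singleton_self v)
  have hNx := mem_of w hvw N hN f hfv hfw hxk.1
  have hNyx := mem_of y hvy Ny hNy f' hfv' hfy' hxk.2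
  obtain ⟨Nx, hNx', hNx0⟩ := key x hvx
  have h1 := claim hP hd hG hF hvw hvx hN hN0 hNx' hNx0 hNx
  have h2 := claim hP hd hG hF hvy hvx hNy hNy0 hNx' hNx0 hNyx
  -- `x` is in the span of `v, w, y`
  by_cases hx3 : x ∈ Submodule.span F {v, w} ⊔ Submodule.span F {y}
  · obtain ⟨p, hp, q, hq, rfl⟩ := Submodule.mem_sup.1 hx3
    obtain ⟨a, c, rfl⟩ := Submodule.mem_span_pair.1 hp
    obtain ⟨d, rfl⟩ := Submodule.mem_span_singleton.1 hq
    have hd0 : d = 0 := by
      by_contra hd0
      apply hwv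
      have e1 : N (a • v + c • w + d • y) = d • w := by
        rw [map_add, map_smul, hy, map_zero_of_UT hN hp, zero_add]
      rw [e1] at hNx
      have := Submodule.smul_mem _ d⁻¹ hNx
      rwa [smul_smul, inv_mul_cancel₀ hd0, one_smul] at this
    subst hd0
    have hc0 : c = 0 := by
      by_contra hc0
      apply hyw
      have e1 : Ny (a • v + c • w + (0 : F) • y) = c • Ny w := by
        rw [map_add, map_add, map_smul, map_smul, map_smul, zero_smul, add_zero,
          hNyv v (Submodule.mem_span_singleton_self v), smul_zero, zero_add]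
      rw [e1] at hNyx
      have := Submodule.smul_mem _ c⁻¹ hNyx
      rwa [smul_smul, inv_mul_cancel₀ hc0, one_smul] at this
    subst hc0
    apply hxv
    rw [zero_smul, zero_smul, add_zero, add_zero]
    exact Submodule.smul_mem _ _ (Submodule.mem_span_singleton_self v)
  · -- then `Nx` has rank at most one
    apply hNx0
    apply hP Nx hNx'.1
    have hle : LinearMap.range Nx ≤ Submodule.span F {v} := by
      have htop : Submodule.span F {v, w} ⊔ Submodule.span F {y} ⊔ Submodule.span F {x} = ⊤ := by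
        apply Submodule.eq_top_of_finrank_eq
        have hyn : y ∉ Submodule.span F {v, w} := by
          intro h
          rw [map_zero_of_UT hN h] at hy
          exact hvw.ne_zero 1 hy.symm
        have e1 : Submodule.span F {v, w} ⊓ Submodule.span F {y} = ⊥ := by
          rw [Submodule.eq_bot_iff]
          rintro z ⟨hz1, hz2⟩
          obtain ⟨a, rfl⟩ := Submodule.mem_span_singleton.1 hz2
          by_cases ha : a = 0
          · simp [ha]
          · exfalso
            apply hyn
            have := Submodule.smul_mem _ a⁻¹ hz1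
            rwa [smul_smul, inv_mul_cancel₀ ha, one_smul] at this
        have e2 : (Submodule.span F {v, w} ⊔ Submodule.span F {y}) ⊓ Submodule.span F {x} = ⊥ := by
          rw [Submodule.eq_bot_iff]
          rintro z ⟨hz1, hz2⟩
          obtain ⟨a, rfl⟩ := Submodule.mem_span_singleton.1 hz2
          by_cases ha : a = 0
          · simp [ha]
          · exfalso
            apply hx3
            have := Submodule.smul_mem _ a⁻¹ hz1
            rwa [smul_smul, inv_mul_cancel₀ ha, one_smul] at this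
        have f1 := Submodule.finrank_sup_add_finrank_inf_eq (Submodule.span F {v, w})
          (Submodule.span F {y})
        have f2 := Submodule.finrank_sup_add_finrank_inf_eq
          (Submodule.span F {v, w} ⊔ Submodule.span F {y}) (Submodule.span F {x})
        rw [e1, finrank_bot, add_zero, finrank_pair hvw,
          finrank_span_singleton (show y ≠ 0 from hvy.ne_zero 1)] at f1
        rw [e2, finrank_bot, add_zero, f1,
          finrank_span_singleton (show x ≠ 0 from hvx.ne_zero 1)] at f2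
        rw [f2, hd]
      rintro _ ⟨z, rfl⟩
      have hz : z ∈ Submodule.span F {v, w} ⊔ Submodule.span F {y} ⊔ Submodule.span F {x} := by
        rw [htop]; trivial
      obtain ⟨z1, hz1, z2, hz2, rfl⟩ := Submodule.mem_sup.1 hz
      obtain ⟨z3, hz3, z4, hz4, rfl⟩ := Submodule.mem_sup.1 hz1
      obtain ⟨a, c, rfl⟩ := Submodule.mem_span_pair.1 hz3
      obtain ⟨d, rfl⟩ := Submodule.mem_span_singleton.1 hz4
      obtain ⟨e, rfl⟩ := Submodule.mem_span_singleton.1 hz2
      simp only [map_add, map_smul]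
      have n1 : Nx v = 0 := map_zero_of_UT hNx' (Submodule.subset_span (by simp))
      have n2 : Nx x = 0 := map_zero_of_UT hNx' (Submodule.subset_span (by simp))
      rw [n1, n2, smul_zero, smul_zero, zero_add, add_zero]
      exact Submodule.add_mem _ (Submodule.smul_mem _ _ h1) (Submodule.smul_mem _ _ h2)
    have := Submodule.finrank_mono hle
    rwa [finrank_span_singleton hv0] at this

/-! ### the theorem -/

theorem exists_elements [Infinite F] (n : ℕ) (hn : 0 < n) : ∃ s : F, s ≠ 0 ∧ s ^ n ≠ 1 := by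
  classical
  have hne : (Polynomial.X * (Polynomial.X ^ n - 1) : Polynomial F) ≠ 0 := by
    apply mul_ne_zero Polynomial.X_ne_zero
    exact Polynomial.X_pow_sub_C_ne_zero hn 1
  obtain ⟨s, hs⟩ := Infinite.exists_notMem_finset
    (Polynomial.X * (Polynomial.X ^ n - 1) : Polynomial F).roots.toFinset
  rw [Multiset.mem_toFinset, Polynomial.mem_roots hne, Polynomial.IsRoot.def] at hs
  simp only [Polynomial.eval_mul, Polynomial.eval_X, Polynomial.eval_sub, Polynomial.eval_pow,
    Polynomial.eval_one, mul_eq_zero, not_or] at hs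
  exact ⟨s, hs.1, fun h => hs.2 (by rw [h, sub_self])⟩

/-- Over an infinite field, in dimension four every two-transitive group contains a nonidentity
perspectivity. -/
theorem exists_perspectivity_of_four [Infinite F] [FiniteDimensional F V]
    (hd : finrank F V = 4) (hG : TwoTrans G) :
    ∃ (f : Dual F V) (v : V), f ≠ 0 ∧ v ≠ 0 ∧ HasT G f v := by
  by_contra hcon
  push Not at hcon
  have hP : NoP G := by
    intro N hN hr
    by_contra h0
    obtain ⟨x, hx⟩ : ∃ x, N x ≠ 0 := by
      by_contra h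
      push Not at h
      exact h0 (LinearMap.ext h)
    have hspan : LinearMap.range N = Submodule.span F {N x} := by
      symm
      apply Submodule.eq_of_le_of_finrank_le
      · rw [Submodule.span_le]
        rintro _ rfl
        exact ⟨x, rfl⟩
      · rw [finrank_span_singleton hx]; exact hr
    obtain ⟨f, hf⟩ : ∃ f : Dual F V, f (N x) ≠ 0 := by
      by_contra h
      push Not at h
      exact hx ((Module.forall_dual_apply_eq_zero_iff F (N x)).1 h)
    have hform : ∀ y, N y = (f (N x))⁻¹ • f (N y) • N x := by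
      intro y
      have hy : N y ∈ Submodule.span F {N x} := by rw [← hspan]; exact ⟨y, rfl⟩
      obtain ⟨a, ha⟩ := Submodule.mem_span_singleton.1 hy
      rw [← ha, map_smul, smul_eq_mul, smul_smul, mul_comm a, ← mul_assoc,
        inv_mul_cancel₀ hf, one_mul]
    refine hcon ((f (N x))⁻¹ • (f ∘ₗ N)) (N x) ?_ hx ?_
    · intro h
      have := congrArg (fun φ : Dual F V => φ x) h
      simp only [LinearMap.smul_apply, LinearMap.comp_apply, smul_eq_mul,
        LinearMap.zero_apply] at this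
      rw [inv_mul_cancel₀ hf] at this
      exact one_ne_zero this
    · obtain ⟨g, hg, hgN⟩ := hN
      refine ⟨g, hg, fun y => ?_⟩
      rw [hgN, hform y]
      simp only [LinearMap.smul_apply, LinearMap.comp_apply, smul_eq_mul, smul_smul]
  have h4 := exists_elements (F := F) 4 (by norm_num)
  have h8 := exists_elements (F := F) 8 (by norm_num)
  by_cases hU : ∀ L : Submodule F V, finrank F L = 2 → ∀ N, UT G L N → N = 0
  · exact not_all_U_trivial hP hd hG h4 h8 hU
  · push Not at hU
    obtain ⟨L, hL, N, hN, h0⟩ := hU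
    exact no_square_zero hP hd hG h4 hL hN h0

end Pool.Agent.H95.DT
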