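import Pool.Agent.H20.ProjTwoTrans

/-!
# Two-transitive groups in dimension four without perspectivities: elements which are scalar on a
line or on the quotient by a line
-/

namespace Pool.Agent.H95.DT

open Module Pool.Agent.H20.ProjTwoTrans

variable {F V : Type*} [Field F] [AddCommGroup V] [Module F V]

/-- the map `1 + N` belongs to `G` -/
def In (G : Subgroup (V ≃ₗ[F] V)) (N : V →ₗ[F] V) : Prop := ∃ g ∈ G, ∀ x, g x = x + N x

/-- no nonidentity map `1 + N` in `G` with `N` of rank at most one -/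
def NoP (G : Subgroup (V ≃ₗ[F] V)) : Prop :=
  ∀ N : V →ₗ[F] V, In G N → finrank F (LinearMap.range N) ≤ 1 → N = 0

variable {G : Subgroup (V ≃ₗ[F] V)}

lemma apply_mul (g h : V ≃ₗ[F] V) (x : V) : (g * h) x = g (h x) := rfl

lemma apply_inv (g : V ≃ₗ[F] V) (x : V) : g (g⁻¹ x) = x := by
  have e : g * g⁻¹ = 1 := by group
  have := congrArg (fun e : V ≃ₗ[F] V => e x) e
  simp at this ⊢

lemma inv_apply (g : V ≃ₗ[F] V) (x : V) : g⁻¹ (g x) = x := by
  have e : g⁻¹ * g = 1 := by group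
  have := congrArg (fun e : V ≃ₗ[F] V => e x) e
  simp at this ⊢

lemma mul_inv_apply_of {g h : V ≃ₗ[F] V} (x : V) : (g * h⁻¹) (h x) = g x := by
  rw [apply_mul, inv_apply]

lemma in_sub {g : V ≃ₗ[F] V} (hg : g ∈ G) :
    In G ((g : V →ₗ[F] V) - LinearMap.id) := ⟨g, hg, fun x => by simp⟩

/-! ### pairs of vectors -/

lemma span_pair_eq [FiniteDimensional F V] {L : Submodule F V} (hL : finrank F L = 2) {v w : V}
    (hv : v ∈ L) (hw : w ∈ L) (h : LinearIndependent F ![v, w]) :
    Submodule.span F {v, w} = L := by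
  apply Submodule.eq_of_le_of_finrank_eq
  · rw [Submodule.span_le]
    rintro x (rfl | rfl)
    · exact hv
    · exact hw
  · have := finrank_span_eq_card h
    rw [Matrix.range_cons, Matrix.range_cons, Matrix.range_empty, Set.union_empty,
      Set.singleton_union] at this
    rw [this, hL]; simp

lemma finrank_pair {v w : V} (h : LinearIndependent F ![v, w]) :
    finrank F (Submodule.span F {v, w}) = 2 := by
  have := finrank_span_eq_card h
  rw [Matrix.range_cons, Matrix.range_cons, Matrix.range_empty, Set.union_empty,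
    Set.singleton_union] at this
  rw [this]; simp

lemma exists_comb [FiniteDimensional F V] {L : Submodule F V} (hL : finrank F L = 2) {v w : V}
    (hv : v ∈ L) (hw : w ∈ L) (h : LinearIndependent F ![v, w]) {x : V} (hx : x ∈ L) :
    ∃ a b : F, x = a • v + b • w := by
  rw [← span_pair_eq hL hv hw h, Submodule.mem_span_pair] at hx
  obtain ⟨a, b, h⟩ := hx
  exact ⟨a, b, h.symm⟩

lemma exists_second [FiniteDimensional F V] {L : Submodule F V} (hL : finrank F L = 2) {v : V}
    (hv : v ∈ L) (hv0 : v ≠ 0) : ∃ w ∈ L, LinearIndependent F ![v, w] := by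
  have h1 : ¬ L ≤ Submodule.span F {v} := by
    intro h
    have h1 := Submodule.finrank_mono h
    rw [hL, finrank_span_singleton hv0] at h1
    omega
  obtain ⟨w, hw, hw'⟩ := SetLike.not_le_iff_exists.1 h1
  refine ⟨w, hw, ?_⟩
  rw [LinearIndependent.pair_iff' hv0]
  intro a ha
  exact hw' (Submodule.mem_span_singleton.mpr ⟨a, ha⟩)

lemma exists_pair [FiniteDimensional F V] {L : Submodule F V} (hL : finrank F L = 2) :
    ∃ v ∈ L, ∃ w ∈ L, LinearIndependent F ![v, w] := by
  have : L ≠ ⊥ := by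
    rintro rfl
    simp at hL
  obtain ⟨v, hv, hv0⟩ := Submodule.exists_mem_ne_zero_of_ne_bot this
  obtain ⟨w, hw, h⟩ := exists_second hL hv hv0
  exact ⟨v, hv, w, hw, h⟩

lemma indep_of_not_mem {v x : V} (hv : v ≠ 0) (hx : x ∉ Submodule.span F {v}) :
    LinearIndependent F ![v, x] := by
  rw [LinearIndependent.pair_iff' hv]
  intro a ha
  exact hx (Submodule.mem_span_singleton.mpr ⟨a, ha⟩)

lemma not_mem_of_indep {v x : V} (h : LinearIndependent F ![v, x]) :
    x ∉ Submodule.span F {v} := by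
  intro hx
  obtain ⟨a, ha⟩ := Submodule.mem_span_singleton.mp hx
  rw [LinearIndependent.pair_iff] at h
  have := h a (-1) (by rw [ha]; module)
  exact one_ne_zero (neg_eq_zero.1 this.2)

/-- `G` is transitive on two-dimensional subspaces. -/
lemma line_trans [FiniteDimensional F V] (hG : TwoTrans G) {L L' : Submodule F V}
    (hL : finrank F L = 2) (hL' : finrank F L' = 2) :
    ∃ k ∈ G, ∀ x, k x ∈ L' ↔ x ∈ L := by
  obtain ⟨v, hv, w, hw, h⟩ := exists_pair hL
  obtain ⟨v', hv', w', hw', h'⟩ := exists_pair hL'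
  obtain ⟨k, hk, hkv, c, hc, hkw⟩ := hG.trans v w v' w' h h'
  refine ⟨k, hk, ?_⟩
  have hle : L.map (k : V →ₗ[F] V) ≤ L' := by
    rintro _ ⟨x, hx, rfl⟩
    obtain ⟨a, b, rfl⟩ := exists_comb hL hv hw h hx
    simp only [LinearEquiv.coe_coe, map_add, map_smul, hkv, hkw]
    exact L'.add_mem (L'.smul_mem _ hv') (L'.smul_mem _ (L'.smul_mem _ hw'))
  have heq : L.map (k : V →ₗ[F] V) = L' :=
    Submodule.eq_of_le_of_finrank_eq hle (by rw [LinearEquiv.finrank_map_eq, hL, hL'])
  intro x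
  rw [← heq]
  constructor
  · rintro ⟨y, hy, hyx⟩
    have : y = x := k.injective hyx
    rwa [← this]
  · intro hx
    exact ⟨x, hx, rfl⟩

lemma inv_mem_of [FiniteDimensional F V] {L : Submodule F V} {e : V ≃ₗ[F] V}
    (h : ∀ x ∈ L, e x ∈ L) {x : V} (hx : x ∈ L) : e⁻¹ x ∈ L := by
  have hle : L.map (e : V →ₗ[F] V) ≤ L := by
    rintro _ ⟨x, hx, rfl⟩
    exact h x hx
  have heq : L.map (e : V →ₗ[F] V) = L :=
    Submodule.eq_of_le_of_finrank_eq hle (LinearEquiv.finrank_map_eq _ _)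
  rw [← heq] at hx
  obtain ⟨y, hy, rfl⟩ := hx
  have : e⁻¹ ((e : V →ₗ[F] V) y) = y := inv_apply e y
  rw [this]
  exact hy

/-- the diagonal element on a line -/
lemma exists_diag (hG : TwoTrans G) {v w : V} (h : LinearIndependent F ![v, w]) {s : F}
    (hs : s ≠ 0) : ∃ k ∈ G, k v = s • v ∧ k w = s⁻¹ • w := by
  obtain ⟨u1, hu1, a1, a2⟩ := exists_unip hG h s
  obtain ⟨l1, hl1, b1, b2⟩ := exists_unip hG (indep_swap h) (-s⁻¹)
  obtain ⟨u2, hu2, c1, c2⟩ := exists_unip hG h (-1)
  obtain ⟨l2, hl2, d1, d2⟩ := exists_unip hG (indep_swap h) 1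
  refine ⟨u1 * l1 * u1 * u2 * l2 * u2, ?_, ?_, ?_⟩
  · exact G.mul_mem (G.mul_mem (G.mul_mem (G.mul_mem (G.mul_mem hu1 hl1) hu1) hu2) hl2) hu2
  · simp only [apply_mul, map_add, map_smul, a1, a2, b1, b2, c1, c2, d1, d2]
    have : s * s⁻¹ = 1 := mul_inv_cancel₀ hs
    match_scalars
    · linear_combination (-s) * this
    · linear_combination -this
  · simp only [apply_mul, map_add, map_smul, a1, a2, b1, b2, c1, c2, d1, d2]
    have : s * s⁻¹ = 1 := mul_inv_cancel₀ hs
    match_scalars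
    · ring
    · linear_combination this

/-! ### the group of elements trivial on the quotient by a line -/

/-- `g ∈ G` acts trivially on `V / L` -/
def QT (G : Subgroup (V ≃ₗ[F] V)) (L : Submodule F V) : Subgroup (V ≃ₗ[F] V) where
  carrier := {g | g ∈ G ∧ ∀ x, g x - x ∈ L}
  mul_mem' := by
    rintro a b ⟨ha, ha'⟩ ⟨hb, hb'⟩
    refine ⟨G.mul_mem ha hb, fun x => ?_⟩
    have := L.add_mem (ha' (b x)) (hb' x)
    rwa [sub_add_sub_cancel] at this
  one_mem' := ⟨G.one_mem, fun x => by simp⟩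
  inv_mem' := by
    rintro a ⟨ha, ha'⟩
    refine ⟨G.inv_mem ha, fun x => ?_⟩
    have := L.neg_mem (ha' (a⁻¹ x))
    rwa [apply_inv, neg_sub] at this

lemma QT_conj {L : Submodule F V} {g e : V ≃ₗ[F] V} (hg : g ∈ QT G L) (he : e ∈ G)
    (heL : ∀ x ∈ L, e x ∈ L) : e * g * e⁻¹ ∈ QT G L := by
  refine ⟨G.mul_mem (G.mul_mem he hg.1) (G.inv_mem he), fun x => ?_⟩
  have h1 : (e * g * e⁻¹) x - x = e (g (e⁻¹ x) - e⁻¹ x) := by
    rw [map_sub, apply_inv]; rfl
  rw [h1]
  exact heL _ (hg.2 _)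

lemma QT_mem_line {L : Submodule F V} {g : V ≃ₗ[F] V} (hg : g ∈ QT G L) {x : V} (hx : x ∈ L) :
    g x ∈ L := by
  have := L.add_mem (hg.2 x) hx
  rwa [sub_add_cancel] at this

/-- An element which is trivial on `V / L` and not scalar on the line `L` produces one which is a
nontrivial transvection on `L`. -/
lemma exists_transv [FiniteDimensional F V] (hG : TwoTrans G) (hF : ∃ s : F, s ≠ 0 ∧ s ^ 4 ≠ 1)
    {L : Submodule F V} (hL : finrank F L = 2) {k : V ≃ₗ[F] V} (hk : k ∈ QT G L) {v : V}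
    (hv : v ∈ L) (hind : LinearIndependent F ![v, k v]) :
    ∃ k' ∈ QT G L, ∃ v ∈ L, ∃ w ∈ L, ∃ c : F, c ≠ 0 ∧ LinearIndependent F ![v, w] ∧
      k' v = v ∧ k' w = w + c • v := by
  set w := k v with hwdef
  have hw : w ∈ L := QT_mem_line hk hv
  obtain ⟨a, t, hkw⟩ := exists_comb hL hv hw hind (QT_mem_line hk hw)
  obtain ⟨s, hs, hs4⟩ := hF
  obtain ⟨e, he, hev, hew⟩ := exists_diag hG hind hs
  obtain ⟨u, hu, huv, huw⟩ := exists_unip hG hind 1
  have heL : ∀ x ∈ L, e x ∈ L := by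
    intro x hx
    obtain ⟨α, β, rfl⟩ := exists_comb hL hv hw hind hx
    simp only [map_add, map_smul, hev, hew]
    exact L.add_mem (L.smul_mem _ (L.smul_mem _ hv)) (L.smul_mem _ (L.smul_mem _ hw))
  have huL : ∀ x ∈ L, u x ∈ L := by
    intro x hx
    obtain ⟨α, β, rfl⟩ := exists_comb hL hv hw hind hx
    simp only [map_add, map_smul, huv, huw]
    exact L.add_mem (L.smul_mem _ hv) (L.smul_mem _ (L.add_mem hw (L.smul_mem _ hv)))
  have hs' : s * s⁻¹ = 1 := mul_inv_cancel₀ hs
  -- the element `R`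
  set R := k⁻¹ * (e * k * e⁻¹) with hR
  have hRm : R ∈ QT G L := (QT G L).mul_mem ((QT G L).inv_mem hk) (QT_conj hk he heL)
  have hR1 : ∀ x, k (R (e x)) = e (k x) := by
    intro x
    rw [hR, apply_mul, apply_inv]
    exact congrArg (fun y => e (k y)) (inv_apply e x)
  have hRv : R v = (s⁻¹ * s⁻¹) • v := by
    apply k.injective
    have h1 := hR1 v
    rw [hev, map_smul, map_smul, ← hwdef, hew] at h1
    have h2 : k (R v) = s⁻¹ • (s • k (R v)) := by rw [smul_smul, mul_comm, hs', one_smul]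
    rw [h2, h1, map_smul, ← hwdef, smul_smul]
  have hRw : R w = (s ^ 2) • w + (t * (1 - s ^ 2)) • v := by
    apply k.injective
    have h1 := hR1 w
    rw [hew, map_smul, map_smul, hkw, map_add, map_smul, map_smul, hev, hew] at h1
    have h2 : k (R w) = s • (s⁻¹ • k (R w)) := by rw [smul_smul, hs', one_smul]
    rw [h2, h1, map_add, map_smul, map_smul, hkw, ← hwdef]
    match_scalars
    · ring
    · linear_combination t * hs'
  -- the commutator
  set k' := (u * R) * (R * u)⁻¹ with hk'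
  have hk'm : k' ∈ QT G L := by
    have : k' = (u * R * u⁻¹) * R⁻¹ := by rw [hk']; group
    rw [this]
    exact (QT G L).mul_mem (QT_conj hRm hu huL) ((QT G L).inv_mem hRm)
  have hk1 : ∀ x, k' (R (u x)) = u (R x) := by
    intro x
    rw [hk']
    exact mul_inv_apply_of (g := u * R) (h := R * u) x
  have hss : s⁻¹ * s⁻¹ ≠ 0 := mul_ne_zero (inv_ne_zero hs) (inv_ne_zero hs)
  have hk'v : k' v = v := by
    have h1 := hk1 v
    rw [huv, hRv, map_smul, map_smul, huv] at h1
    exact smul_right_injective V hss h1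
  have hk'w : k' w = w + (1 - s⁻¹ ^ 4) • v := by
    have h1 := hk1 w
    rw [huw, map_add, map_smul, hRw, hRv] at h1
    simp only [map_add, map_smul, hk'v, huw, huv] at h1
    have hs2 : s ^ 2 ≠ 0 := pow_ne_zero _ hs
    apply smul_right_injective V hs2
    have h2 : s ^ 2 • k' w = (s ^ 2 • (w + (1 : F) • v) + (t * (1 - s ^ 2)) • v) -
        ((t * (1 - s ^ 2)) • v + (1 : F) • (s⁻¹ * s⁻¹) • v) := by
      rw [← h1]; abel
    show s ^ 2 • k' w = s ^ 2 • (w + (1 - s⁻¹ ^ 4) • v)
    rw [h2]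
    match_scalars
    · ring
    · linear_combination (s⁻¹ ^ 2 + s * s⁻¹ ^ 3) * hs'
  refine ⟨k', hk'm, v, hv, w, hw, _, ?_, hind, hk'v, hk'w⟩
  intro h0
  apply hs4
  have h3 : s⁻¹ ^ 4 = 1 := (sub_eq_zero.1 h0).symm
  have h4 : (s * s⁻¹) ^ 4 = 1 := by rw [hs']; ring
  rw [mul_pow, h3, mul_one] at h4
  exact h4

/-! ### rank considerations -/

lemma ker_eq_of [FiniteDimensional F V] (hP : NoP G) (hd : finrank F V = 4) {L : Submodule F V}
    (hL : finrank F L = 2) {N : V →ₗ[F] V} (hN : In G N) (h0 : N ≠ 0)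
    (hle : L ≤ LinearMap.ker N) :
    LinearMap.ker N = L ∧ finrank F (LinearMap.range N) = 2 := by
  have h1 := LinearMap.finrank_range_add_finrank_ker N
  have h2 := Submodule.finrank_mono hle
  have h3 : ¬ finrank F (LinearMap.range N) ≤ 1 := fun h => h0 (hP N hN h)
  refine ⟨(Submodule.eq_of_le_of_finrank_eq hle (by omega)).symm, by omega⟩

lemma range_eq_of [FiniteDimensional F V] (hP : NoP G) (hd : finrank F V = 4)
    {L : Submodule F V}
    (hL : finrank F L = 2) {N : V →ₗ[F] V} (hN : In G N) (h0 : N ≠ 0)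
    (hle : LinearMap.range N ≤ L) :
    LinearMap.range N = L ∧ finrank F (LinearMap.ker N) = 2 := by
  have h1 := LinearMap.finrank_range_add_finrank_ker N
  have h2 := Submodule.finrank_mono hle
  have h3 : ¬ finrank F (LinearMap.range N) ≤ 1 := fun h => h0 (hP N hN h)
  refine ⟨Submodule.eq_of_le_of_finrank_eq hle (by omega), by omega⟩

/-- `1 + N` is an elation-like element of the line `L`: trivial on `L` and on `V / L`. -/
def UT (G : Subgroup (V ≃ₗ[F] V)) (L : Submodule F V) (N : V →ₗ[F] V) : Prop :=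
  In G N ∧ LinearMap.range N ≤ L ∧ L ≤ LinearMap.ker N

/-- Elements trivial on `V / L` are scalar on `L`. -/
theorem scalar_of_quot [FiniteDimensional F V] (hP : NoP G) (hd : finrank F V = 4)
    (hG : TwoTrans G) (hF : ∃ s : F, s ≠ 0 ∧ s ^ 4 ≠ 1) {L : Submodule F V}
    (hL : finrank F L = 2) {g : V ≃ₗ[F] V} (hg : g ∈ QT G L) : ∃ μ : F, ∀ x ∈ L, g x = μ • x := by
  by_contra hcon
  push Not at hcon
  -- a vector moved out of its span
  obtain ⟨v, hv, hind⟩ : ∃ v ∈ L, LinearIndependent F ![v, g v] := by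
    by_contra hno
    push Not at hno
    have h1 : ∀ v ∈ L, v ≠ 0 → ∃ a : F, g v = a • v := by
      intro v hv hv0
      by_contra h
      push Not at h
      apply hno v hv
      rw [LinearIndependent.pair_iff' hv0]
      intro a ha
      exact h a ha.symm
    obtain ⟨v, hv, w, hw, h⟩ := exists_pair hL
    have hvw0 : v + w ≠ 0 := by
      intro h0
      rw [LinearIndependent.pair_iff] at h
      have := h 1 1 (by rw [one_smul, one_smul]; exact h0)
      exact one_ne_zero this.1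
    obtain ⟨a, ha⟩ := h1 v hv (h.ne_zero 0)
    obtain ⟨b, hb⟩ := h1 w hw (h.ne_zero 1)
    obtain ⟨c, hc⟩ := h1 (v + w) (L.add_mem hv hw) hvw0
    rw [map_add, ha, hb] at hc
    rw [LinearIndependent.pair_iff] at h
    obtain ⟨h2, h3⟩ := h (a - c) (b - c) (by
      have : a • v + b • w - c • (v + w) = 0 := sub_eq_zero.2 hc
      rw [← this]; module)
    obtain ⟨x, hx, hx2⟩ := hcon a
    apply hx2
    obtain ⟨α, β, rfl⟩ := exists_comb hL hv hw (by rw [LinearIndependent.pair_iff]; exact h) hx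
    have hba : b = a := by
      rw [sub_eq_zero] at h2 h3; rw [h3, h2]
    rw [map_add, map_smul, map_smul, ha, hb, hba]
    module
  obtain ⟨k', hk', v, hv, w, hw, c, hc, hind, hkv, hkw⟩ := exists_transv hG hF hL hg hv hind
  set N' : V →ₗ[F] V := (k' : V →ₗ[F] V) - LinearMap.id with hN'
  have hN'a : ∀ x, N' x = k' x - x := fun x => rfl
  have hkN : ∀ x, k' x = x + N' x := fun x => by rw [hN'a]; abel
  have hIn : In G N' := ⟨k', hk'.1, hkN⟩
  have hNv : N' v = 0 := by rw [hN'a, hkv, sub_self]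
  have hNw : N' w = c • v := by rw [hN'a, hkw]; abel
  have hv0 : v ≠ 0 := hind.ne_zero 0
  have hN0 : N' ≠ 0 := by
    intro h
    rw [h] at hNw
    exact smul_ne_zero hc hv0 hNw.symm
  have hrange : LinearMap.range N' ≤ L := by
    rintro _ ⟨x, rfl⟩
    exact hk'.2 x
  obtain ⟨hr, hk2⟩ := range_eq_of hP hd hL hIn hN0 hrange
  by_cases hU : ∃ T : V →ₗ[F] V, T ≠ 0 ∧ UT G L T
  · obtain ⟨T, hT0, ⟨u, hu, huT⟩, hT1, hT2⟩ := hU
    obtain ⟨hTr, -⟩ := range_eq_of hP hd hL ⟨u, hu, huT⟩ hT0 hT1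
    have hTL : ∀ x ∈ L, T x = 0 := fun x hx => LinearMap.mem_ker.1 (hT2 hx)
    have hTin : ∀ x, T x ∈ L := fun x => hT1 ⟨x, rfl⟩
    have hIn2 : In G (N' ∘ₗ T) := by
      refine ⟨(k' * u) * (u * k')⁻¹, G.mul_mem (G.mul_mem hk'.1 hu)
        (G.inv_mem (G.mul_mem hu hk'.1)), fun z => ?_⟩
      obtain ⟨x, rfl⟩ := (u * k').surjective z
      rw [mul_inv_apply_of]
      have h1 : T (N' x) = 0 := hTL _ (hk'.2 x)
      have h2 : T (T x) = 0 := hTL _ (hTin x)
      simp only [apply_mul, huT, hkN, map_add, LinearMap.comp_apply, h1, h2, add_zero, map_zero]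
      abel
    have hrk : finrank F (LinearMap.range (N' ∘ₗ T)) ≤ 1 := by
      have hle : LinearMap.range (N' ∘ₗ T) ≤ Submodule.span F {v} := by
        rintro _ ⟨x, rfl⟩
        obtain ⟨α, β, hαβ⟩ := exists_comb hL hv hw hind (hTin x)
        rw [LinearMap.comp_apply, hαβ, map_add, map_smul, map_smul, hNv, hNw, smul_zero, zero_add,
          smul_smul]
        exact Submodule.mem_span_singleton.mpr ⟨_, rfl⟩
      have := Submodule.finrank_mono hle
      rwa [finrank_span_singleton hv0] at this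
    have h0 := hP _ hIn2 hrk
    rw [← hTr] at hw
    obtain ⟨x, hx⟩ := hw
    have := congrArg (fun M : V →ₗ[F] V => M x) h0
    simp only [LinearMap.comp_apply, hx, hNw, LinearMap.zero_apply] at this
    exact smul_ne_zero hc hv0 this
  · push Not at hU
    have claim : ∀ M : V →ₗ[F] V, In G M → M ≠ 0 → L ≤ LinearMap.ker M →
        LinearMap.range M = LinearMap.ker N' := by
      rintro M ⟨h, hh, hhM⟩ hM0 hML
      obtain ⟨-, hMr⟩ := ker_eq_of hP hd hL ⟨h, hh, hhM⟩ hM0 hML
      have hM1 : ∀ x ∈ L, M x = 0 := fun x hx => LinearMap.mem_ker.1 (hML hx)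
      set q := h * k' with hq
      set Q : V →ₗ[F] V := N' ∘ₗ M ∘ₗ ((q⁻¹ : V ≃ₗ[F] V) : V →ₗ[F] V) with hQ
      have hqL : ∀ x ∈ L, q x ∈ L := by
        intro x hx
        have h1 : k' x ∈ L := QT_mem_line hk' hx
        rw [hq, apply_mul, hhM, hM1 _ h1, add_zero]
        exact h1
      have hQU : UT G L Q := by
        refine ⟨⟨(k' * h) * (h * k')⁻¹, G.mul_mem (G.mul_mem hk'.1 hh)
          (G.inv_mem (G.mul_mem hh hk'.1)), fun z => ?_⟩, ?_, ?_⟩
        · obtain ⟨x, rfl⟩ := (h * k').surjective z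
          rw [mul_inv_apply_of]
          have h1 : M (N' x) = 0 := hM1 _ (hk'.2 x)
          have h2 : Q ((h * k') x) = N' (M x) := by
            rw [hQ]
            simp only [LinearMap.comp_apply, LinearEquiv.coe_coe]
            rw [hq, inv_apply]
          rw [h2]
          simp only [apply_mul, hhM, hkN, map_add, h1, add_zero]
          abel
        · rintro _ ⟨x, rfl⟩
          exact hk'.2 _
        · intro x hx
          rw [LinearMap.mem_ker, hQ]
          simp only [LinearMap.comp_apply, LinearEquiv.coe_coe]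
          rw [hM1 _ (inv_mem_of hqL hx), map_zero]
      have hQ0 : Q = 0 := by
        by_contra h0
        exact hU Q h0 hQU
      apply Submodule.eq_of_le_of_finrank_eq _ (by rw [hMr, hk2])
      rintro _ ⟨x, rfl⟩
      rw [LinearMap.mem_ker]
      have := congrArg (fun M : V →ₗ[F] V => M (q x)) hQ0
      rw [hQ] at this
      simp only [LinearMap.comp_apply, LinearEquiv.coe_coe, LinearMap.zero_apply] at this
      rwa [inv_apply] at this
    -- an element fixing `L` pointwise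
    obtain ⟨k0, hk0, hk0L⟩ := line_trans hG hk2 hL
    set M : V →ₗ[F] V := (k0 : V →ₗ[F] V) ∘ₗ N' ∘ₗ ((k0⁻¹ : V ≃ₗ[F] V) : V →ₗ[F] V) with hM
    have hMa : ∀ x, M (k0 x) = k0 (N' x) := by
      intro x
      rw [hM]
      simp only [LinearMap.comp_apply, LinearEquiv.coe_coe]
      rw [inv_apply]
    have hMIn : In G M := by
      refine ⟨k0 * k' * k0⁻¹, G.mul_mem (G.mul_mem hk0 hk'.1) (G.inv_mem hk0), fun z => ?_⟩
      obtain ⟨x, rfl⟩ := k0.surjective z
      rw [hMa, apply_mul, inv_apply, apply_mul, hkN, map_add]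
    have hM0 : M ≠ 0 := by
      intro h
      apply hN0
      ext x
      have := hMa x
      rw [h, LinearMap.zero_apply] at this
      rw [LinearMap.zero_apply]
      exact (k0.map_eq_zero_iff).1 this.symm
    have hML : L ≤ LinearMap.ker M := by
      intro x hx
      obtain ⟨y, rfl⟩ := k0.surjective x
      rw [LinearMap.mem_ker, hMa]
      have := (hk0L y).1 hx
      rw [LinearMap.mem_ker.1 this, map_zero]
    have hr1 := claim M hMIn hM0 hML
    -- the swap
    obtain ⟨g, hg, hgv, c', hc', hgw⟩ := hG.trans v w w v hind (indep_swap hind)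
    have hgL : ∀ x ∈ L, g x ∈ L := by
      intro x hx
      obtain ⟨α, β, rfl⟩ := exists_comb hL hv hw hind hx
      simp only [map_add, map_smul, hgv, hgw]
      exact L.add_mem (L.smul_mem _ hw) (L.smul_mem _ (L.smul_mem _ hv))
    set M2 : V →ₗ[F] V := (g : V →ₗ[F] V) ∘ₗ M ∘ₗ ((g⁻¹ : V ≃ₗ[F] V) : V →ₗ[F] V) with hM2
    have hM2a : ∀ x, M2 (g x) = g (M x) := by
      intro x
      rw [hM2]
      simp only [LinearMap.comp_apply, LinearEquiv.coe_coe]
      rw [inv_apply]
    have hM2In : In G M2 := by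
      obtain ⟨h, hh, hhM⟩ := hMIn
      refine ⟨g * h * g⁻¹, G.mul_mem (G.mul_mem hg hh) (G.inv_mem hg), fun z => ?_⟩
      obtain ⟨x, rfl⟩ := g.surjective z
      rw [hM2a, apply_mul, inv_apply, apply_mul, hhM, map_add]
    have hM20 : M2 ≠ 0 := by
      intro h
      apply hM0
      ext x
      have := hM2a x
      rw [h, LinearMap.zero_apply] at this
      rw [LinearMap.zero_apply]
      exact (g.map_eq_zero_iff).1 this.symm
    have hM2L : L ≤ LinearMap.ker M2 := by
      intro x hx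
      have h1 := hM2a (g⁻¹ x)
      rw [apply_inv] at h1
      rw [LinearMap.mem_ker, h1, LinearMap.mem_ker.1 (hML (inv_mem_of hgL hx)), map_zero]
    have hr2 := claim M2 hM2In hM20 hM2L
    have h5 : v ∈ LinearMap.range M := by rw [hr1]; exact hNv
    obtain ⟨x, hx⟩ := h5
    have h6 : w ∈ LinearMap.range M2 := ⟨g x, by rw [hM2a, hx, hgv]⟩
    rw [hr2, LinearMap.mem_ker, hNw] at h6
    exact smul_ne_zero hc hv0 h6

/-- Elements trivial on `L` are scalar on `V / L`. -/
theorem quot_of_scalar [FiniteDimensional F V] (hP : NoP G) (hd : finrank F V = 4)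
    (hG : TwoTrans G) (hF : ∃ s : F, s ≠ 0 ∧ s ^ 4 ≠ 1) {L : Submodule F V}
    (hL : finrank F L = 2) {g : V ≃ₗ[F] V} (hg : g ∈ G) (h1 : ∀ x ∈ L, g x = x) :
    ∃ μ : F, ∀ x, g x - μ • x ∈ L := by
  set N : V →ₗ[F] V := (g : V →ₗ[F] V) - LinearMap.id with hN
  have hNa : ∀ x, N x = g x - x := fun x => rfl
  have hgN : ∀ x, g x = x + N x := fun x => by rw [hNa]; abel
  by_cases hN0 : N = 0
  · exact ⟨1, fun x => by rw [hgN, hN0]; simp⟩
  have hLN : L ≤ LinearMap.ker N := fun x hx => by rw [LinearMap.mem_ker, hNa, h1 x hx, sub_self]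
  obtain ⟨hk, hr⟩ := ker_eq_of hP hd hL ⟨g, hg, hgN⟩ hN0 hLN
  obtain ⟨μ, hμ⟩ := scalar_of_quot hP hd hG hF hr (g := g) ⟨hg, fun x => ⟨x, rfl⟩⟩
  refine ⟨μ, fun x => ?_⟩
  rw [← hk, LinearMap.mem_ker, map_sub, map_smul]
  have h2 : N (g x) = μ • N x := by
    rw [hNa, ← map_sub, ← hNa]
    exact hμ _ ⟨x, rfl⟩
  rw [h2, sub_self]

end Pool.Agent.H95.DT
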