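import Pool.Agent.H95.DT.Local
import Pool.Agent.H95.DT.Scalar

/-!
# Block matrices of the elements preserving a line
-/

namespace Pool.Agent.H95.DT

open Module Pool.Agent.H20.ProjTwoTrans Matrix

variable {F V : Type*} [Field F] [AddCommGroup V] [Module F V]
variable {G : Subgroup (V ≃ₗ[F] V)}

lemma two_cases (i : Fin 2) : i = 0 ∨ i = 1 := by fin_cases i <;> simp

/-! ### elements of determinant one -/

lemma exists_sq (hF : ∃ s : F, s ≠ 0 ∧ s ^ 4 ≠ 1) : ∃ s : F, s ≠ 0 ∧ s ^ 2 - 1 ≠ 0 := by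
  obtain ⟨s, hs, h4⟩ := hF
  refine ⟨s, hs, fun h => h4 ?_⟩
  linear_combination (s ^ 2 + 1) * h

lemma det_comm (a b : V ≃ₗ[F] V) : LinearEquiv.det ((a * b) * (b * a)⁻¹) = 1 := by
  rw [map_mul, map_inv, map_mul, map_mul, mul_comm (LinearEquiv.det b)]
  exact mul_inv_cancel _

lemma exists_unip1 (hG : TwoTrans G) (hF : ∃ s : F, s ≠ 0 ∧ s ^ 4 ≠ 1) {v w : V}
    (h : LinearIndependent F ![v, w]) (b : F) :
    ∃ k ∈ G, LinearEquiv.det k = 1 ∧ k v = v ∧ k w = w + b • v := by
  obtain ⟨s, hs, hs2⟩ := exists_sq hF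
  obtain ⟨e, he, hev, hew⟩ := exists_diag hG h hs
  obtain ⟨u, hu, huv, huw⟩ := exists_unip hG h (b / (s ^ 2 - 1))
  set c := b / (s ^ 2 - 1) with hc
  have hs' : s * s⁻¹ = 1 := mul_inv_cancel₀ hs
  set k := (e * u) * (u * e)⁻¹ with hk
  have hk1 : ∀ x, k (u (e x)) = e (u x) := by
    intro x
    rw [hk]
    exact mul_inv_apply_of (g := e * u) (h := u * e) x
  have hkv : k v = v := by
    have h1 := hk1 v
    rw [hev, map_smul, huv, map_smul, hev] at h1
    exact smul_right_injective V hs h1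
  refine ⟨k, G.mul_mem (G.mul_mem he hu) (G.inv_mem (G.mul_mem hu he)), det_comm e u, hkv, ?_⟩
  have h1 := hk1 w
  rw [hew, map_smul, huw, map_add, hew] at h1
  simp only [map_smul, map_add, hkv, hev] at h1
  apply smul_right_injective V (inv_ne_zero hs)
  have h2 : s⁻¹ • k w = (s⁻¹ • w + c • s • v) - s⁻¹ • (c • v) := by
    rw [← h1]; module
  show s⁻¹ • k w = s⁻¹ • (w + b • v)
  rw [h2]
  have hb : b = c * (s ^ 2 - 1) := by rw [hc]; field_simp
  rw [hb]
  match_scalars
  · ring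
  · linear_combination (-c * s) * hs'

lemma exists_diag1 (hG : TwoTrans G) (hF : ∃ s : F, s ≠ 0 ∧ s ^ 4 ≠ 1) {v w : V}
    (h : LinearIndependent F ![v, w]) {s : F}
    (hs : s ≠ 0) : ∃ k ∈ G, LinearEquiv.det k = 1 ∧ k v = s • v ∧ k w = s⁻¹ • w := by
  obtain ⟨u1, hu1, e1, a1, a2⟩ := exists_unip1 hG hF h s
  obtain ⟨l1, hl1, e2, b1, b2⟩ := exists_unip1 hG hF (indep_swap h) (-s⁻¹)
  obtain ⟨u2, hu2, e3, c1, c2⟩ := exists_unip1 hG hF h (-1)
  obtain ⟨l2, hl2, e4, d1, d2⟩ := exists_unip1 hG hF (indep_swap h) 1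
  refine ⟨u1 * l1 * u1 * u2 * l2 * u2, ?_, ?_, ?_, ?_⟩
  · exact G.mul_mem (G.mul_mem (G.mul_mem (G.mul_mem (G.mul_mem hu1 hl1) hu1) hu2) hl2) hu2
  · simp only [map_mul, e1, e2, e3, e4, mul_one]
  · simp only [apply_mul, map_add, map_smul, a1, a2, b1, b2, c1, c2, d1, d2]
    have : s * s⁻¹ = 1 := mul_inv_cancel₀ hs
    match_scalars
    · linear_combination (-s) * this
    · linear_combination -this
  · simp only [apply_mul, map_add, map_smul, a1, a2, b1, b2, c1, c2, d1, d2]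
    have : s * s⁻¹ = 1 := mul_inv_cancel₀ hs
    match_scalars
    · ring
    · linear_combination this

/-! ### frames -/

variable (b : Basis (Fin 2 ⊕ Fin 2) F V)

/-- the block matrix with blocks `A, C, 0, B` belongs to `G` -/
def Blk (G : Subgroup (V ≃ₗ[F] V)) (b : Basis (Fin 2 ⊕ Fin 2) F V)
    (A C B : Matrix (Fin 2) (Fin 2) F) : Prop :=
  ∃ g ∈ G, LinearMap.toMatrix b b (g : V →ₗ[F] V) = Matrix.fromBlocks A C 0 B

/-- the line of a frame -/
def Ln : Submodule F V := Submodule.span F {b (Sum.inl 0), b (Sum.inl 1)}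

lemma expand (x : V) : x = b.repr x (Sum.inl 0) • b (Sum.inl 0) +
    b.repr x (Sum.inl 1) • b (Sum.inl 1) +
    (b.repr x (Sum.inr 0) • b (Sum.inr 0) + b.repr x (Sum.inr 1) • b (Sum.inr 1)) := by
  conv_lhs => rw [← b.sum_repr x]
  rw [Fintype.sum_sum_type, Fin.sum_univ_two, Fin.sum_univ_two]

lemma mem_Ln {x : V} : x ∈ Ln b ↔ b.repr x (Sum.inr 0) = 0 ∧ b.repr x (Sum.inr 1) = 0 := by
  unfold Ln
  rw [Submodule.mem_span_pair]
  constructor
  · rintro ⟨s, t, rfl⟩
    constructor <;> simp [Finsupp.single_apply]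
  · rintro ⟨h0, h1⟩
    refine ⟨b.repr x (Sum.inl 0), b.repr x (Sum.inl 1), ?_⟩
    conv_rhs => rw [expand b x, h0, h1]
    rw [zero_smul, zero_smul, add_zero, add_zero]

lemma indep_Ln : LinearIndependent F ![b (Sum.inl 0), b (Sum.inl 1)] := by
  rw [LinearIndependent.pair_iff]
  intro s t h
  have h0 := congrArg (fun x => b.repr x (Sum.inl 0)) h
  have h1 := congrArg (fun x => b.repr x (Sum.inl 1)) h
  simp [Finsupp.single_apply] at h0 h1
  exact ⟨h0, h1⟩

lemma finrank_Ln : finrank F (Ln b) = 2 := finrank_pair (indep_Ln b)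

lemma repr_inr {g : V ≃ₗ[F] V} {A C B : Matrix (Fin 2) (Fin 2) F}
    (hg : LinearMap.toMatrix b b (g : V →ₗ[F] V) = Matrix.fromBlocks A C 0 B) (x : V)
    (i : Fin 2) : b.repr (g x) (Sum.inr i) =
      B i 0 * b.repr x (Sum.inr 0) + B i 1 * b.repr x (Sum.inr 1) := by
  have h := LinearMap.toMatrix_mulVec_repr b b (g : V →ₗ[F] V) x
  rw [hg] at h
  have h1 := congrFun h (Sum.inr i)
  rw [LinearEquiv.coe_coe] at h1
  rw [← h1]
  simp [Matrix.mulVec, dotProduct, Fintype.sum_sum_type, Fin.sum_univ_two]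

lemma repr_inl {g : V ≃ₗ[F] V} {A C B : Matrix (Fin 2) (Fin 2) F}
    (hg : LinearMap.toMatrix b b (g : V →ₗ[F] V) = Matrix.fromBlocks A C 0 B) (x : V)
    (i : Fin 2) : b.repr (g x) (Sum.inl i) =
      (A i 0 * b.repr x (Sum.inl 0) + A i 1 * b.repr x (Sum.inl 1)) +
      (C i 0 * b.repr x (Sum.inr 0) + C i 1 * b.repr x (Sum.inr 1)) := by
  have h := LinearMap.toMatrix_mulVec_repr b b (g : V →ₗ[F] V) x
  rw [hg] at h
  have h1 := congrFun h (Sum.inl i)
  rw [LinearEquiv.coe_coe] at h1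
  rw [← h1]
  simp [Matrix.mulVec, dotProduct, Fintype.sum_sum_type, Fin.sum_univ_two]

/-- block form of an element whose action on the line is given -/
lemma exists_blocks (g : V ≃ₗ[F] V) (A : Matrix (Fin 2) (Fin 2) F)
    (h : ∀ j, g (b (Sum.inl j)) = A 0 j • b (Sum.inl 0) + A 1 j • b (Sum.inl 1)) :
    ∃ C B, LinearMap.toMatrix b b (g : V →ₗ[F] V) = Matrix.fromBlocks A C 0 B := by
  set M := LinearMap.toMatrix b b (g : V →ₗ[F] V) with hM
  refine ⟨M.toBlocks₁₂, M.toBlocks₂₂, ?_⟩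
  have h11 : M.toBlocks₁₁ = A := by
    ext i j
    rw [Matrix.toBlocks₁₁, Matrix.of_apply, hM, LinearMap.toMatrix_apply, LinearEquiv.coe_coe, h j]
    fin_cases i <;> simp [Finsupp.single_apply]
  have h21 : M.toBlocks₂₁ = 0 := by
    ext i j
    rw [Matrix.toBlocks₂₁, Matrix.of_apply, hM, LinearMap.toMatrix_apply, LinearEquiv.coe_coe, h j]
    simp [Finsupp.single_apply]
  rw [← h11, ← h21]
  exact (Matrix.fromBlocks_toBlocks M).symm

lemma det_blocks {g : V ≃ₗ[F] V} {A C B : Matrix (Fin 2) (Fin 2) F}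
    (hg : LinearMap.toMatrix b b (g : V →ₗ[F] V) = Matrix.fromBlocks A C 0 B) :
    A.det * B.det = (LinearEquiv.det g : F) := by
  rw [← Matrix.det_fromBlocks_zero₂₁ A C B, ← hg, LinearMap.det_toMatrix, LinearEquiv.coe_det]

lemma scalar_matrix {s : F} {z : V ≃ₗ[F] V} (hz : ∀ x, z x = s • x) (g : V ≃ₗ[F] V)
    {A C B : Matrix (Fin 2) (Fin 2) F}
    (hg : LinearMap.toMatrix b b (g : V →ₗ[F] V) = Matrix.fromBlocks A C 0 B) :
    LinearMap.toMatrix b b ((z * g : V ≃ₗ[F] V) : V →ₗ[F] V) =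
      Matrix.fromBlocks (s • A) (s • C) 0 (s • B) := by
  have h1 : ((z * g : V ≃ₗ[F] V) : V →ₗ[F] V) = s • (g : V →ₗ[F] V) := by
    ext x
    simp [hz]
  rw [h1, map_smul, hg, Matrix.fromBlocks_smul, smul_zero]

/-- The elements of `G` preserving the line of the frame form a system of block matrices. -/
theorem locSys [FiniteDimensional F V] (hP : NoP G) (hd : finrank F V = 4)
    (hG : TwoTrans G) (hF : ∃ s : F, s ≠ 0 ∧ s ^ 4 ≠ 1) : LocSys (Blk G b) := by
  have hmul : ∀ g h : V ≃ₗ[F] V, LinearMap.toMatrix b b ((g * h : V ≃ₗ[F] V) : V →ₗ[F] V) =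
      LinearMap.toMatrix b b (g : V →ₗ[F] V) * LinearMap.toMatrix b b (h : V →ₗ[F] V) := by
    intro g h
    rw [← LinearMap.toMatrix_mul]
    rfl
  have hdetne : ∀ {A C B : Matrix (Fin 2) (Fin 2) F}, Blk G b A C B → A.det ≠ 0 ∧ B.det ≠ 0 := by
    rintro A C B ⟨g, hg, e⟩
    have h1 := det_blocks b e
    have h2 : (LinearEquiv.det g : F) ≠ 0 := (LinearEquiv.det g).ne_zero
    rw [← h1] at h2
    exact ⟨left_ne_zero_of_mul h2, right_ne_zero_of_mul h2⟩
  refine ⟨?_, ?_, ?_, ?_, ?_, ?_, ?_⟩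
  · rintro A C B A' C' B' ⟨g, hg, e⟩ ⟨h, hh, e'⟩
    refine ⟨g * h, G.mul_mem hg hh, ?_⟩
    rw [hmul, e, e', Matrix.fromBlocks_multiply]
    simp
  · rintro A C B A' C' B' A'' B'' ⟨g, hg, e⟩ ⟨h, hh, e'⟩ hA hB
    obtain ⟨hA'd, hB'd⟩ := hdetne ⟨h, hh, e'⟩
    set M := LinearMap.toMatrix b b ((g * h⁻¹ : V ≃ₗ[F] V) : V →ₗ[F] V) with hM
    have h1 : M * Matrix.fromBlocks A' C' 0 B' = Matrix.fromBlocks A C 0 B := by
      rw [← e', ← e, hM, ← hmul]
      have : g * h⁻¹ * h = g := by group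
      rw [this]
    rw [← Matrix.fromBlocks_toBlocks M, Matrix.fromBlocks_multiply] at h1
    rw [Matrix.fromBlocks_inj] at h1
    obtain ⟨h11, h12, h21, h22⟩ := h1
    simp only [mul_zero, add_zero] at h11 h12 h21 h22
    have hu : IsUnit A'.det := isUnit_iff_ne_zero.2 hA'd
    have hu2 : IsUnit B'.det := isUnit_iff_ne_zero.2 hB'd
    have k11 : M.toBlocks₁₁ = A'' := by
      have : M.toBlocks₁₁ * A' = A'' * A' := by rw [h11, hA]
      have h3 := congrArg (fun X => X * A'⁻¹) this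
      simpa [mul_assoc, Matrix.mul_nonsing_inv _ hu] using h3
    have k21 : M.toBlocks₂₁ = 0 := by
      have h3 := congrArg (fun X => X * A'⁻¹) h21
      simpa [mul_assoc, Matrix.mul_nonsing_inv _ hu] using h3
    have k22 : M.toBlocks₂₂ = B'' := by
      rw [k21, zero_mul, zero_add] at h22
      have : M.toBlocks₂₂ * B' = B'' * B' := by rw [h22, hB]
      have h3 := congrArg (fun X => X * B'⁻¹) this
      simpa [mul_assoc, Matrix.mul_nonsing_inv _ hu2] using h3
    refine ⟨M.toBlocks₁₂, ⟨g * h⁻¹, G.mul_mem hg (G.inv_mem hh), ?_⟩, ?_⟩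
    · rw [← hM, ← Matrix.fromBlocks_toBlocks M, k11, k21, k22]
      simp
    · rw [← h12, k11]
  · intro c
    obtain ⟨k, hk, hkd, hkv, hkw⟩ := exists_unip1 hG hF (indep_Ln b) c
    obtain ⟨C, B, e⟩ := exists_blocks b k (un c) (by
      intro j
      fin_cases j
      · simp [un, hkv]
      · simp [un, hkw, add_comm])
    refine ⟨C, B, ?_, k, hk, e⟩
    have := det_blocks b e
    rw [hkd] at this
    simpa [un] using this
  · intro s hs
    obtain ⟨k, hk, hkd, hkv, hkw⟩ := exists_diag1 hG hF (indep_Ln b) hs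
    obtain ⟨C, B, e⟩ := exists_blocks b k (dg s) (by
      intro j
      fin_cases j
      · simp [dg, hkv]
      · simp [dg, hkw])
    refine ⟨C, B, ?_, k, hk, e⟩
    have := det_blocks b e
    rw [hkd] at this
    simpa [dg, hs] using this
  · rintro a C B hb
    have ha : a ≠ 0 := by
      rintro rfl
      apply (hdetne hb).1
      simp
    obtain ⟨g, hg, e⟩ := hb
    obtain ⟨z, hz, hz'⟩ := hG.scalar a⁻¹ (inv_ne_zero ha)
    have e2 := scalar_matrix b hz' g e
    rw [smul_smul, inv_mul_cancel₀ ha, one_smul] at e2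
    have hfix : ∀ x ∈ Ln b, (z * g) x = x := by
      intro x hx
      rw [mem_Ln] at hx
      apply b.repr.injective
      ext i
      rcases i with i | i
      · rw [repr_inl b e2, hx.1, hx.2]
        rcases two_cases i with rfl | rfl <;> simp
      · rw [repr_inr b e2, hx.1, hx.2]
        rcases two_cases i with rfl | rfl <;> simp [hx.1, hx.2]
    obtain ⟨μ, hμ⟩ := quot_of_scalar hP hd hG hF (finrank_Ln b) (G.mul_mem hz hg) hfix
    refine ⟨a * μ, ?_⟩
    have key : ∀ i j, a⁻¹ * B i j - μ * (1 : Matrix (Fin 2) (Fin 2) F) i j = 0 := by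
      intro i j
      have h1 := hμ (b (Sum.inr j))
      rw [mem_Ln] at h1
      have h2 : b.repr ((z * g) (b (Sum.inr j)) - μ • b (Sum.inr j)) (Sum.inr i) = 0 := by
        rcases two_cases i with rfl | rfl
        · exact h1.1
        · exact h1.2
      rw [map_sub, Finsupp.sub_apply, repr_inr b e2] at h2
      rcases two_cases i with rfl | rfl <;> rcases two_cases j with rfl | rfl <;>
        simpa [Finsupp.single_apply] using h2
    ext i j
    have h3 := key i j
    rw [Matrix.smul_apply, smul_eq_mul]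
    have h4 : a * a⁻¹ = 1 := mul_inv_cancel₀ ha
    linear_combination a * h3 - B i j * h4
  · rintro a A C hb
    have ha : a ≠ 0 := by
      rintro rfl
      apply (hdetne hb).2
      simp
    obtain ⟨g, hg, e⟩ := hb
    obtain ⟨z, hz, hz'⟩ := hG.scalar a⁻¹ (inv_ne_zero ha)
    have e2 := scalar_matrix b hz' g e
    rw [smul_smul, inv_mul_cancel₀ ha, one_smul] at e2
    have hq : z * g ∈ QT G (Ln b) := by
      refine ⟨G.mul_mem hz hg, fun x => ?_⟩
      rw [mem_Ln, map_sub, Finsupp.sub_apply, Finsupp.sub_apply, repr_inr b e2, repr_inr b e2]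
      simp
    obtain ⟨μ, hμ⟩ := scalar_of_quot hP hd hG hF (finrank_Ln b) hq
    refine ⟨a * μ, ?_⟩
    have key : ∀ i j, a⁻¹ * A i j = μ * (1 : Matrix (Fin 2) (Fin 2) F) i j := by
      intro i j
      have h1 := hμ (b (Sum.inl j)) (by
        rw [mem_Ln]
        simp)
      have h2 : b.repr ((z * g) (b (Sum.inl j))) (Sum.inl i) =
          b.repr (μ • b (Sum.inl j)) (Sum.inl i) := by rw [h1]
      rw [repr_inl b e2] at h2
      rcases two_cases i with rfl | rfl <;> rcases two_cases j with rfl | rfl <;>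
        simpa [Finsupp.single_apply] using h2
    ext i j
    have h3 := key i j
    rw [Matrix.smul_apply, smul_eq_mul]
    have h4 : a * a⁻¹ = 1 := mul_inv_cancel₀ ha
    linear_combination a * h3 - A i j * h4
  · rintro C ⟨g, hg, e⟩ hC
    by_contra hC0
    set N : V →ₗ[F] V := (g : V →ₗ[F] V) - LinearMap.id with hN
    have hNa : ∀ x, N x = g x - x := fun x => rfl
    have hN0 : N ≠ 0 := by
      intro h
      apply hC0
      ext i j
      have h1 := congrArg (fun M : V →ₗ[F] V => b.repr (M (b (Sum.inr j))) (Sum.inl i)) h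
      simp only [hNa, map_sub, Finsupp.sub_apply, LinearMap.zero_apply, map_zero,
        Finsupp.zero_apply] at h1
      rw [repr_inl b e] at h1
      rcases two_cases i with rfl | rfl <;> rcases two_cases j with rfl | rfl <;>
        simpa [Finsupp.single_apply] using h1
    have hLN : Ln b ≤ LinearMap.ker N := by
      intro x hx
      rw [mem_Ln] at hx
      rw [LinearMap.mem_ker, hNa, sub_eq_zero]
      apply b.repr.injective
      ext i
      rcases i with i | i
      · rw [repr_inl b e, hx.1, hx.2]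
        rcases two_cases i with rfl | rfl <;> simp
      · rw [repr_inr b e, hx.1, hx.2]
        rcases two_cases i with rfl | rfl <;> simp [hx.1, hx.2]
    obtain ⟨hk, -⟩ := ker_eq_of hP hd (finrank_Ln b) ⟨g, hg, fun x => by rw [hNa]; abel⟩ hN0 hLN
    obtain ⟨p, hp, hCp⟩ := Matrix.exists_mulVec_eq_zero_iff.2 hC
    have hy : p 0 • b (Sum.inr 0) + p 1 • b (Sum.inr 1) ∈ LinearMap.ker N := by
      rw [LinearMap.mem_ker, hNa, sub_eq_zero]
      have hp0 := congrFun hCp 0
      have hp1 := congrFun hCp 1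
      simp [Matrix.mulVec, dotProduct, Fin.sum_univ_two] at hp0 hp1
      apply b.repr.injective
      ext i
      rcases i with i | i
      · rw [repr_inl b e]
        rcases two_cases i with rfl | rfl <;> simp [Finsupp.single_apply, hp0, hp1]
      · rw [repr_inr b e]
        rcases two_cases i with rfl | rfl <;> simp [Finsupp.single_apply]
    rw [hk, mem_Ln] at hy
    apply hp
    ext i
    rcases two_cases i with rfl | rfl
    · simpa [Finsupp.single_apply] using hy.1
    · simpa [Finsupp.single_apply] using hy.2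

end Pool.Agent.H95.DT
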