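import Mathlib

/-!
# Systems of block upper triangular matrices with two-by-two blocks

`Blk A C B` means that the matrix with the blocks `A`, `C`, `0`, `B` belongs to a given group.
-/

namespace Pool.Agent.H95.DT

open Matrix

variable {F : Type*} [Field F]

/-- upper unipotent -/
def un (c : F) : Matrix (Fin 2) (Fin 2) F := !![1, c; 0, 1]
/-- torus -/
def dg (s : F) : Matrix (Fin 2) (Fin 2) F := !![s, 0; 0, s⁻¹]

lemma un_mul (a b : F) : un a * un b = un (a + b) := by
  unfold un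
  ext i j
  fin_cases i <;> fin_cases j <;> simp [Matrix.mul_apply, Fin.sum_univ_two, add_comm]

lemma su_mul (δ δ' a b : F) : (δ • un a) * (δ' • un b) = (δ * δ') • un (a + b) := by
  rw [smul_mul_assoc, mul_smul_comm, un_mul, smul_smul]

lemma un_zero : un (0 : F) = 1 := by
  unfold un
  ext i j
  fin_cases i <;> fin_cases j <;> simp

lemma dg_un {s : F} (hs : s ≠ 0) (c : F) : dg s * un c = un (s ^ 2 * c) * dg s := by
  unfold dg un
  ext i j
  fin_cases i <;> fin_cases j <;> simp [Matrix.mul_apply, Fin.sum_univ_two]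
  field_simp

lemma un_scalar {c μ : F} (h : un c = μ • (1 : Matrix (Fin 2) (Fin 2) F)) : c = 0 := by
  have := congrFun (congrFun h 0) 1
  simpa [un] using this

/-- A group of block upper triangular matrices. -/
structure LocSys (Blk : Matrix (Fin 2) (Fin 2) F → Matrix (Fin 2) (Fin 2) F →
    Matrix (Fin 2) (Fin 2) F → Prop) : Prop where
  mul : ∀ {A C B A' C' B' : Matrix (Fin 2) (Fin 2) F}, Blk A C B → Blk A' C' B' → Blk (A * A') (A * C' + C * B') (B * B')
  quot : ∀ {A C B A' C' B' A'' B'' : Matrix (Fin 2) (Fin 2) F}, Blk A C B → Blk A' C' B' → A = A'' * A' → B = B'' * B' →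
    ∃ C'', Blk A'' C'' B'' ∧ C = A'' * C' + C'' * B'
  f1 : ∀ c : F, ∃ C B : Matrix (Fin 2) (Fin 2) F, B.det = 1 ∧ Blk (un c) C B
  f2 : ∀ s : F, s ≠ 0 → ∃ C B : Matrix (Fin 2) (Fin 2) F, B.det = 1 ∧ Blk (dg s) C B
  f3 : ∀ {a : F} {C B : Matrix (Fin 2) (Fin 2) F}, Blk (a • 1) C B → ∃ μ : F, B = μ • 1
  f4 : ∀ {a : F} {A C : Matrix (Fin 2) (Fin 2) F}, Blk A C (a • 1) → ∃ μ : F, A = μ • 1
  f5 : ∀ {C : Matrix (Fin 2) (Fin 2) F}, Blk 1 C 1 → C.det = 0 → C = 0

/-! ### two-by-two matrices -/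

omit [Field F] in
lemma eta2 (B : Matrix (Fin 2) (Fin 2) F) : B = !![B 0 0, B 0 1; B 1 0, B 1 1] :=
  Matrix.eta_fin_two B

lemma comm_two {B X : Matrix (Fin 2) (Fin 2) F} (hB : ∀ μ : F, B ≠ μ • 1) (h : X * B = B * X) :
    ∃ x y : F, X = x • (1 : Matrix (Fin 2) (Fin 2) F) + y • B := by
  obtain ⟨a, b, c, d, rfl⟩ : ∃ a b c d, B = !![a, b; c, d] := ⟨_, _, _, _, eta2 B⟩
  obtain ⟨p, q, r, s, rfl⟩ : ∃ a b c d, X = !![a, b; c, d] := ⟨_, _, _, _, eta2 X⟩
  have h00 := congrFun (congrFun h 0) 0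
  have h01 := congrFun (congrFun h 0) 1
  have h10 := congrFun (congrFun h 1) 0
  simp [Matrix.mul_apply, Fin.sum_univ_two] at h00 h01 h10
  by_cases hb : b = 0
  · by_cases hc : c = 0
    · have had : a - d ≠ 0 := by
        intro h0
        apply hB a
        have : d = a := (sub_eq_zero.1 h0).symm
        ext i j
        fin_cases i <;> fin_cases j <;> simp [hb, hc, this]
      subst hb hc
      have hq : q = 0 := by
        have : q * (a - d) = 0 := by linear_combination -h01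
        exact (mul_eq_zero.1 this).resolve_right had
      have hr : r = 0 := by
        have : r * (a - d) = 0 := by linear_combination h10
        exact (mul_eq_zero.1 this).resolve_right had
      refine ⟨p - (p - s) / (a - d) * a, (p - s) / (a - d), ?_⟩
      ext i j
      fin_cases i <;> fin_cases j <;> simp [hq, hr]
      field_simp
      ring
    · refine ⟨p - r / c * a, r / c, ?_⟩
      ext i j
      fin_cases i <;> fin_cases j <;> simp
      · field_simp
        linear_combination h00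
      · field_simp
      · field_simp
        linear_combination h10
  · refine ⟨p - q / b * a, q / b, ?_⟩
    ext i j
    fin_cases i <;> fin_cases j <;> simp
    · field_simp
    · field_simp
      linear_combination -h00
    · field_simp
      linear_combination -h01

lemma det_comb (x y : F) (B : Matrix (Fin 2) (Fin 2) F) :
    (x • (1 : Matrix (Fin 2) (Fin 2) F) + y • B).det = x ^ 2 + x * y * B.trace + y ^ 2 * B.det := by
  obtain ⟨a, b, c, d, rfl⟩ : ∃ a b c d, B = !![a, b; c, d] := ⟨_, _, _, _, eta2 B⟩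
  rw [Matrix.det_fin_two, Matrix.det_fin_two, Matrix.trace_fin_two]
  simp
  ring

lemma trace_comb (x y : F) (B : Matrix (Fin 2) (Fin 2) F) :
    (x • (1 : Matrix (Fin 2) (Fin 2) F) + y • B).trace = 2 * x + y * B.trace := by
  simp [Matrix.trace_add, Matrix.trace_smul]
  ring

lemma adj_eq (B : Matrix (Fin 2) (Fin 2) F) :
    B.adjugate = B.trace • (1 : Matrix (Fin 2) (Fin 2) F) - B := by
  obtain ⟨a, b, c, d, rfl⟩ : ∃ a b c d, B = !![a, b; c, d] := ⟨_, _, _, _, eta2 B⟩
  rw [Matrix.adjugate_fin_two, Matrix.trace_fin_two]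
  ext i j
  fin_cases i <;> fin_cases j <;> simp

lemma comm_cases {B X : Matrix (Fin 2) (Fin 2) F} (hB : ∀ μ : F, B ≠ μ • 1) (h : X * B = B * X)
    (hB1 : B.det = 1) (hX1 : X.det = 1) (ht : X.trace = B.trace) (h4 : B.trace ^ 2 ≠ 4) :
    ∃ y : F, X = y • B ∨ X * B = y • 1 := by
  obtain ⟨x, y, rfl⟩ := comm_two hB h
  rw [det_comb, hB1] at hX1
  rw [trace_comb] at ht
  set t := B.trace with htdef
  have h1 : (t ^ 2 - 4) * (1 - y ^ 2) = 0 := by
    have e : (2 * x + y * t) ^ 2 = t ^ 2 := by rw [ht]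
    linear_combination (-1 : F) * e + 4 * hX1
  have h2 : y ^ 2 = 1 := by
    rcases mul_eq_zero.1 h1 with h | h
    · exact absurd (sub_eq_zero.1 h) h4
    · exact (sub_eq_zero.1 h).symm
  have h3 : x * (x + y * t) = 0 := by linear_combination hX1 - h2
  rcases mul_eq_zero.1 h3 with h | h
  · exact ⟨y, Or.inl (by rw [h]; simp)⟩
  · refine ⟨-y, Or.inr ?_⟩
    have hx : x = -(y * t) := eq_neg_of_add_eq_zero_left h
    have h5 : B * B = t • B - (1 : Matrix (Fin 2) (Fin 2) F) := by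
      have h6 := Matrix.mul_adjugate B
      rw [adj_eq, hB1, ← htdef, mul_sub, mul_smul_comm, mul_one, one_smul] at h6
      rw [← h6]; abel
    rw [add_mul, smul_mul_assoc, one_mul, smul_mul_assoc, h5, hx]
    module

namespace LocSys

variable {Blk : Matrix (Fin 2) (Fin 2) F → Matrix (Fin 2) (Fin 2) F →
    Matrix (Fin 2) (Fin 2) F → Prop}

/-- conjugation of a unipotent element by a torus element -/
lemma conj (H : LocSys Blk) {s c : F} (hs : s ≠ 0) {C B E D : Matrix (Fin 2) (Fin 2) F}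
    (h : Blk (un c) C B) (hD : D.det = 1) (h' : Blk (dg s) E D) :
    ∃ C'', Blk (un (s ^ 2 * c)) C'' (D * B * D.adjugate) ∧
      dg s * C + E * B = un (s ^ 2 * c) * E + C'' * D := by
  have h1 := H.mul h' h
  rw [dg_un hs] at h1
  refine H.quot h1 h' rfl ?_
  rw [mul_assoc (D * B), Matrix.adjugate_mul, hD, one_smul, mul_one]

/-- the commutator acts as a scalar on the quotient -/
lemma comm_scalar (H : LocSys Blk) {a b : F} {C B C' B' : Matrix (Fin 2) (Fin 2) F}
    (h : Blk (un a) C B) (h' : Blk (un b) C' B') (hB : B.det = 1) (hB' : B'.det = 1) :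
    ∃ μ : F, μ ^ 2 = 1 ∧ B * B' = μ • (B' * B) := by
  have h1 := H.mul h h'
  have h2 := H.mul h' h
  rw [un_mul] at h1 h2
  have e1 : un (a + b) = (1 : F) • (1 : Matrix (Fin 2) (Fin 2) F) * un (b + a) := by
    rw [add_comm a b]; simp
  have e2 : B * B' = (B * B' * (B' * B).adjugate) * (B' * B) := by
    rw [mul_assoc (B * B'), Matrix.adjugate_mul, Matrix.det_mul, hB, hB', one_mul, one_smul,
      mul_one]
  obtain ⟨C'', h3, -⟩ := H.quot h1 h2 e1 e2
  obtain ⟨μ, hμ⟩ := H.f3 h3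
  rw [hμ, smul_mul_assoc, one_mul] at e2
  refine ⟨μ, ?_, e2⟩
  have h4 := congrArg Matrix.det e2
  rw [Matrix.det_smul, Matrix.det_mul, Matrix.det_mul, hB, hB'] at h4
  simpa using h4.symm

/-- the quotient action of a unipotent element has trace `±2` -/
lemma trace_sq (H : LocSys Blk) (hF : ∃ s : F, s ≠ 0 ∧ s ^ 4 ≠ 1) {c : F}
    {C B : Matrix (Fin 2) (Fin 2) F}
    (h : Blk (un c) C B) (hB : B.det = 1) : B.trace ^ 2 = 4 := by
  by_cases hc : c = 0
  · subst hc
    rw [un_zero] at h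
    obtain ⟨μ, rfl⟩ := H.f3 (a := 1) (by simpa using h)
    rw [Matrix.det_smul, Matrix.det_one, Fintype.card_fin, mul_one] at hB
    rw [Matrix.trace_smul]
    simp
    linear_combination 4 * hB
  by_contra h4
  obtain ⟨s, hs0, hs4⟩ := hF
  obtain ⟨E, D, hD, hE⟩ := H.f2 s hs0
  obtain ⟨C', hX, -⟩ := H.conj hs0 h hD hE
  set X := D * B * D.adjugate with hXdef
  have hnon : ∀ μ : F, B ≠ μ • 1 := by
    rintro μ rfl
    obtain ⟨ν, hν⟩ := H.f4 h
    exact hc (un_scalar hν)
  have hXd : X.det = 1 := by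
    rw [hXdef, Matrix.det_mul, Matrix.det_mul, hD, hB, Matrix.det_adjugate, hD]; simp
  have hXt : X.trace = B.trace := by
    rw [hXdef, Matrix.trace_mul_comm, ← mul_assoc, Matrix.adjugate_mul, hD, one_smul, one_mul]
  obtain ⟨μ, hμ1, hμ⟩ := H.comm_scalar hX h hXd hB
  have hcomm : X * B = B * X := by
    -- taking traces
    have h5 : B.trace = μ * B.trace := by
      have h6 : X * B * X.adjugate = μ • B := by
        rw [hμ, smul_mul_assoc, mul_assoc, Matrix.mul_adjugate, hXd, one_smul, mul_one]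
      have h7 := congrArg Matrix.trace h6
      rw [Matrix.trace_mul_comm, ← mul_assoc, Matrix.adjugate_mul, hXd, one_smul, one_mul,
        Matrix.trace_smul] at h7
      simpa using h7
    by_cases ht : B.trace = 0
    · exfalso
      have h42 : (4 : F) ≠ 0 := by
        intro h0; apply h4; rw [ht, h0]; ring
      have h6 := Matrix.mul_adjugate B
      rw [adj_eq, hB, ht, zero_smul, zero_sub, mul_neg, one_smul] at h6
      have h7 := H.mul h h
      rw [un_mul] at h7
      have h8 : B * B = (-1 : F) • (1 : Matrix (Fin 2) (Fin 2) F) := by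
        rw [neg_smul, one_smul, ← h6, neg_neg]
      rw [h8] at h7
      obtain ⟨ν, hν⟩ := H.f4 h7
      have h9 := un_scalar hν
      have : (4 : F) * c = 0 := by linear_combination 2 * h9
      rcases mul_eq_zero.1 this with h | h
      · exact h42 h
      · exact hc h
    · have hμ2 : μ = 1 := by
        have : (μ - 1) * B.trace = 0 := by linear_combination -h5
        exact sub_eq_zero.1 ((mul_eq_zero.1 this).resolve_right ht)
      rw [hμ, hμ2, one_smul]
  obtain ⟨y, hy | hy⟩ := comm_cases hnon hcomm hB hXd hXt h4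
  · -- quotient
    have e1 : un (s ^ 2 * c) = un (s ^ 2 * c - c) * un c := by
      rw [un_mul]; congr 1; ring
    obtain ⟨C'', h5, -⟩ := H.quot hX h e1 (B'' := y • 1) (by rw [hy]; simp)
    obtain ⟨ν, hν⟩ := H.f4 h5
    have h6 := un_scalar hν
    have h7 : (s ^ 2 - 1) * c = 0 := by linear_combination h6
    have h8 := (mul_eq_zero.1 h7).resolve_right hc
    apply hs4
    linear_combination (s ^ 2 + 1) * h8
  · have h5 := H.mul hX h
    rw [un_mul, hy] at h5
    obtain ⟨ν, hν⟩ := H.f4 h5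
    have h6 := un_scalar hν
    have h7 : (s ^ 2 + 1) * c = 0 := by linear_combination h6
    have h8 := (mul_eq_zero.1 h7).resolve_right hc
    apply hs4
    linear_combination (s ^ 2 - 1) * h8

/-! ### The normalised frame -/

/-- `B = ε (1 + β e₁₂)` for the quotient action of unipotent elements -/
lemma quot_form (H : LocSys Blk) (hF : ∃ s : F, s ≠ 0 ∧ s ^ 4 ≠ 1) {ε : F} (hε : ε ^ 2 = 1)
    {C₀ : Matrix (Fin 2) (Fin 2) F} (h0 : Blk (un 1) C₀ (ε • un 1)) {c : F}
    {C B : Matrix (Fin 2) (Fin 2) F} (h : Blk (un c) C B) (hB : B.det = 1) :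
    ∃ δ β : F, δ ^ 2 = 1 ∧ B = δ • un β := by
  have hd1 : (ε • un (1 : F)).det = 1 := by
    rw [Matrix.det_smul]; simp [un, hε]
  obtain ⟨μ, hμ1, hμ⟩ := H.comm_scalar h h0 hB hd1
  have ht := H.trace_sq hF h hB
  have hcomm : B * un 1 = μ • (un 1 * B) := by
    have h1 : ε • (B * un 1) = ε • (μ • (un 1 * B)) := by
      rw [← mul_smul_comm, hμ, smul_mul_assoc, smul_comm]
    have h2 := congrArg (fun M => ε • M) h1
    simp only [smul_smul] at h2
    have e1 : ε * ε = 1 := by linear_combination hε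
    have e2 : ε * (ε * μ) = μ := by linear_combination μ * hε
    rw [e1, e2, one_smul] at h2
    exact h2
  obtain ⟨a, b, c', d, rfl⟩ : ∃ a b c d, B = !![a, b; c, d] := ⟨_, _, _, _, eta2 B⟩
  have h00 := congrFun (congrFun hcomm 0) 0
  have h01 := congrFun (congrFun hcomm 0) 1
  have h10 := congrFun (congrFun hcomm 1) 0
  have h11 := congrFun (congrFun hcomm 1) 1
  simp [Matrix.mul_apply, Fin.sum_univ_two, un] at h00 h01 h10 h11
  rw [Matrix.trace_fin_two] at ht
  rw [Matrix.det_fin_two] at hB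
  simp at ht hB
  -- the lower left entry vanishes
  have hc0 : c' = 0 := by
    by_cases hμ' : μ = 1
    · rw [hμ'] at h11; linear_combination h11
    · have : (μ - 1) * c' = 0 := by linear_combination -h10
      exact (mul_eq_zero.1 this).resolve_left (sub_ne_zero.2 hμ')
  subst hc0
  have ha : a ≠ 0 := by
    rintro rfl
    simp at hB
  have hμ2 : μ = 1 := by
    have : (μ - 1) * a = 0 := by linear_combination -h00
    exact sub_eq_zero.1 ((mul_eq_zero.1 this).resolve_right ha)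
  subst hμ2
  have hd : d = a := by linear_combination -h01
  subst hd
  refine ⟨d, d * b, by linear_combination hB, ?_⟩
  ext i j
  fin_cases i <;> fin_cases j <;> simp [un]
  linear_combination -b * hB

lemma quot_unique (H : LocSys Blk) {c δ δ' β β' : F} {C C' : Matrix (Fin 2) (Fin 2) F}
    (hδ : δ ^ 2 = 1) (hδ' : δ' ^ 2 = 1)
    (h : Blk (un c) C (δ • un β)) (h' : Blk (un c) C' (δ' • un β')) : β = β' := by
  have e1 : un c = (1 : F) • (1 : Matrix (Fin 2) (Fin 2) F) * un c := by simp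
  have e2 : δ • un β = ((δ * δ') • un (β - β')) * (δ' • un β') := by
    rw [smul_mul_assoc, mul_smul_comm, un_mul, smul_smul]
    congr 1
    · linear_combination -δ * hδ'
    · congr 1; ring
  obtain ⟨C'', h3, -⟩ := H.quot h h' e1 e2
  obtain ⟨μ, hμ⟩ := H.f3 h3
  have h4 := congrFun (congrFun hμ 0) 1
  simp [un] at h4
  rcases h4 with (h4 | h4) | h4
  · rw [h4] at hδ; simp at hδ
  · rw [h4] at hδ'; simp at hδ'
  · exact sub_eq_zero.1 h4

/-- the torus acts by upper triangular matrices in the normalised frame -/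
lemma torus_form (H : LocSys Blk) (hF : ∃ s : F, s ≠ 0 ∧ s ^ 4 ≠ 1) {ε : F} (hε : ε ^ 2 = 1)
    {C₀ : Matrix (Fin 2) (Fin 2) F} (h0 : Blk (un 1) C₀ (ε • un 1)) {s : F} (hs : s ≠ 0)
    {E D : Matrix (Fin 2) (Fin 2) F} (h : Blk (dg s) E D) (hD : D.det = 1) :
    D 1 0 = 0 ∧ D 0 0 * D 1 1 = 1 ∧ ∃ C'', Blk (un (s ^ 2)) C'' (ε • un (D 0 0 ^ 2)) ∧
      dg s * C₀ + E * (ε • un 1) = un (s ^ 2) * E + C'' * D := by
  obtain ⟨C'', h1, h2⟩ := H.conj hs h0 hD h
  rw [mul_one] at h1 h2
  have hd1 : (ε • un (1 : F)).det = 1 := by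
    rw [Matrix.det_smul]; simp [un, hε]
  have hdet : (D * (ε • un 1) * D.adjugate).det = 1 := by
    rw [Matrix.det_mul, Matrix.det_mul, hD, hd1, Matrix.det_adjugate, hD]; simp
  obtain ⟨δ, β, hδ, hβ⟩ := H.quot_form hF hε h0 h1 hdet
  have h3 : D * (ε • un 1) = (δ • un β) * D := by
    rw [← hβ, mul_assoc, Matrix.adjugate_mul, hD, one_smul, mul_one]
  obtain ⟨a, b, c', d, rfl⟩ : ∃ a b c d, D = !![a, b; c, d] := ⟨_, _, _, _, eta2 D⟩
  have h00 := congrFun (congrFun h3 0) 0
  have h01 := congrFun (congrFun h3 0) 1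
  have h10 := congrFun (congrFun h3 1) 0
  have h11 := congrFun (congrFun h3 1) 1
  simp [Matrix.mul_apply, Fin.sum_univ_two, un] at h00 h01 h10 h11
  rw [Matrix.det_fin_two] at hD
  simp at hD
  have hε0 : ε ≠ 0 := by rintro rfl; simp at hε
  have hc0 : c' = 0 := by
    by_cases hk : ε = δ
    · rw [hk] at h11
      have hδ0 : δ ≠ 0 := by rintro rfl; simp at hδ
      have : δ * c' = 0 := by linear_combination h11
      exact (mul_eq_zero.1 this).resolve_left hδ0
    · have : (ε - δ) * c' = 0 := by linear_combination h10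
      exact (mul_eq_zero.1 this).resolve_left (sub_ne_zero.2 hk)
  subst hc0
  have ha : a ≠ 0 := by
    rintro rfl
    simp at hD
  have hk : ε = δ := by
    have : (ε - δ) * a = 0 := by linear_combination h00
    exact sub_eq_zero.1 ((mul_eq_zero.1 this).resolve_right ha)
  subst hk
  have hβ2 : β = a ^ 2 := by
    have h5 : ε * (a - β * d) = 0 := by linear_combination h01
    have h6 := (mul_eq_zero.1 h5).resolve_left hε0
    linear_combination (-β) * hD - a * h6
  refine ⟨rfl, by simpa using hD, C'', ?_, h2⟩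
  rw [hβ, hβ2] at h1
  exact h1

/-! ### The case without square-zero elements -/

lemma exists_unip_rep (H : LocSys Blk) (hF : ∃ s : F, s ≠ 0 ∧ s ^ 4 ≠ 1) {ε : F} (hε : ε ^ 2 = 1)
    {C₀ : Matrix (Fin 2) (Fin 2) F} (h0 : Blk (un 1) C₀ (ε • un 1)) (c : F) :
    ∃ C β, Blk (un c) C (un β) := by
  by_cases h2 : (2 : F) = 0
  · obtain ⟨C, B, hB, h⟩ := H.f1 c
    obtain ⟨δ, β, hδ, rfl⟩ := H.quot_form hF hε h0 h hB
    have : δ = 1 := by
      have h3 : (δ - 1) ^ 2 = 0 := by linear_combination hδ - (δ - 1) * h2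
      exact sub_eq_zero.1 (pow_eq_zero_iff (two_ne_zero) |>.1 h3)
    subst this
    exact ⟨C, β, by simpa using h⟩
  · obtain ⟨C, B, hB, h⟩ := H.f1 (c / 2)
    obtain ⟨δ, β, hδ, rfl⟩ := H.quot_form hF hε h0 h hB
    have h1 := H.mul h h
    rw [un_mul, su_mul] at h1
    have e1 : c / 2 + c / 2 = c := by field_simp; ring
    have e2 : δ * δ = 1 := by linear_combination hδ
    rw [e1, e2, one_smul] at h1
    exact ⟨_, _, h1⟩

lemma no_regular (H : LocSys Blk) (hF : ∃ s : F, s ≠ 0 ∧ s ^ 4 ≠ 1)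
    (hF8 : ∃ s : F, s ≠ 0 ∧ s ^ 8 ≠ 1) {ε : F} (hε : ε ^ 2 = 1)
    {C₀ : Matrix (Fin 2) (Fin 2) F} (h0 : Blk (un 1) C₀ (ε • un 1))
    (hU : ∀ C, Blk 1 C 1 → C = 0) (hγ : ∀ C β, Blk (un 1) C (un β) → C 1 0 ≠ 0) : False := by
  obtain ⟨C₁, β₁, h1⟩ := H.exists_unip_rep hF hε h0 1
  have hβ1 : β₁ = 1 :=
    H.quot_unique (one_pow 2) hε (by simpa using h1) h0
  subst hβ1
  have hγ1 := hγ _ _ h1
  obtain ⟨s, hs, hs8⟩ := hF8
  obtain ⟨E, D, hD, hE⟩ := H.f2 s hs
  obtain ⟨hD10, hpd, C'', h2, h3⟩ := H.torus_form hF (one_pow 2) (by simpa using h1) hs hE hD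
  rw [one_smul] at h2 h3
  -- commutation
  have h4 := H.mul h1 h2
  have h5 := H.mul h2 h1
  rw [un_mul, un_mul] at h4 h5
  obtain ⟨X, hX, hX2⟩ := H.quot h4 h5 (A'' := 1) (B'' := 1) (by rw [one_mul, add_comm])
    (by rw [one_mul, add_comm])
  rw [hU X hX, zero_mul, add_zero, one_mul] at hX2
  obtain ⟨a, b, c, d, rfl⟩ : ∃ a b c d, D = !![a, b; c, d] := ⟨_, _, _, _, eta2 D⟩
  obtain ⟨x, y, z, w, rfl⟩ : ∃ a b c d, C₁ = !![a, b; c, d] := ⟨_, _, _, _, eta2 C₁⟩
  obtain ⟨x', y', z', w', rfl⟩ : ∃ a b c d, C'' = !![a, b; c, d] := ⟨_, _, _, _, eta2 C''⟩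
  obtain ⟨e, f, g, k, rfl⟩ : ∃ a b c d, E = !![a, b; c, d] := ⟨_, _, _, _, eta2 E⟩
  simp only [Matrix.of_apply, Matrix.cons_val', Matrix.cons_val_zero, Matrix.cons_val_one,
    Matrix.cons_val_fin_one] at hD10 hpd hX2 hγ1
  subst hD10
  have q00 := congrFun (congrFun hX2 0) 0
  have q11 := congrFun (congrFun hX2 1) 1
  have r10 := congrFun (congrFun h3 1) 0
  simp [un, dg] at q00 q11 r10
  have e1 : z' = s ^ 2 * z := by linear_combination q00
  have e2 : a ^ 2 = s ^ 2 := by
    have : z * (a ^ 2 - s ^ 2) = 0 := by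
      rw [e1] at q11
      linear_combination q11
    exact sub_eq_zero.1 ((mul_eq_zero.1 this).resolve_left hγ1)
  have e3 : s ^ 3 * a = 1 := by
    rw [e1] at r10
    have h6 : z * (1 - s ^ 3 * a) = 0 := by
      have h7 : s * (s⁻¹ * z) = s * (s ^ 2 * z * a) := by
        congr 1; linear_combination r10
      rw [← mul_assoc, mul_inv_cancel₀ hs] at h7
      linear_combination h7
    exact (sub_eq_zero.1 ((mul_eq_zero.1 h6).resolve_left hγ1)).symm
  apply hs8
  linear_combination (-s ^ 6) * e2 + (s ^ 3 * a + 1) * e3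

/-! ### The case with square-zero elements -/

lemma t_zero (H : LocSys Blk) : Blk 1 0 1 := by
  obtain ⟨C, B, hB, h⟩ := H.f1 0
  obtain ⟨X, hX, hX2⟩ := H.quot h h (A'' := 1) (B'' := 1) (by simp) (by simp)
  rw [one_mul] at hX2
  have h1 : X * B = 0 := by
    have := hX2
    rwa [left_eq_add] at this
  have h2 : X = 0 := by
    have h3 : X * B * B.adjugate = 0 := by rw [h1, zero_mul]
    rwa [mul_assoc, Matrix.mul_adjugate, hB, one_smul, mul_one] at h3
  rwa [h2] at hX

lemma t_add (H : LocSys Blk) {T T' : Matrix (Fin 2) (Fin 2) F} (h : Blk 1 T 1)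
    (h' : Blk 1 T' 1) : Blk 1 (T + T') 1 := by
  have := H.mul h h'
  simpa [add_comm] using this

lemma t_neg (H : LocSys Blk) {T : Matrix (Fin 2) (Fin 2) F} (h : Blk 1 T 1) :
    Blk 1 (-T) 1 := by
  obtain ⟨X, hX, hX2⟩ := H.quot H.t_zero h (A'' := 1) (B'' := 1) (by simp) (by simp)
  rw [one_mul, mul_one] at hX2
  have : X = -T := (neg_eq_of_add_eq_zero_right hX2.symm).symm
  rwa [this] at hX

lemma t_sub (H : LocSys Blk) {T T' : Matrix (Fin 2) (Fin 2) F} (h : Blk 1 T 1)
    (h' : Blk 1 T' 1) : Blk 1 (T - T') 1 := by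
  rw [sub_eq_add_neg]; exact H.t_add h (H.t_neg h')

lemma t_act (H : LocSys Blk) {A C B T : Matrix (Fin 2) (Fin 2) F} (hB : B.det = 1)
    (h : Blk A C B) (hT : Blk 1 T 1) : Blk 1 (A * T * B.adjugate) 1 := by
  have h1 := H.mul h hT
  rw [mul_one, mul_one, mul_one] at h1
  obtain ⟨X, hX, hX2⟩ := H.quot h1 h (A'' := 1) (B'' := 1) (by simp) (by simp)
  rw [one_mul, add_comm] at hX2
  have h2 : A * T = X * B := add_left_cancel hX2
  rw [h2, mul_assoc, Matrix.mul_adjugate, hB, one_smul, mul_one]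
  exact hX

lemma t_un (H : LocSys Blk) {c δ β : F} (hδ : δ ^ 2 = 1) {C T : Matrix (Fin 2) (Fin 2) F}
    (h : Blk (un c) C (δ • un β)) (hT : Blk 1 T 1) : Blk 1 (un c * T * un (-β)) 1 := by
  have hdet : (δ • un β).det = 1 := by
    rw [Matrix.det_smul]; simp [un, hδ]
  have h1 := H.t_act hdet h hT
  have hadj : (δ • un β).adjugate = δ • un (-β) := by
    rw [Matrix.adjugate_smul]
    simp only [Fintype.card_fin, un, Matrix.adjugate_fin_two_of]
    congr 1
    · ring
    · ext i j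
      fin_cases i <;> fin_cases j <;> simp
  rw [hadj, mul_smul_comm] at h1
  have h2 : (δ - 1) * (δ + 1) = 0 := by linear_combination hδ
  rcases mul_eq_zero.1 h2 with h3 | h3
  · rw [sub_eq_zero.1 h3, one_smul] at h1; exact h1
  · rw [eq_neg_of_add_eq_zero_left h3, neg_smul, one_smul] at h1
    simpa using H.t_neg h1

lemma lower_zero (H : LocSys Blk) (hF : ∃ s : F, s ≠ 0 ∧ s ^ 4 ≠ 1) {ε : F} (hε : ε ^ 2 = 1)
    {C₀ : Matrix (Fin 2) (Fin 2) F} (h0 : Blk (un 1) C₀ (ε • un 1))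
    {T : Matrix (Fin 2) (Fin 2) F} (hT : Blk 1 T 1) : T 1 0 = 0 := by
  obtain ⟨x, y, t, w, rfl⟩ : ∃ a b c d, T = !![a, b; c, d] := ⟨_, _, _, _, eta2 T⟩
  by_contra ht0
  simp only [Matrix.of_apply, Matrix.cons_val', Matrix.cons_val_zero, Matrix.cons_val_one,
    Matrix.cons_val_fin_one] at ht0
  have ht : t ≠ 0 := ht0
  have hE1 := H.t_un hε h0 hT
  have h00 := H.mul h0 h0
  rw [un_mul, su_mul] at h00
  have hεε : (ε * ε) ^ 2 = 1 := by
    linear_combination (ε ^ 2 + 1) * hε
  have hE2 := H.t_un hεε h00 hT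
  -- `2 = 0`
  have h2 : (2 : F) = 0 := by
    have h3 := H.t_sub (H.t_sub hE2 hE1) (H.t_sub hE1 hT)
    have h4 := H.f5 h3 (by
      rw [Matrix.det_fin_two]
      simp [un]
      left; ring)
    have h5 := congrFun (congrFun h4 0) 1
    simp [un] at h5
    have h6 : 2 * t = 0 := by linear_combination -h5
    exact (mul_eq_zero.1 h6).resolve_right ht
  -- `β(c) = -c`
  have hβ : ∀ (c : F) (C : Matrix (Fin 2) (Fin 2) F) (δ β : F), δ ^ 2 = 1 → Blk (un c) C (δ • un β) → β = -c := by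
    intro c C δ β hδ h
    have hEc := H.t_un hδ h hT
    have h1c := H.mul h0 h
    rw [un_mul, su_mul] at h1c
    have hE1c := H.t_un (by rw [mul_pow, hε, hδ, one_mul]) h1c hT
    have h3 := H.t_sub (H.t_sub hE1c hE1) (H.t_sub hEc hT)
    have h4 := H.f5 h3 (by
      rw [Matrix.det_fin_two]
      simp [un]
      left; ring)
    have h5 := congrFun (congrFun h4 0) 1
    simp [un] at h5
    have h6 : (β + c) * t = 0 := by linear_combination -h5
    exact eq_neg_of_add_eq_zero_left ((mul_eq_zero.1 h6).resolve_right ht)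
  obtain ⟨s, hs, hs4⟩ := hF
  have hs2 : s ^ 2 - 1 ≠ 0 := by
    intro h
    apply hs4
    linear_combination (s ^ 2 + 1) * h
  have hs1 : s - 1 ≠ 0 := by
    intro h
    apply hs2
    linear_combination (s + 1) * h
  obtain ⟨E, D, hD, hE⟩ := H.f2 s hs
  obtain ⟨hD10, hpd, C'', h5, -⟩ := H.torus_form ⟨s, hs, hs4⟩ hε h0 hs hE hD
  have h6 := hβ _ _ _ _ hε h5
  obtain ⟨a, b, c, d, rfl⟩ : ∃ a b c d, D = !![a, b; c, d] := ⟨_, _, _, _, eta2 D⟩
  simp only [Matrix.of_apply, Matrix.cons_val', Matrix.cons_val_zero, Matrix.cons_val_one,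
    Matrix.cons_val_fin_one] at hD10 hpd h6
  subst hD10
  have has : a = s := by
    have h7 : (a - s) ^ 2 = 0 := by linear_combination h6 - a * s * h2
    exact sub_eq_zero.1 (pow_eq_zero_iff (two_ne_zero) |>.1 h7)
  subst has
  have hd : d = a⁻¹ := by
    field_simp
    linear_combination hpd
  -- the key relation
  have key : ∀ c : F, c ≠ 0 → (a ^ 2 - 1) * ((w + x) + c * t) = a * b * t := by
    intro c hc
    obtain ⟨C, B, hB, h⟩ := H.f1 c
    obtain ⟨δ, β, hδ, rfl⟩ := H.quot_form ⟨a, hs, hs4⟩ hε h0 h hB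
    have hbc := hβ _ _ _ _ hδ h
    subst hbc
    have hEc := H.t_sub (H.t_un hδ h hT) hT
    have h8 := H.t_act hD hE hEc
    have h9 := H.t_sub h8 hEc
    have e10 : dg a * (un c * !![x, y; t, w] * un (- -c) - !![x, y; t, w]) *
        (!![a, b; 0, d] : Matrix (Fin 2) (Fin 2) F).adjugate -
        (un c * !![x, y; t, w] * un (- -c) - !![x, y; t, w]) =
        !![0, c * ((a ^ 2 - 1) * ((w + x) + c * t) - a * b * t); 0, 0] := by
      rw [Matrix.adjugate_fin_two_of]
      ext i j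
      fin_cases i <;> fin_cases j <;>
        simp [un, dg, hd]
      · field_simp
        ring
      · field_simp
        ring
      · field_simp
        ring
    rw [e10] at h9
    have h11 := H.f5 h9 (by rw [Matrix.det_fin_two]; simp)
    have h12 := congrFun (congrFun h11 0) 1
    simp only [Matrix.of_apply, Matrix.cons_val', Matrix.cons_val_zero, Matrix.cons_val_one,
      Matrix.cons_val_fin_one, Matrix.zero_apply, mul_eq_zero] at h12
    rcases h12 with h12 | h12
    · exact absurd h12 hc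
    · exact sub_eq_zero.1 h12
  have k1 := key 1 one_ne_zero
  have k2 := key a hs
  have : (a ^ 2 - 1) * (a - 1) * t = 0 := by linear_combination k2 - k1
  rcases mul_eq_zero.1 this with h | h
  · rcases mul_eq_zero.1 h with h | h
    · exact hs2 h
    · exact hs1 h
  · exact ht h

end LocSys

end Pool.Agent.H95.DT
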